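import Pool.Agent.helper75.Kus3.Film

/-!
# Integration over a film in the coordinates `fpar`
-/

open Set Metric MeasureTheory
open scoped ContDiff Topology

namespace Kusner.Br

theorem exists_perp {w : E3} (hw : w ≠ 0) : ∃ a b : E3, Perp w a b := by
  obtain ⟨a, b, u, hF, hu⟩ := P.exists_film_frame hw
  refine ⟨a, b, hF.na, hF.nb, hF.ab, ?_, ?_⟩
  · rw [hu, inner_smul_left, real_inner_comm, hF.ap, mul_zero]
  · rw [hu, inner_smul_left, real_inner_comm, hF.bp, mul_zero]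

theorem fq_eq (w0 wt : ℝ) (wv : E3) (e : ℝ) : P.fq w0 wt ‖wv‖ e = rho2 w0 wt wv e := by
  unfold P.fq P.fc rho2
  rw [div_pow]

theorem filmY_eq {w0 wt : ℝ} {wv : E3} (hwv : wv ≠ 0) (a b : E3) (x : ℝ × ℝ) :
    P.filmY w0 wt ‖wv‖ a b (‖wv‖⁻¹ • wv) x = fpar w0 wt wv a b x := by
  have hn : ‖wv‖ ≠ 0 := norm_ne_zero_iff.2 hwv
  apply P.vec_ext
  · simp [P.filmY, fpar]
  · rw [P.filmY, P.vec_add, P.vec_add, P.vec_smul, P.vec_smul, P.vec_smul, P.vec_add, P.vec_smul,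
      P.vec_smul, P.vec_e0, P.vec_emb, P.vec_emb, P.vec_emb, fq_eq, P.fc]
    ext i
    fin_cases i <;> simp [vec, fpar] <;> field_simp

theorem film_integral {w0 wt : ℝ} {wv a' b' : E3} (hw : w0 ^ 2 + ‖wv‖ ^ 2 - wt ^ 2 = 1)
    (hwv : wv ≠ 0) (hab : Perp wv a' b') {S : Set E4} (hS : MeasurableSet S)
    (hS1 : ∀ Y ∈ S, ‖Y‖ = 1) (hS2 : ∀ Y ∈ S, w0 * Y 0 + inner ℝ wv (vec Y) = wt) (h : E4 → ℝ) :
    ∫ Y in S, h Y ∂μH[2] =
      cH / ‖wv‖ * ∫ u in {u : ℝ × ℝ | 0 < rho2 w0 wt wv u.1 ∧ u.2 ∈ Ioc (-Real.pi) Real.pi ∧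
        fpar w0 wt wv a' b' u ∈ S}, h (fpar w0 wt wv a' b' u) := by
  have hn : 0 < ‖wv‖ := norm_pos_iff.2 hwv
  have hF : Frame a' b' (‖wv‖⁻¹ • wv) := by
    refine ⟨hab.na, hab.nb, ?_, hab.ab, ?_, ?_⟩
    · rw [norm_smul, norm_inv, norm_norm, inv_mul_cancel₀ hn.ne']
    · rw [inner_smul_right, real_inner_comm, hab.wa, mul_zero]
    · rw [inner_smul_right, real_inner_comm, hab.wb, mul_zero]
  have hu : wv = ‖wv‖ • (‖wv‖⁻¹ • wv) := by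
    rw [smul_smul, mul_inv_cancel₀ hn.ne', one_smul]
  have hS2' : ∀ Y ∈ S, w0 * Y 0 + inner ℝ (‖wv‖ • (‖wv‖⁻¹ • wv)) (vec Y) = wt := by
    intro Y hY
    rw [← hu]
    exact hS2 Y hY
  rw [P.film_integral hn hw hF hS hS1 hS2' h]
  have hset : P.filmS w0 wt ‖wv‖ a' b' (‖wv‖⁻¹ • wv) S = {u : ℝ × ℝ | 0 < rho2 w0 wt wv u.1 ∧
      u.2 ∈ Ioc (-Real.pi) Real.pi ∧ fpar w0 wt wv a' b' u ∈ S} := by
    ext x
    simp only [P.filmS, P.filmD, mem_inter_iff, mem_ofPred_eq, mem_preimage, fq_eq,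
      filmY_eq hwv, and_assoc]
  rw [hset]
  simp_rw [filmY_eq hwv]
  rw [integral_const_mul]
  ring

end Kusner.Br
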