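import Pool.Agent.helper75.Kus3.FilmSecond
import Pool.Agent.helper43.Kus3.Cubature
import Pool.Agent.helper14.Kus3.Bridge

/-!
# The proved statements of the field part (without the deformation theorem)
-/

namespace Kusner

alias cH_pos := P.cH_pos
alias area_formula := P.area_formula
alias area_integral := P.area_integral
alias area_second := P.area_second
alias fieldX_contDiff := P.fieldX_contDiff
alias fieldX_compact := P.fieldX_compact
alias fieldX_div := P.fieldX_div
alias qform_fieldX := P.qform_fieldX
alias pw_pos := P.pw_pos
alias norm_pole := P.norm_pole
alias cubature := P.cubature
alias film_lt_top := P.film_lt_top
alias exists_perp := Br.exists_perp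
alias film_integral := Br.film_integral
alias film_second := P.film_second
alias trace_acc := P.trace_acc

end Kusner
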