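import Pool.Agent.helper14.Kus3.Defs

/-!
# Kusner's question: the rational checker for the film integrals

Everything in this file is computable rational arithmetic (plus the real evaluation of
polynomials).  See `NumIf.lean` for the soundness statements.
-/

namespace Kusner.Num

/-! ## Polynomials as coefficient lists -/

/-- Evaluation of a rational coefficient list at a real number. -/
noncomputable def evL : List ℚ → ℝ → ℝ
  | [], _ => 0
  | a :: l, x => (a : ℝ) + x * evL l x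

/-- Evaluation at a rational number. -/
def evQ : List ℚ → ℚ → ℚ
  | [], _ => 0
  | a :: l, x => a + x * evQ l x

def addL : List ℚ → List ℚ → List ℚ
  | [], l => l
  | a :: k, [] => a :: k
  | a :: k, b :: l => (a + b) :: addL k l

def scL (c : ℚ) (l : List ℚ) : List ℚ := l.map fun a => c * a

def mulL : List ℚ → List ℚ → List ℚ
  | [], _ => []
  | a :: k, l => addL (scL a l) (0 :: mulL k l)

/-- Coefficients of `h ↦ l (x + h)`. -/
def shL : List ℚ → ℚ → List ℚ
  | [], _ => []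
  | a :: l, x => addL [a] (mulL [x, 1] (shL l x))

/-- An upper bound of the polynomial on `[0, δ]`. -/
def ubL : List ℚ → ℚ → ℚ
  | [], _ => 0
  | a :: l, δ => a + δ * max 0 (ubL l δ)

/-- Upper bound of the polynomial on `[e0, e1]`. -/
def ubI (l : List ℚ) (e0 e1 : ℚ) : ℚ := ubL (shL l e0) (e1 - e0)

/-- Auxiliary: coefficients divided by `n, n+1, …`. -/
def divL : List ℚ → ℕ → List ℚ
  | [], _ => []
  | a :: l, n => a / n :: divL l (n + 1)

/-- The primitive vanishing at `0`. -/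
def prL (l : List ℚ) : List ℚ := 0 :: divL l 1

/-- The integral of the polynomial over `[e0, e1]`. -/
def intQ (l : List ℚ) (e0 e1 : ℚ) : ℚ := evQ (prL l) e1 - evQ (prL l) e0

/-- The three coefficients of `Phi e m` as a polynomial in `m ^ 2`. -/
def phi0 : List ℚ := [-24/5, 0, -468/35, 0, 1312/5, 0, -3188/5, 0, 37944/35, 0, -41852/35, 0,
  3888/7, 0, -252/5]
def phi1 : List ℚ := [624/35, 0, 2392/35, 0, -2280/7, 0, 36048/35, 0, -63744/35, 0, 37368/35, 0,
  -504/5]
def phi2 : List ℚ := [24/7, 0, -1188/35, 0, 192/7, 0, -21768/35, 0, 17928/35, 0, -252/5]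

/-- The coefficients of `e ↦ Phi e (w0 - wt * e)`. -/
def phiL (w0 wt : ℚ) : List ℚ :=
  let m2 := mulL [w0, -wt] [w0, -wt]
  addL phi0 (addL (mulL phi1 m2) (mulL phi2 (mulL m2 m2)))

/-! ## Rational directions and arcs -/

/-- `cos (2 arctan τ)`. -/
def cq (τ : ℚ) : ℚ := (1 - τ ^ 2) / (1 + τ ^ 2)

/-- `sin (2 arctan τ)`. -/
def sq (τ : ℚ) : ℚ := 2 * τ / (1 + τ ^ 2)

/-- An upper bound of `1 / cos (Δ / 2)` for the arc from `τ0` to `τ1`. -/
def kap (τ0 τ1 : ℚ) : ℚ := (2 / (1 + (cq τ0 * cq τ1 + sq τ0 * sq τ1)) + 1) / 2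

/-- Upper bound of the length `2 arctan τ1 - 2 arctan τ0` of an arc. -/
def arcHi (τ0 τ1 : ℚ) : ℚ :=
  let x := (τ1 - τ0) / (1 + τ0 * τ1)
  2 * (x - x ^ 3 / 3 + x ^ 5 / 5)

/-- Lower bound of the length of an arc. -/
def arcLo (τ0 τ1 : ℚ) : ℚ :=
  let x := (τ1 - τ0) / (1 + τ0 * τ1)
  2 * (x - x ^ 3 / 3)

/-! ## Constraints `P + Q e + ρ (b1 cos θ + b2 sin θ) ≤ 0` -/

structure QC where
  P : ℚ
  Q : ℚ
  b1 : ℚ
  b2 : ℚ
deriving Repr

/-- Lower bound of the constraint function on the box `[e0,e1] × [rlo,rhi] × arc [τ0,τ1]`, when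
each of the four numbers is known up to `ε`. -/
def QC.lo (g : QC) (ε e0 e1 rlo rhi τ0 τ1 : ℚ) : ℚ :=
  let m := min (g.b1 * cq τ0 + g.b2 * sq τ0) (g.b1 * cq τ1 + g.b2 * sq τ1) - 2 * ε
  g.P - 2 * ε + min (g.Q * e0) (g.Q * e1) + (if 0 ≤ m then rlo * m else rhi * (kap τ0 τ1 * m))

/-- Upper bound of the constraint function on the box. -/
def QC.hi (g : QC) (ε e0 e1 rlo rhi τ0 τ1 : ℚ) : ℚ :=
  let m := max (g.b1 * cq τ0 + g.b2 * sq τ0) (g.b1 * cq τ1 + g.b2 * sq τ1) + 2 * ε
  g.P + 2 * ε + max (g.Q * e0) (g.Q * e1) + (if m ≤ 0 then rlo * m else rhi * (kap τ0 τ1 * m))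

/-! ## Film data -/

/-- Rational three-vectors. -/
structure Q3 where
  x : ℚ
  y : ℚ
  z : ℚ
deriving Repr

def Q3.dot (u v : Q3) : ℚ := u.x * v.x + u.y * v.y + u.z * v.z

/-- A constraint `u0 Y₀ + ⟪u, vec Y⟫ - ut ≤ 0` with rational data. -/
structure QCon where
  u0 : ℚ
  u : Q3
  ut : ℚ
deriving Repr

/-- Rational approximation of a film sphere with its frame and the constraints. Constraint `0`
is the comparison with `-η`, constraint `1` the comparison with `η - 7/10`. -/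
structure QFilm where
  w0 : ℚ
  wv : Q3
  wt : ℚ
  a : Q3
  b : Q3
  cons : List QCon
deriving Repr

def QFilm.W2 (f : QFilm) : ℚ := f.wv.dot f.wv

/-- The constraint in the coordinates `(e, θ)` of the film. -/
def QFilm.qc (f : QFilm) (g : QCon) : QC :=
  let q := g.u.dot f.wv / f.W2
  ⟨q * f.wt - g.ut, g.u0 - q * f.w0, g.u.dot f.a, g.u.dot f.b⟩

/-- `rho2` at a rational height. -/
def QFilm.r2 (f : QFilm) (e : ℚ) : ℚ := 1 - e ^ 2 - (f.wt - f.w0 * e) ^ 2 / f.W2

/-- The derivative of `rho2`. -/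
def QFilm.dr2 (f : QFilm) (e : ℚ) : ℚ := -2 * e + 2 * f.w0 * (f.wt - f.w0 * e) / f.W2

/-! ### Error bounds: all entries of the data are known up to `δ` -/

/-- Error of an inner product. -/
def eD (δ : ℚ) (u v : Q3) : ℚ :=
  (|u.x| + |v.x| + δ) * δ + (|u.y| + |v.y| + δ) * δ + (|u.z| + |v.z| + δ) * δ

/-- The four numbers of `qc g` are correct up to `ε`. -/
def nearOK (f : QFilm) (δ ε : ℚ) (g : QCon) : Bool :=
  let eW := eD δ f.wv f.wv
  let q := g.u.dot f.wv / f.W2
  let eq := (eD δ g.u f.wv + |q| * eW) / (f.W2 - eW)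
  decide (0 < f.W2 - eW) &&
    decide (|q| * δ + (|f.wt| + δ) * eq + δ ≤ ε) &&
    decide (δ + |q| * δ + (|f.w0| + δ) * eq ≤ ε) &&
    decide (eD δ g.u f.a ≤ ε) && decide (eD δ g.u f.b ≤ ε)

/-- `W2`, and `r2`, `dr2` on `[0, 1]` are correct up to `ε`. -/
def filmOK (f : QFilm) (δ ε : ℚ) : Bool :=
  let eW := eD δ f.wv f.wv
  let M := |f.wt| + |f.w0| + 2 * δ
  decide (0 < f.W2 - eW) && decide (eW ≤ ε) &&
    decide ((4 * M * δ + M ^ 2 * eW / f.W2) / (f.W2 - eW) ≤ ε) &&
    decide (2 * (2 * (|f.w0| + δ) * δ + M * δ + (|f.w0| + δ) * M * eW / f.W2) / (f.W2 - eW) ≤ ε)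

/-- A strip `e0 ≤ η ≤ e1` with bounds `rlo ≤ ρ ≤ rhi`.  `kind`:
* `0`: the integrand is `≤ 0`, the consecutive arcs of `arcs` belong to the film;
* `1`: the integrand is `≥ 0`, the film is in the allowed arcs, exact integral;
* `2`: outer, with an upper bound `U ≥ 0` of the integrand;
* `3`: the film has no point in the strip;
* `4`: `rho2 < 0` on the strip;
* `≥ 5`: the integrand is `≤ 0` and the strip is dropped.
For the outer kinds `arcs` is a list `(τ, k)` starting with `τ = -1`: the arc from `τ` to the next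
`τ` (the last one is `1`) is allowed if `k = 0`, excluded by the constraint number `k - 1`
otherwise. For kind `0` the second entries are irrelevant. -/
structure QStrip where
  e0 : ℚ
  e1 : ℚ
  rlo : ℚ
  rhi : ℚ
  kind : ℕ
  arcs : List (ℚ × ℕ)
deriving Repr

/-- Total length (upper bound) of the allowed arcs. -/
def outLen : List (ℚ × ℕ) → ℚ
  | [] => 0
  | [_] => 0
  | (τ0, k) :: (τ1, l) :: r => (if k = 0 then arcHi τ0 τ1 else 0) + outLen ((τ1, l) :: r)

/-- The list ends at `1`, is increasing, the arcs are shorter than `π`, and the flagged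
arcs are excluded. -/
def outOK (f : QFilm) (ε : ℚ) (s : QStrip) : List (ℚ × ℕ) → Bool
  | [] => false
  | [(τ, _)] => decide (τ = 1)
  | (τ0, k) :: (τ1, l) :: r =>
      decide (τ0 < τ1) && decide (0 < 1 + τ0 * τ1) &&
        (match k with
          | 0 => true
          | j + 1 => (decide (j ≠ 0) || decide (7 / 20 ≤ s.e0)) &&
            (decide (j ≠ 1) || decide (s.e1 ≤ 7 / 20)) &&
            (match f.cons[j]? with
            | none => false
            | some g => decide (0 < (f.qc g).lo ε s.e0 s.e1 s.rlo s.rhi τ0 τ1))) &&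
        outOK f ε s ((τ1, l) :: r)

/-- The constraint `g` holds on the box. -/
def inCon (f : QFilm) (ε : ℚ) (s : QStrip) (τ0 τ1 : ℚ) (g : QCon) : Bool :=
  decide ((f.qc g).hi ε s.e0 s.e1 s.rlo s.rhi τ0 τ1 ≤ 0)

/-- All constraints from number `2` on, and one of the first two, hold on the box. -/
def inOK (f : QFilm) (ε : ℚ) (s : QStrip) (τ0 τ1 : ℚ) : Bool :=
  decide (τ0 < τ1) && decide (0 < 1 + τ0 * τ1) && decide (-1 ≤ τ0) && decide (τ1 ≤ 1) &&
    (match f.cons with
      | g0 :: g1 :: r => (inCon f ε s τ0 τ1 g0 || inCon f ε s τ0 τ1 g1) &&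
          r.all (inCon f ε s τ0 τ1)
      | _ => false)

/-- All consecutive arcs of the list are in the film. -/
def inArcs (f : QFilm) (ε : ℚ) (s : QStrip) : List (ℚ × ℕ) → Bool
  | [] => true
  | [_] => true
  | (τ0, _) :: (τ1, l) :: r => inOK f ε s τ0 τ1 && inArcs f ε s ((τ1, l) :: r)

/-- Lower bound of the total length. -/
def inLen : List (ℚ × ℕ) → ℚ
  | [] => 0
  | [_] => 0
  | (τ0, _) :: (τ1, l) :: r => max 0 (arcLo τ0 τ1) + inLen ((τ1, l) :: r)

/-- The radius bounds are correct on the strip. -/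
def radOK (f : QFilm) (ε : ℚ) (s : QStrip) : Bool :=
  decide (0 ≤ s.e0) && decide (s.e0 ≤ s.e1) && decide (s.e1 ≤ 1) && decide (0 ≤ s.rlo) &&
    decide (s.rlo ≤ s.rhi) &&
    (decide (s.rlo = 0) || decide (s.rlo ^ 2 + ε ≤ min (f.r2 s.e0) (f.r2 s.e1))) &&
    decide (f.r2 s.e0 + max 0 (f.dr2 s.e0) * (s.e1 - s.e0) + 2 * ε ≤ s.rhi ^ 2)

/-- On the strip the argument `m` is at most `5/2` in absolute value and `e ≤ 3/5`, so that the
polynomial `p` approximates the integrand up to `errf`. -/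
def polOK (f : QFilm) (δ errf : ℚ) (s : QStrip) : Bool :=
  decide (s.e1 ≤ 3 / 5) && decide (|f.w0 - f.wt * s.e0| + 2 * δ ≤ 5 / 2) &&
    decide (|f.w0 - f.wt * s.e1| + 2 * δ ≤ 5 / 2) && decide (20000 * δ ≤ errf)

/-- The arc list is correct. -/
def arcsOK (f : QFilm) (ε : ℚ) (s : QStrip) : Bool :=
  match s.arcs with
  | (τ, _) :: _ => decide (τ = -1) && outOK f ε s s.arcs
  | _ => false

/-- The checks of a strip. -/
def stripOK (f : QFilm) (δ ε errf : ℚ) (p : List ℚ) (s : QStrip) : Bool :=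
  match s.kind with
  | 0 => radOK f ε s && polOK f δ errf s && decide (0 < s.rlo) &&
      decide (ubI p s.e0 s.e1 + errf ≤ 0) && inArcs f ε s s.arcs
  | 1 => radOK f ε s && polOK f δ errf s && decide (ubI (scL (-1) p) s.e0 s.e1 + errf ≤ 0) &&
      arcsOK f ε s
  | 2 => radOK f ε s && polOK f δ errf s && arcsOK f ε s
  | 3 => radOK f ε s && arcsOK f ε s && decide (outLen s.arcs = 0)
  | 4 => decide (0 ≤ s.e0) && decide (s.e0 ≤ s.e1) && decide (s.e1 ≤ 1) &&
      decide (f.r2 s.e0 + max 0 (f.dr2 s.e0) * (s.e1 - s.e0) + 2 * ε ≤ 0)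
  | _ => decide (s.e0 ≤ s.e1) && polOK f δ errf s && decide (ubI p s.e0 s.e1 + errf ≤ 0)

/-- The contribution of a strip to the upper bound (without the factor `1 / |wv|`). -/
def stripVal (errf : ℚ) (p : List ℚ) (s : QStrip) : ℚ :=
  match s.kind with
  | 0 => inLen s.arcs * min 0 (intQ p s.e0 s.e1 + errf * (s.e1 - s.e0))
  | 1 => outLen s.arcs * (intQ p s.e0 s.e1 + errf * (s.e1 - s.e0))
  | 2 => outLen s.arcs * (max 0 (ubI p s.e0 s.e1 + errf) * (s.e1 - s.e0))
  | _ => 0

/-- Consecutive strips: `e1` of each is `e0` of the next. -/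
def chainOK : ℚ → List QStrip → ℚ → Bool
  | a, [], b => decide (a = b)
  | a, s :: r, b => decide (s.e0 = a) && chainOK s.e1 r b

/-- Sum of the contributions. -/
def totVal (errf : ℚ) (p : List ℚ) (l : List QStrip) : ℚ :=
  (l.map (stripVal errf p)).sum

/-- The complete check of a film piece: the strips cover `[ebot, etop]` and
`total / |wv| ≤ bound`. -/
def pieceOK (f : QFilm) (δ ε errf ebot etop : ℚ) (strips : List QStrip)
    (wlo whi bound : ℚ) : Bool :=
  let p := phiL f.w0 f.wt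
  decide (0 ≤ δ) && decide (δ ≤ 1 / 100) && decide (0 ≤ ε) &&
    filmOK f δ ε && f.cons.all (nearOK f δ ε) &&
    strips.all (stripOK f δ ε errf p) && chainOK ebot strips etop &&
    decide (0 < wlo) && decide (wlo ^ 2 + ε ≤ f.W2) && decide (f.W2 + ε ≤ whi ^ 2) &&
    decide (0 < whi) &&
    decide (totVal errf p strips ≤ (if 0 ≤ bound then bound * wlo else bound * whi))

end Kusner.Num
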