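import Pool.Agent.helper14.Kus3.Perps

/-!
# The total second variation over the chamber is negative
-/

open Set

namespace Kus64.NN

open Kusner (E4 vec Phi cH Perp)
open Kusner.Num Encl A2aux Fr

theorem close_cap {i : Tag} {L : List Tag} {M : List (Fin 3)} {f : QFilm}
    (h : tabOK i .C L M f = true) {a b : E3} (ha : Near3 (1 / 1000000) a f.a)
    (hb : Near3 (1 / 1000000) b f.b) :
    FilmClose (1 / 1000000) f ((tab i).b + 1) (tab i).t (tab i).v a b
      (consR (tab i) (L.map tab) M) := by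
  have h := close_tab h ha hb
  have e1 : (tab i).b - (tab .C).b = (tab i).b + 1 := by
    show _ - (-1 : ℝ) = _
    ring
  have e2 : (tab i).t - (tab .C).t = (tab i).t := by
    show _ - (0 : ℝ) = _
    ring
  have e3 : (tab i).v - (tab .C).v = (tab i).v := by
    show _ - (0 : E3) = _
    rw [sub_zero]
  rwa [e1, e2, e3] at h

theorem m310' : w310 ∈ Small := h28_mem_small h28_r310
theorem m220' : w220 ∈ Small := h28_mem_small h28_r220
theorem m211' : w211 ∈ Small := h28_mem_small h28_r211
theorem ma2' : wa2 ∈ Small := h28_mem_small h28_ra2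
theorem ma3' : wa3 ∈ Small := h28_mem_small h28_ra3

theorem small_list {L : List Tag} (h : ∀ t ∈ L, tab t ∈ Small) : ∀ u ∈ L.map tab, u ∈ Small := by
  intro u hu
  obtain ⟨t, ht, rfl⟩ := List.mem_map.1 hu
  exact h t ht

theorem ne_of_norm {w : Site} {t : ℝ} (h : ‖w.v‖ = t) (ht : 0 < t) : w.v ≠ 0 := by
  intro h0
  rw [h0, norm_zero] at h
  linarith

theorem ne_of_perp {w a b : E3} (h : Perp w a b) {u : E3} (hu : inner ℝ w u ≠ 0) : w ≠ 0 := by
  intro h0
  rw [h0, inner_zero_left] at hu
  exact hu rfl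

theorem cosx {Y : E4} (hY : Y ∈ DD) : 0 ≤ inner ℝ (!₂[1, 0, 0] : E3) (vec Y) := by
  have := hY.2 0
  rwa [show α 0 = !₂[1, 0, 0] by simp [α]] at this

theorem cosz {Y : E4} (hY : Y ∈ DD) : 0 ≤ vec Y 2 := by
  obtain ⟨h0, h1, h2⟩ := (mem_D_iff _).1 hY.2
  have := p_pos
  have h3 : 0 ≤ φ ^ 2 * vec Y 0 := by positivity
  have h4 : 0 ≤ φ * vec Y 1 := by positivity
  linarith

theorem inn3' (a b c : ℝ) (y : E3) : inner ℝ (!₂[a, b, c] : E3) y = a * y 0 + b * y 1 + c * y 2 := by
  rw [inner_coord]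
  rfl

/-! ### Caps -/

theorem pieceC310 : II wC w310 DD ≤ cH * ((31601 / 100000 : ℚ) : ℝ) :=
  cap_piece okC310 (by decide +kernel) m310' q_C_310 (ne_of_norm norm_v310 t1_pos) perpC310
    ([.c220, .c211, .a3, .a2].map tab)
    (small_list (by simp [tab, m220', m211', ma2', ma3'])) [0, 1, 2]
    (close_cap (i := .c310) (by decide +kernel) near_aC310 near_bC310)
    (fun Y hY => cosx hY.2)

theorem pieceC220 : II wC w220 DD ≤ cH * ((4693 / 20000 : ℚ) : ℝ) :=
  cap_piece okC220 (by decide +kernel) m220' q_C_220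
    (ne_of_norm norm_v220 (lt_of_lt_of_le (by norm_num) i_t2.1)) perpC220
    ([.c310, .c211, .a3, .a2].map tab)
    (small_list (by simp [tab, m310', m211', ma2', ma3'])) [0, 1, 2]
    (close_cap (i := .c220) (by decide +kernel) near_aC220 near_bC220)
    (fun Y hY => cosx hY.2)

theorem pieceC211 : II wC w211 DD ≤ cH * ((23931 / 50000 : ℚ) : ℝ) :=
  cap_piece okC211 (by decide +kernel) m211' q_C_211 (ne_of_norm norm_v211 t3_pos) perpC211
    ([.c310, .c220, .a3, .a2].map tab)
    (small_list (by simp [tab, m310', m220', ma2', ma3'])) [0, 1, 2]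
    (close_cap (i := .c211) (by decide +kernel) near_aC211 near_bC211)
    (fun Y hY => by
      have h := hY.2.2 2
      rw [inner_α2] at h
      rw [aC211, inn3']
      linarith)

theorem pieceCa3 : II wC wa3 DD ≤ cH * ((751 / 100000 : ℚ) : ℝ) :=
  cap_piece okCa3 (by decide +kernel) ma3' q_C_a3
    (by
      intro h
      have h1 : inner ℝ wa3.v ξ = s3 := by
        show inner ℝ (s3 • ξ) ξ = s3
        rw [inner_smul_left, real_inner_self_eq_norm_sq, norm_ξ]
        simp
      rw [h, inner_zero_left] at h1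
      have := i_s3.1
      norm_num at this
      linarith) perpCa3
    ([.c310, .c220, .c211, .a2].map tab)
    (small_list (by simp [tab, m310', m220', m211', ma2'])) [0, 1, 2]
    (close_cap (i := .a3) (by decide +kernel) near_aCa3 near_bCa3)
    (fun Y hY => cosx hY.2)

/-! ### Walls -/

theorem D_of_all {Y : E4} (h : ∀ m ∈ ([0, 1, 2] : List (Fin 3)), 0 ≤ inner ℝ (α m) (vec Y)) :
    vec Y ∈ D := fun i => h i (by fin_cases i <;> simp)

theorem film_lin {w w' : Site} (hw : w ∈ Small) (hw' : w' ∈ Small) {Y : E4}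
    (hY : Y ∈ filmS w w') : w.lin (Y 0) (vec Y) = w'.lin (Y 0) (vec Y) ∧
      -1 ≤ w.lin (Y 0) (vec Y) := by
  obtain ⟨h0, h1, h2⟩ := hY
  have e1 := h1.2 w' (small_mem hw')
  have e2 := h2.2 w (small_mem hw)
  have e3 := h1.2 wC wC_mem
  have e4 := h1.2 wE wE_mem
  rw [F_small hw, F_small hw'] at e1
  rw [F_small hw, F_small hw'] at e2
  rw [F_small hw] at e3 e4
  refine ⟨le_antisymm e2 e1, ?_⟩
  have hY1 := E4_le_one h0
  rcases le_or_gt (-(3 / 10)) (Y 0) with h | h
  · rw [F_C] at e3
    have : max (Y 0) (7 / 10 - Y 0) ≤ 1 := max_le hY1 (by linarith)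
    linarith
  · rw [F_E] at e4
    have h5 := norm_E4 Y
    rw [h0] at h5
    have h6 : -1 ≤ Y 0 := by nlinarith [sq_nonneg ‖vec Y‖]
    have : max (-(Y 0)) (7 / 10 + Y 0) ≤ 1 := max_le (by linarith) (by linarith)
    linarith

theorem pieceW320 : II w310 w220 DD ≤ cH * ((-14649 / 100000 : ℚ) : ℝ) :=
  wall_piece (w := w310) (w' := w220) okW320 m310' m220' ⟨1, rfl⟩ q_310_220
    (by
      rw [wv320]
      intro h
      have h1 := congrArg (fun v : E3 => v 1) h
      have h2 : y1 = 0 := h1
      linarith [y1_bd.1]) perpW320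
    ([.c211, .a3, .a2].map tab)
    (small_list (by simp [tab, m211', ma2', ma3'])) [0, 1, 2]
    (by intro i; fin_cases i <;> simp [six, tab])
    (fun Y _ h => D_of_all h)
    (close_tab (i := .c310) (j := .c220) (by decide +kernel) near_aW320 near_bW320)
    (fun Y hY => by
      obtain ⟨h0, h1, h2⟩ := (mem_D_iff _).1 hY.2.2
      have hz := cosz hY.2
      rw [aW320, inn3']
      have hW : 0 < √(y1 ^ 2 + (z1 - t2) ^ 2) := by
        apply Real.sqrt_pos.2
        have := y1_bd.1
        positivity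
      have e : 0 * vec Y 0 + -((z1 - t2) / √(y1 ^ 2 + (z1 - t2) ^ 2)) * vec Y 1 +
          y1 / √(y1 ^ 2 + (z1 - t2) ^ 2) * vec Y 2 =
          (y1 * vec Y 2 - (z1 - t2) * vec Y 1) / √(y1 ^ 2 + (z1 - t2) ^ 2) := by
        field_simp
        ring
      rw [e]
      refine div_nonneg ?_ hW.le
      have k1 : z1 - t2 ≤ 1 := by
        have a1 := i_z1.2
        have a2 := i_t2.1
        norm_num at a1 a2
        linarith
      have k2 : vec Y 1 ≤ vec Y 2 := by
        have := φ_bounds.1
        have k3 : 0 ≤ φ ^ 2 * vec Y 0 := by positivity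
        nlinarith
      have k4 := y1_bd.1
      nlinarith)

theorem cosgen {w1 w2 w3 W h wt : ℝ} {y : E3}
    (hW : h ^ 2 + w3 ^ 2 = W ^ 2) (h0 : 0 < W) (h1 : 0 < h)
    (hf : w1 * y 0 + w2 * y 1 + w3 * y 2 = wt) (hz : w3 * wt ≤ W ^ 2 * y 2) :
    0 ≤ -((w3 * w1) / (W * h)) * y 0 + -((w3 * w2) / (W * h)) * y 1 + h / W * y 2 := by
  have e : -((w3 * w1) / (W * h)) * y 0 + -((w3 * w2) / (W * h)) * y 1 + h / W * y 2 =
      (W ^ 2 * y 2 - w3 * wt) / (W * h) := by
    field_simp
    linear_combination y 2 * hW - w3 * hf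
  rw [e]
  exact div_nonneg (by linarith) (by positivity)

theorem pieceW321 : II w310 w211 DD ≤ cH * ((-3741 / 12500 : ℚ) : ℝ) :=
  wall_piece (w := w310) (w' := w211) okW321 m310' m211' ⟨1, rfl⟩ q_310_211
    (by
      rw [wv321]
      intro h
      have h1 := congrArg (fun v : E3 => v 0) h
      have h2 : -x3 = 0 := h1
      linarith [x3_pos]) perpW321
    ([.c220, .a3, .a2].map tab)
    (small_list (by simp [tab, m220', ma2', ma3'])) [0, 1, 2]
    (by intro i; fin_cases i <;> simp [six, tab])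
    (fun Y _ h => D_of_all h)
    (close_tab (i := .c310) (j := .c211) (by decide +kernel) near_aW321 near_bW321)
    (fun Y hY => by
      obtain ⟨h0, h1, h2⟩ := (mem_D_iff _).1 hY.2.2
      have hz := cosz hY.2
      obtain ⟨hl, hm⟩ := film_lin m310' m211' hY.1
      rw [lin310] at hl hm
      rw [lin211] at hl
      have hx := x3_pos
      have hh0 : 0 < (-x3) ^ 2 + (y1 - 1 / 2) ^ 2 := by
        have : 0 < (-x3) ^ 2 := by rw [neg_sq]; positivity
        positivity
      have hW0 : 0 < (-x3) ^ 2 + (y1 - 1 / 2) ^ 2 + (z1 - z3) ^ 2 := by positivity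
      rw [aW321, inn3']
      refine cosgen ?_ (Real.sqrt_pos.2 hW0) (Real.sqrt_pos.2 hh0)
        (wt := t1 - t3) (by linarith) ?_
      · rw [Real.sq_sqrt hh0.le, Real.sq_sqrt hW0.le]
      · rw [Real.sq_sqrt hW0.le]
        have a1 := i_z1.1
        have a1' := i_z1.2
        have a2 := i_z3.1
        have a2' := i_z3.2
        have a3 := i_t1.1
        have a3' := i_t1.2
        have a4 := i_t3.1
        have a4' := i_t3.2
        have a5 := i_x3.1
        have b1 := y1_bd
        norm_num at a1 a2 a3 a4 a1' a2' a3' a4' a5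
        have k1 : vec Y 1 ≤ vec Y 2 := by
          have := φ_bounds.1
          have k3 : 0 ≤ φ ^ 2 * vec Y 0 := by positivity
          nlinarith
        have k2 : (1 / 2 : ℝ) ≤ vec Y 2 := by nlinarith
        have k3 : (z1 - z3) * (t1 - t3) ≤ 1 / 4 := by nlinarith
        have k4 : (1 / 2 : ℝ) ≤ (-x3) ^ 2 := by nlinarith
        nlinarith [sq_nonneg (y1 - 1 / 2), sq_nonneg (z1 - z3)])

theorem pieceW2221 : II w220 w211 DD ≤ cH * ((-31237 / 100000 : ℚ) : ℝ) :=
  wall_piece (w := w220) (w' := w211) okW2221 m220' m211' ⟨2, rfl⟩ q_220_211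
    (by
      rw [wv2221]
      intro h
      have h1 := congrArg (fun v : E3 => v 0) h
      have h2 : -x3 = 0 := h1
      linarith [x3_pos]) perpW2221
    ([.c310, .a3, .a2].map tab)
    (small_list (by simp [tab, m310', ma2', ma3'])) [0, 1, 2]
    (by intro i; fin_cases i <;> simp [six, tab])
    (fun Y _ h => D_of_all h)
    (close_tab (i := .c220) (j := .c211) (by decide +kernel) near_aW2221 near_bW2221)
    (fun Y hY => by
      have hz := cosz hY.2
      obtain ⟨hl, hm⟩ := film_lin m220' m211' hY.1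
      rw [lin220] at hl hm
      rw [lin211] at hl
      have hx := x3_pos
      have hh0 : 0 < (-x3) ^ 2 + (-(1 / 2) : ℝ) ^ 2 := by
        have : 0 < (-x3) ^ 2 := by rw [neg_sq]; positivity
        positivity
      have hW0 : 0 < (-x3) ^ 2 + (-(1 / 2) : ℝ) ^ 2 + (t2 - z3) ^ 2 := by positivity
      rw [aW2221, inn3']
      refine cosgen ?_ (Real.sqrt_pos.2 hW0) (Real.sqrt_pos.2 hh0)
        (wt := t2 - t3) (by linarith) ?_
      · rw [Real.sq_sqrt hh0.le, Real.sq_sqrt hW0.le]
      · rw [Real.sq_sqrt hW0.le]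
        have a1 := i_t2.1
        have a1' := i_t2.2
        have a2 := i_z3.1
        have a2' := i_z3.2
        have a4 := i_t3.1
        have a4' := i_t3.2
        have a5 := i_x3.1
        norm_num at a1 a2 a4 a1' a2' a4' a5
        have k2 : (1 / 2 : ℝ) ≤ vec Y 2 := by nlinarith
        have k3 : (t2 - z3) * (t2 - t3) ≤ 1 / 4 := by nlinarith
        have k4 : (1 / 2 : ℝ) ≤ (-x3) ^ 2 := by nlinarith
        nlinarith [sq_nonneg (t2 - z3)])

theorem pieceW3a3 : II w310 wa3 DD ≤ cH * ((127 / 100000 : ℚ) : ℝ) :=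
  wall_piece (w := w310) (w' := wa3) okW3a3 m310' ma3' ⟨1, rfl⟩ q_310_a3
    (by
      rw [wv3a3]
      intro h
      have h1 := congrArg (fun v : E3 => v 1) h
      have h2 : y1 - s3 * (√(1 + φ ^ 2))⁻¹ = 0 := h1
      have h3 := i_a31.1
      norm_num at h3
      linarith [y1_bd.2]) perpW3a3
    ([.c220, .c211, .a2].map tab)
    (small_list (by simp [tab, m220', m211', ma2'])) [0, 1, 2]
    (by intro i; fin_cases i <;> simp [six, tab])
    (fun Y _ h => D_of_all h)
    (close_tab (i := .c310) (j := .a3) (by decide +kernel) near_aW3a3 near_bW3a3)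
    (fun Y hY => cosx hY.2)

theorem pieceW3a2 : II w310 wa2 DD ≤ cH * ((39 / 100000 : ℚ) : ℝ) :=
  wall_piece (w := w310) (w' := wa2) okW3a2 m310' ma2' ⟨1, rfl⟩ q_310_a2
    (by
      rw [wv3a2]
      intro h
      have h1 := congrArg (fun v : E3 => v 1) h
      have h2 : y1 - s2 * (√(1 + φ ^ 2))⁻¹ = 0 := h1
      have h3 := i_a21.1
      norm_num at h3
      linarith [y1_bd.2]) perpW3a2
    ([.c220, .c211, .a3].map tab)
    (small_list (by simp [tab, m220', m211', ma3'])) [0, 1, 2]
    (by intro i; fin_cases i <;> simp [six, tab])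
    (fun Y _ h => D_of_all h)
    (close_tab (i := .c310) (j := .a2) (by decide +kernel) near_aW3a2 near_bW3a2)
    (fun Y hY => cosx hY.2)

theorem pieceA32 : II wa3 wa2 DD ≤ cH * ((3 / 625 : ℚ) : ℝ) :=
  wall_piece (w := wa3) (w' := wa2) okA32 ma3' ma2' ⟨5, rfl⟩
    (by rw [q_symm]; exact q_a2_a3)
    (by
      rw [wva32]
      intro h
      have h1 : inner ℝ ((s3 - s2) • ξ) ξ = s3 - s2 := by
        rw [inner_smul_left, real_inner_self_eq_norm_sq, norm_ξ]
        simp
      rw [h, inner_zero_left] at h1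
      have h3 := i_s3.1
      have h4 := i_s2.2
      norm_num at h3 h4
      linarith) perpA32
    ([.c310, .c220, .c211].map tab)
    (small_list (by simp [tab, m310', m220', m211'])) [0, 1, 2]
    (by intro i; fin_cases i <;> simp [six, tab])
    (fun Y _ h => D_of_all h)
    (close_tab (i := .a3) (j := .a2) (by decide +kernel) near_aA32 near_bA32)
    (fun Y hY => cosx hY.2)

theorem ms2 : w310.map (s 2) ∈ Small := Small_map (s_mem_G 2) m310'
theorem ms1 : w211.map (s 1) ∈ Small := Small_map (s_mem_G 1) m211'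

theorem pieceM310 : II w310 (w310.map (s 2)) DD ≤ cH * ((-19983 / 50000 : ℚ) : ℝ) :=
  wall_piece (w := w310) (w' := w310.map (s 2)) okM310 m310' ms2 ⟨1, rfl⟩ q_310_s2
    (by
      rw [wvM310]
      intro h
      have h1 := congrArg (fun v : E3 => v 1) h
      have h2 : -(1 / 2 : ℝ) = 0 := h1
      norm_num at h2) perpM310
    ([.c220, .c211, .a3, .a2].map tab)
    (small_list (by simp [tab, m220', m211', ma2', ma3'])) [0, 1]
    (by intro i; fin_cases i <;> simp [six, tab])
    (fun Y hY h => by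
      intro i
      fin_cases i
      · exact h 0 (by simp)
      · exact h 1 (by simp)
      · have e : (w310.b - (w310.map (s 2)).b) = 0 := by simp [w310, Site.map]
        have e2 : (w310.t - (w310.map (s 2)).t) = 0 := by simp [Site.map]
        rw [e, e2, wvM310, inn3', zero_mul, zero_add] at hY
        show 0 ≤ inner ℝ (α 2) (vec Y)
        rw [inner_α2]
        linarith)
    (close_tab (i := .c310) (j := .m310) (by decide +kernel) near_aM310 near_bM310)
    (fun Y hY => by
      obtain ⟨h0, h1, h2⟩ := (mem_D_iff _).1 hY.2.2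
      have hz := cosz hY.2
      have hp := p_pos
      rw [aM310, inn3']
      positivity)

theorem pieceM211 : II w211 (w211.map (s 1)) DD ≤ cH * ((-30913 / 100000 : ℚ) : ℝ) :=
  wall_piece (w := w211) (w' := w211.map (s 1)) okM211 m211' ms1 ⟨3, rfl⟩ q_211_s1
    (by
      rw [wvM211]
      intro h
      have h1 := congrArg (fun v : E3 => v 1) h
      have h2 : (1 : ℝ) = 0 := h1
      norm_num at h2) perpM211
    ([.c310, .c220, .a3, .a2].map tab)
    (small_list (by simp [tab, m310', m220', ma2', ma3'])) [0, 2]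
    (by intro i; fin_cases i <;> simp [six, tab])
    (fun Y hY h => by
      intro i
      fin_cases i
      · exact h 0 (by simp)
      · have e : (w211.b - (w211.map (s 1)).b) = 0 := by simp [w211, Site.map]
        have e2 : (w211.t - (w211.map (s 1)).t) = 0 := by simp [Site.map]
        rw [e, e2, wvM211, inn3', zero_mul, zero_add] at hY
        show 0 ≤ inner ℝ (α 1) (vec Y)
        rw [inner_α1]
        linarith
      · exact h 2 (by simp))
    (close_tab (i := .c211) (j := .m211) (by decide +kernel) near_aM211 near_bM211)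
    (fun Y hY => by
      have hz := cosz hY.2
      rw [aM211, inn3']
      linarith)

/-! ### Empty films -/

theorem emptyCa2 : II wC wa2 DD = 0 := by
  apply II_empty
  rw [eq_empty_iff_forall_notMem]
  rintro Y ⟨⟨h0, h1, h2⟩, h3, h4⟩
  obtain ⟨-, -, -, -, -, h, -, -⟩ := excl (onS_of_norm h0) h3 h4
  exact h h2 h1

theorem empty2a {w : Site} (hw : w = wa2 ∨ w = wa3) : II w220 w DD = 0 ∧ II w211 w DD = 0 := by
  constructor <;>
  · apply II_empty
    rw [eq_empty_iff_forall_notMem]
    rintro Y ⟨⟨h0, h1, h2⟩, h3, h4⟩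
    obtain ⟨-, -, -, -, h, -, -, -⟩ := excl (onS_of_norm h0) h3 h4
    have h5 : Act wa2 (Y 0) (vec Y) ∨ Act wa3 (Y 0) (vec Y) := by
      rcases hw with rfl | rfl
      · exact Or.inl h2
      · exact Or.inr h2
    first
      | exact (h h5).1 h1
      | exact (h h5).2 h1

theorem chamber_neg : chamberTotal < 0 := by
  have hc : 0 < cH := Kusner.cH_pos
  have h1 := pieceC310
  have h2 := pieceC220
  have h3 := pieceC211
  have h4 := pieceCa3
  have h5 := pieceW320
  have h6 := pieceW321
  have h7 := pieceW2221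
  have h8 := pieceW3a3
  have h9 := pieceW3a2
  have h10 := pieceA32
  have h11 := pieceM310
  have h12 := pieceM211
  rw [II_comm wa3 wa2] at h10
  have e1 := emptyCa2
  have e2 := (empty2a (Or.inl rfl : wa2 = wa2 ∨ wa2 = wa3)).1
  have e3 := (empty2a (Or.inr rfl : wa3 = wa2 ∨ wa3 = wa3)).1
  have e4 := (empty2a (Or.inl rfl : wa2 = wa2 ∨ wa2 = wa3)).2
  have e5 := (empty2a (Or.inr rfl : wa3 = wa2 ∨ wa3 = wa3)).2
  have hs : chamberTotal = II wC w310 DD + II wC w220 DD + II wC w211 DD + II wC wa2 DD +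
      II wC wa3 DD + II w310 w220 DD + II w310 w211 DD + II w310 wa2 DD + II w310 wa3 DD +
      II w220 w211 DD + II w220 wa2 DD + II w220 wa3 DD + II w211 wa2 DD + II w211 wa3 DD +
      II wa2 wa3 DD + 1 / 2 * (II w310 (w310.map (s 2)) DD + II w211 (w211.map (s 1)) DD) := by
    unfold chamberTotal
    simp [Fin.sum_univ_succ, six]
    ring
  rw [hs, e1, e2, e3, e4, e5]
  push_cast at *
  nlinarith

end Kus64.NN

namespace Kus64

theorem chamber_neg : chamberTotal < 0 := NN.chamber_neg

end Kus64
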