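import Pool.Agent.helper14.KusDefs

/-!
# Kusner's question with connected cells: definitions for the field part

* `jac` area of a parallelogram, `cH` the normalisation of the two-dimensional Hausdorff measure;
* `Second A a`: `A` is differentiable and `A'` has derivative `a` at `0`;
* `qform M W n`: the pointwise second variation of area;
* `fieldX`: the test field `curl (χ g (-y, x, 0))`;
* `psi`, `Phi`: the integrands on the three-sphere before and after averaging over the pole;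
* `st`: stereographic projection of the three-sphere from the pole `(0; p)`.
-/

open Set Metric MeasureTheory
open scoped ContDiff Topology

namespace Kusner

/-- Euclidean four-space; the coordinate `0` is called `η`. -/
abbrev E4 : Type := EuclideanSpace ℝ (Fin 4)

/-- The last three coordinates of a point of four-space. -/
noncomputable def vec (Y : E4) : E3 := !₂[Y 1, Y 2, Y 3]

/-- Area of the parallelogram spanned by two vectors. -/
noncomputable def jac {E : Type*} [NormedAddCommGroup E] [InnerProductSpace ℝ E] (u v : E) : ℝ :=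
  Real.sqrt (‖u‖ ^ 2 * ‖v‖ ^ 2 - inner ℝ u v ^ 2)

/-- The two-dimensional Hausdorff measure of a Euclidean unit square. -/
noncomputable def cH : ℝ :=
  (μH[2] {x : EuclideanSpace ℝ (Fin 2) | ∀ i, x i ∈ Set.Icc (0 : ℝ) 1}).toReal

/-- `A` is differentiable everywhere and its derivative has derivative `a` at `0`. -/
def Second (A : ℝ → ℝ) (a : ℝ) : Prop :=
  ∃ A' : ℝ → ℝ, (∀ t, HasDerivAt A (A' t) t) ∧ HasDerivAt A' a 0

/-- The pointwise second variation of area in terms of the derivative `M` of the velocity, the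
derivative `W` of the acceleration (both of trace zero resp. `tr M ^ 2`), and the unit normal. -/
noncomputable def qform (M W : E3 →L[ℝ] E3) (n : E3) : ℝ :=
  ‖ContinuousLinearMap.adjoint M n‖ ^ 2 - inner ℝ n (M n) ^ 2 + 2 * inner ℝ n (M (M n)) -
    inner ℝ n (W n)

/-- The conformal factor `ω = 2 / (1 + |x|²)`. -/
noncomputable def om (x : E3) : ℝ := 2 / (1 + ‖x‖ ^ 2)

/-- The coordinate `η = z ω`. -/
noncomputable def et (x : E3) : ℝ := x 2 * om x

/-- `g = ω² (1 - η⁴)`. -/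
noncomputable def gfun (x : E3) : ℝ := om x ^ 2 * (1 - et x ^ 4)

/-- The function `χ g`. -/
noncomputable def cg (χ : E3 → ℝ) (x : E3) : ℝ := χ x * gfun x

/-- The test field `curl (χ g (-y, x, 0))`. -/
noncomputable def fieldX (χ : E3 → ℝ) (x : E3) : E3 :=
  !₂[-(x 0 * fderiv ℝ (cg χ) x (EuclideanSpace.single 2 1)),
    -(x 1 * fderiv ℝ (cg χ) x (EuclideanSpace.single 2 1)),
    2 * cg χ x + x 0 * fderiv ℝ (cg χ) x (EuclideanSpace.single 0 1) +
      x 1 * fderiv ℝ (cg χ) x (EuclideanSpace.single 1 1)]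

/-- The acceleration `DX · X` of the test field. -/
noncomputable def accX (χ : E3 → ℝ) (x : E3) : E3 := fderiv ℝ (fieldX χ) x (fieldX χ x)

/-- The coefficient of `p ^ 0` in `psi`. -/
noncomputable def psi0 (e m v : ℝ) : ℝ :=
    (12*e^2 - 24*e^2*m^2 + 56*e^4 - 8*e^6 - 24*e^6*m^2 - 168*e^8 + 108*e^10) +
    (12*e*m + 72*e^3*m - 72*e^5*m - 408*e^7*m + 396*e^9*m)*v +
    (48*e^2 + 192*e^4 - 144*e^4*m^2 - 792*e^6 + 576*e^6*m^2 + 912*e^8 - 576*e^8*m^2 -
      360*e^10)*v^2 +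
    (144*e^3*m - 1008*e^7*m + 864*e^9*m)*v^3 +
    (-36*e^2 - 144*e^4 + 72*e^6 + 432*e^8 - 324*e^10)*v^4

/-- The coefficient of `p ^ 1` in `psi`. -/
noncomputable def psi1 (e m v : ℝ) : ℝ :=
    (4 - 12*m^2 + 168*e^2*m^2 - 216*e^4 + 168*e^4*m^2 - 88*e^6 + 360*e^6*m^2 + 516*e^8 -
      396*e^8*m^2 - 216*e^10) +
    (-48*e*m - 432*e^3*m + 1200*e^5*m - 576*e^5*m^3 - 240*e^7*m + 1152*e^7*m^3 - 576*e^9*m)*v +
    (-144*e^2 - 144*e^2*m^2 - 432*e^4 + 1152*e^4*m^2 + 3072*e^6 - 1296*e^6*m^2 - 5232*e^8 +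
      576*e^8*m^2 + 2736*e^10)*v^2 +
    (72*e*m - 288*e^3*m - 432*e^5*m + 2592*e^7*m - 1944*e^9*m)*v^3 +
    (72*e^2 + 288*e^4 - 144*e^6 - 864*e^8 + 648*e^10)*v^4

/-- The coefficient of `p ^ 2` in `psi`. -/
noncomputable def psi2 (e m v : ℝ) : ℝ :=
    (-12 + 72*m^2 - 84*e^2 - 216*e^2*m^2 + 312*e^4 - 720*e^4*m^2 + 216*e^6 - 312*e^6*m^2 -
      576*e^6*m^4 - 540*e^8 + 936*e^8*m^2 + 108*e^10) +
    (-36*e*m + 768*e^3*m - 288*e^3*m^3 - 2952*e^5*m + 2304*e^5*m^3 + 6624*e^7*m - 3744*e^7*m^3 -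
      4068*e^9*m)*v +
    (-36*m^2 + 132*e^2 + 432*e^2*m^2 + 120*e^4 - 2376*e^4*m^2 - 4392*e^6 + 432*e^6*m^2 +
      10296*e^8 + 1404*e^8*m^2 - 6156*e^10)*v^2 +
    (-144*e*m + 144*e^3*m + 864*e^5*m - 2160*e^7*m + 1296*e^9*m)*v^3 +
    (-36*e^2 - 144*e^4 + 72*e^6 + 432*e^8 - 324*e^10)*v^4

/-- The coefficient of `p ^ 3` in `psi`. -/
noncomputable def psi3 (e m v : ℝ) : ℝ :=
    (12 - 108*m^2 + 144*e^2 - 336*e^2*m^2 - 200*e^4 + 648*e^4*m^2 - 112*e^6 - 1872*e^6*m^2 +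
      2304*e^6*m^4 + 204*e^8 + 1332*e^8*m^2) +
    (288*e*m - 432*e^3*m + 864*e^3*m^3 + 2304*e^5*m - 3456*e^5*m^3 - 14352*e^7*m + 4320*e^7*m^3
      + 11808*e^9*m)*v +
    (72*m^2 - 24*e^2 - 432*e^2*m^2 + 288*e^4 + 1872*e^4*m^2 + 2736*e^6 + 720*e^6*m^2 - 8544*e^8
      - 2232*e^8*m^2 + 5544*e^10)*v^2 +
    (72*e*m - 432*e^5*m + 576*e^7*m - 216*e^9*m)*v^3

/-- The coefficient of `p ^ 4` in `psi`. -/
noncomputable def psi4 (e m v : ℝ) : ℝ :=
    (-4 + 12*m^2 - 96*e^2 + 984*e^2*m^2 + 48*e^4 + 696*e^4*m^2 - 32*e^6 + 4248*e^6*m^2 -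
      3456*e^6*m^4 - 12*e^8 - 5652*e^8*m^2) +
    (-336*e*m - 72*e^3*m - 864*e^3*m^3 - 192*e^5*m + 2304*e^5*m^3 + 11832*e^7*m - 2016*e^7*m^3 -
      11088*e^9*m)*v +
    (-36*m^2 - 12*e^2 + 144*e^2*m^2 - 168*e^4 - 504*e^4*m^2 - 624*e^6 - 432*e^6*m^2 + 2568*e^8 +
      828*e^8*m^2 - 1764*e^10)*v^2

/-- The coefficient of `p ^ 5` in `psi`. -/
noncomputable def psi5 (e m v : ℝ) : ℝ :=
    (72*m^2 + 24*e^2 - 792*e^2*m^2 - 1296*e^4*m^2 + 24*e^6 - 3288*e^6*m^2 + 2304*e^6*m^4 +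
      5544*e^8*m^2) +
    (120*e*m + 96*e^3*m + 288*e^3*m^3 - 288*e^5*m - 576*e^5*m^3 - 3456*e^7*m + 288*e^7*m^3 +
      3528*e^9*m)*v

/-- The coefficient of `p ^ 6` in `psi`. -/
noncomputable def psi6 (e m : ℝ) : ℝ :=
    (-36*m^2 + 216*e^2*m^2 + 504*e^4*m^2 + 888*e^6*m^2 - 576*e^6*m^4 - 1764*e^8*m^2)

/-- The integrand on the three-sphere: `e = η`, `m = ⟪N, e₀⟫`, `p = ⟪P, Y⟫`, `v = ⟪P, N⟫`. -/
noncomputable def psi (e m p v : ℝ) : ℝ :=
  psi0 e m v + psi1 e m v * p + psi2 e m v * p ^ 2 + psi3 e m v * p ^ 3 + psi4 e m v * p ^ 4 +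
    psi5 e m v * p ^ 5 + psi6 e m * p ^ 6

/-- The average of `psi` over the pole. -/
noncomputable def Phi (e m : ℝ) : ℝ :=
    (-(24/5) - (468/35)*e^2 + (1312/5)*e^4 - (3188/5)*e^6 + (37944/35)*e^8 - (41852/35)*e^10 +
      (3888/7)*e^12 - (252/5)*e^14) +
    ((624/35) + (2392/35)*e^2 - (2280/7)*e^4 + (36048/35)*e^6 - (63744/35)*e^8 + (37368/35)*e^10
      - (504/5)*e^12)*m^2 +
    ((24/7) - (1188/35)*e^2 + (192/7)*e^4 - (21768/35)*e^6 + (17928/35)*e^8 - (252/5)*e^10)*m^4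

/-- Stereographic projection of the unit sphere of `E4` from the pole `(0; p)`, in the
orthonormal frame `a, b, e₀` of the orthogonal complement of the pole. -/
noncomputable def st (a b p : E3) (Y : E4) : E3 :=
  (1 / (1 - inner ℝ p (vec Y))) • !₂[inner ℝ a (vec Y), inner ℝ b (vec Y), Y 0]

/-- `a, b, p` is an orthonormal frame of `E3`. -/
structure Frame (a b p : E3) : Prop where
  na : ‖a‖ = 1
  nb : ‖b‖ = 1
  np : ‖p‖ = 1
  ab : inner ℝ a b = 0
  ap : inner ℝ a p = 0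
  bp : inner ℝ b p = 0

/-- The normal vector `N = w - w_t Y` of the sphere `{Y | ⟪w, Y⟫ = w_t}`; its space part. -/
noncomputable def nvec (wv : E3) (wt : ℝ) (Y : E4) : E3 := wv - wt • vec Y

/-- The squared radius of the circle `η = e` of a film sphere. -/
noncomputable def rho2 (w0 wt : ℝ) (wv : E3) (e : ℝ) : ℝ :=
  1 - e ^ 2 - (wt - w0 * e) ^ 2 / ‖wv‖ ^ 2

/-- Parametrisation of the film sphere `{‖Y‖ = 1, w₀ Y₀ + ⟪wv, vec Y⟫ = w_t}` by the height `η`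
and an angle, `a, b` an orthonormal basis of the orthogonal complement of `wv`. -/
noncomputable def fpar (w0 wt : ℝ) (wv a b : E3) (u : ℝ × ℝ) : E4 :=
  !₂[u.1,
    (wt - w0 * u.1) / ‖wv‖ ^ 2 * wv 0 +
      Real.sqrt (rho2 w0 wt wv u.1) * (Real.cos u.2 * a 0 + Real.sin u.2 * b 0),
    (wt - w0 * u.1) / ‖wv‖ ^ 2 * wv 1 +
      Real.sqrt (rho2 w0 wt wv u.1) * (Real.cos u.2 * a 1 + Real.sin u.2 * b 1),
    (wt - w0 * u.1) / ‖wv‖ ^ 2 * wv 2 +
      Real.sqrt (rho2 w0 wt wv u.1) * (Real.cos u.2 * a 2 + Real.sin u.2 * b 2)]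

/-- `a, b` is an orthonormal basis of the orthogonal complement of `w`. -/
structure Perp (w a b : E3) : Prop where
  na : ‖a‖ = 1
  nb : ‖b‖ = 1
  ab : inner ℝ a b = 0
  wa : inner ℝ w a = 0
  wb : inner ℝ w b = 0

/-- Six axes through the vertices of an icosahedron, up to scaling. -/
noncomputable def axes5 : Fin 6 → E3 :=
  ![!₂[0, 1, Real.goldenRatio], !₂[0, -1, Real.goldenRatio], !₂[1, Real.goldenRatio, 0],
    !₂[-1, Real.goldenRatio, 0], !₂[Real.goldenRatio, 0, 1], !₂[Real.goldenRatio, 0, -1]]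

/-- The fifteen two-fold axes of the same icosahedron, as unit vectors. -/
noncomputable def axes2 : Fin 15 → E3 :=
  ![!₂[1, 0, 0], !₂[0, 1, 0], !₂[0, 0, 1],
    !₂[1 / 2, (Real.goldenRatio - 1) / 2, Real.goldenRatio / 2],
    !₂[1 / 2, (Real.goldenRatio - 1) / 2, -(Real.goldenRatio / 2)],
    !₂[1 / 2, -((Real.goldenRatio - 1) / 2), Real.goldenRatio / 2],
    !₂[1 / 2, -((Real.goldenRatio - 1) / 2), -(Real.goldenRatio / 2)],
    !₂[Real.goldenRatio / 2, 1 / 2, (Real.goldenRatio - 1) / 2],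
    !₂[-(Real.goldenRatio / 2), 1 / 2, (Real.goldenRatio - 1) / 2],
    !₂[Real.goldenRatio / 2, 1 / 2, -((Real.goldenRatio - 1) / 2)],
    !₂[-(Real.goldenRatio / 2), 1 / 2, -((Real.goldenRatio - 1) / 2)],
    !₂[(Real.goldenRatio - 1) / 2, Real.goldenRatio / 2, 1 / 2],
    !₂[-((Real.goldenRatio - 1) / 2), Real.goldenRatio / 2, 1 / 2],
    !₂[(Real.goldenRatio - 1) / 2, -(Real.goldenRatio / 2), 1 / 2],
    !₂[-((Real.goldenRatio - 1) / 2), -(Real.goldenRatio / 2), 1 / 2]]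

/-- The index set of the `42` poles: `12` vertices and `30` edge midpoints. -/
abbrev PIdx : Type := (Fin 6 ⊕ Fin 15) × Bool

/-- The pole directions. -/
noncomputable def pole (i : PIdx) : E3 :=
  (if i.2 then (1 : ℝ) else -1) •
    (match i.1 with
      | Sum.inl j => (1 / Real.sqrt (1 + Real.goldenRatio ^ 2)) • axes5 j
      | Sum.inr j => axes2 j)

/-- The weights of the cubature formula. -/
noncomputable def pw (i : PIdx) : ℝ :=
  match i.1 with
  | Sum.inl _ => 5 / 252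
  | Sum.inr _ => 8 / 315

end Kusner
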