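import Pool.Agent.helper64.Kus.A3
import Pool.Agent.helper14.Kus3.NumDefs

/-!
# Sharp enclosures of the parameters (generated interval arithmetic)
-/

namespace Kus64

namespace Encl

open A2aux

theorem In.neg {x a b : ℝ} (h : In x a b) : In (-x) (-b) (-a) :=
  ⟨neg_le_neg h.2, neg_le_neg h.1⟩

theorem In.sqn {x a b : ℝ} (h : In x a b) (hb : b ≤ 0) : In (x ^ 2) (b ^ 2) (a ^ 2) := by
  have h1 := h.1
  have h2 := h.2
  constructor <;> nlinarith

theorem In.mulg {x a b y c d lo hi : ℝ} (h : In x a b) (h' : In y c d)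
    (l1 : lo ≤ a * c) (l2 : lo ≤ a * d) (l3 : lo ≤ b * c) (l4 : lo ≤ b * d)
    (u1 : a * c ≤ hi) (u2 : a * d ≤ hi) (u3 : b * c ≤ hi) (u4 : b * d ≤ hi) :
    In (x * y) lo hi := by
  have h1 := h.1
  have h2 := h.2
  have h3 := h'.1
  have h4 := h'.2
  have k1 : lo ≤ a * y := by
    rcases le_total 0 a with ha | ha
    · exact l1.trans (mul_le_mul_of_nonneg_left h3 ha)
    · exact l2.trans (mul_le_mul_of_nonpos_left h4 ha)
  have k2 : lo ≤ b * y := by
    rcases le_total 0 b with ha | ha
    · exact l3.trans (mul_le_mul_of_nonneg_left h3 ha)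
    · exact l4.trans (mul_le_mul_of_nonpos_left h4 ha)
  have k3 : a * y ≤ hi := by
    rcases le_total 0 a with ha | ha
    · exact (mul_le_mul_of_nonneg_left h4 ha).trans u2
    · exact (mul_le_mul_of_nonpos_left h3 ha).trans u1
  have k4 : b * y ≤ hi := by
    rcases le_total 0 b with ha | ha
    · exact (mul_le_mul_of_nonneg_left h4 ha).trans u4
    · exact (mul_le_mul_of_nonpos_left h3 ha).trans u3
  constructor
  · rcases le_total 0 y with hy | hy
    · exact k1.trans (mul_le_mul_of_nonneg_right h1 hy)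
    · exact k2.trans (mul_le_mul_of_nonpos_right h2 hy)
  · rcases le_total 0 y with hy | hy
    · exact (mul_le_mul_of_nonneg_right h2 hy).trans k4
    · exact (mul_le_mul_of_nonpos_right h1 hy).trans k3

/-! ### the equations for `y1` -/

theorem p_pos : 0 < φ := by linarith [φ_bounds.1]

theorem y1_bd : 1 < y1 ∧ y1 < 1.1 := by
  have h := y1_mem
  constructor <;> linarith [h.1, h.2]

theorem x3_eq : x3 = √(1 - (y1 - 1 / 2) ^ 2) := by
  rw [x3, x3f]
  congr 1
  ring

theorem B_eq : y1 ^ 2 = δ * (2 * z1 + δ) := by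
  have h := eqf_y1
  rw [eqf] at h
  rw [z1, δ]
  linarith

theorem z1_pos : 0 < z1 := by
  rw [z1]
  exact mul_pos p_pos (by linarith [y1_bd.1])

theorem t1_pos : 0 < t1 := by
  rw [t1]
  linarith [z1_pos, δ_pos]

theorem t1_eq : t1 = √(y1 ^ 2 + z1 ^ 2) := by
  rw [null310, Real.sqrt_sq t1_pos.le]

theorem δ_eq : δ = y1 ^ 2 / (z1 + t1) := by
  rw [eq_div_iff (by linarith [z1_pos, t1_pos]), B_eq, t1]
  ring

theorem den_ne : 2 * y1 + 1 - 2 * φ * x3 ≠ 0 := by
  intro h
  have h1 : δ = 0 := by
    rw [δ, δf]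
    rw [x3] at h
    rw [h, mul_zero, div_zero]
  exact δ_pos.ne' h1

theorem y1_eq : y1 = 1 + δ * φ * (1 - 2 * φ * (x3 / (2 * y1 + 1))) := by
  have h := den_ne
  have h1 : φ * (2 * y1 + 1 - 2 * φ * x3) ≠ 0 := mul_ne_zero p_pos.ne' h
  have h2 : δ = (2 * y1 + 1) * (y1 - 1) / (φ * (2 * y1 + 1 - 2 * φ * x3)) := rfl
  have h3 : δ * (φ * (2 * y1 + 1 - 2 * φ * x3)) = (2 * y1 + 1) * (y1 - 1) := by
    rw [h2, div_mul_cancel₀ _ h1]
  have h4 : 2 * y1 + 1 ≠ 0 := by linarith [y1_bd.1]
  have hu : x3 / (2 * y1 + 1) * (2 * y1 + 1) = x3 := div_mul_cancel₀ _ h4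
  apply mul_right_cancel₀ h4
  linear_combination -h3 + 2 * δ * φ ^ 2 * hu

/-! ### generated -/

theorem iφ : In φ 1.618033988749 1.61803398875 := ⟨φ_bounds.1.le, φ_bounds.2.le⟩

theorem s5 : In (√5) 2.2360679774997 2.2360679774998 :=
  In.sqrt (In.const 5) (by norm_num) (by norm_num) (by norm_num) (by norm_num)

theorem iφ' : In φ 1.61803398874985 1.6180339887499 := by
  have h1 := s5.1
  have h2 := s5.2
  unfold φ
  constructor <;> linarith

theorem e1 : In (y1 - (1 / 2 : ℝ)) (0.52433713) (0.52433716) :=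
  (In.sub y1_mem (In.const (1 / 2))).mono (by norm_num) (by norm_num)

theorem e2 : In ((y1 - (1 / 2 : ℝ)) ^ 2) (0.2749294258966) (0.2749294573569) :=
  (In.sq e1 (by norm_num)).mono (by norm_num) (by norm_num)

theorem e3 : In (((1) : ℝ) - ((y1 - (1 / 2 : ℝ)) ^ 2)) (0.7250705426431) (0.7250705741034) :=
  (In.sub (In.const ((1))) e2).mono (by norm_num) (by norm_num)

theorem e4 : In (√(((1) : ℝ) - ((y1 - (1 / 2 : ℝ)) ^ 2))) (0.851510741355) (0.8515107598284) :=
  In.sqrt e3 (by norm_num) (by norm_num) (by norm_num) (by norm_num)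

theorem x3_1 : In x3 (0.851510741355) (0.8515107598284) := by
  rw [x3_eq]
  exact e4

theorem e5 : In (y1 + ((1) : ℝ)) (2.02433713) (2.02433716) :=
  (In.add y1_mem (In.const ((1)))).mono (by norm_num) (by norm_num)

theorem e6 : In (φ * (y1 + ((1) : ℝ))) (3.2754462810283) (3.2754463295695) :=
  (In.mul iφ' e5 (by norm_num) (by norm_num)).mono (by norm_num) (by norm_num)

theorem z1_1 : In z1 (3.2754462810283) (3.2754463295695) := e6

theorem e7 : In (y1 ^ 2) (1.0492665558966) (1.0492666173569) :=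
  (In.sq y1_mem (by norm_num)).mono (by norm_num) (by norm_num)

theorem e8 : In (z1 ^ 2) (10.7285483399021) (10.7285486578904) :=
  (In.sq z1_1 (by norm_num)).mono (by norm_num) (by norm_num)

theorem e9 : In ((y1 ^ 2) + (z1 ^ 2)) (11.7778148957987) (11.7778152752473) :=
  (In.add e7 e8).mono (by norm_num) (by norm_num)

theorem e10 : In (√((y1 ^ 2) + (z1 ^ 2))) (3.4318821214894) (3.4318821767723) :=
  In.sqrt e9 (by norm_num) (by norm_num) (by norm_num) (by norm_num)

theorem t1_1 : In t1 (3.4318821214894) (3.4318821767723) := by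
  rw [t1_eq]
  exact e10

theorem e11 : In (y1 ^ 2) (1.0492665558966) (1.0492666173569) :=
  (In.sq y1_mem (by norm_num)).mono (by norm_num) (by norm_num)

theorem e12 : In (z1 + t1) (6.7073284025177) (6.7073285063418) :=
  (In.add z1_1 t1_1).mono (by norm_num) (by norm_num)

theorem e13 : In ((y1 ^ 2) / (z1 + t1)) (0.1564358380396) (0.1564358496243) :=
  (In.div e11 e12 (by norm_num) (by norm_num)).mono (by norm_num) (by norm_num)

theorem δ_1 : In δ (0.1564358380396) (0.1564358496243) := by
  rw [δ_eq]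
  exact e13

theorem e14 : In (((2) : ℝ) * y1) (2.04867426) (2.04867432) :=
  (In.mul (In.const ((2))) y1_mem (by norm_num) (by norm_num)).mono (by norm_num) (by norm_num)

theorem e15 : In ((((2) : ℝ) * y1) + ((1) : ℝ)) (3.04867426) (3.04867432) :=
  (In.add e14 (In.const ((1)))).mono (by norm_num) (by norm_num)

theorem e16 : In (x3 / ((((2) : ℝ) * y1) + ((1) : ℝ))) (0.2793052494223) (0.2793052609788) :=
  (In.div x3_1 e15 (by norm_num) (by norm_num)).mono (by norm_num) (by norm_num)

theorem e17 : In (((2) : ℝ) * φ) (3.2360679774997) (3.2360679774998) :=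
  (In.mul (In.const ((2))) iφ' (by norm_num) (by norm_num)).mono (by norm_num) (by norm_num)

theorem e18 : In ((((2) : ℝ) * φ) * (x3 / ((((2) : ℝ) * y1) + ((1) : ℝ)))) (0.903850773603) (0.9038508110008) :=
  (In.mul e17 e16 (by norm_num) (by norm_num)).mono (by norm_num) (by norm_num)

theorem e19 : In (((1) : ℝ) - ((((2) : ℝ) * φ) * (x3 / ((((2) : ℝ) * y1) + ((1) : ℝ))))) (0.0961491889992) (0.096149226397) :=
  (In.sub (In.const ((1))) e18).mono (by norm_num) (by norm_num)

theorem e20 : In (δ * φ) (0.2531185030066) (0.2531185217511) :=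
  (In.mul δ_1 iφ' (by norm_num) (by norm_num)).mono (by norm_num) (by norm_num)

theorem e21 : In ((δ * φ) * (((1) : ℝ) - ((((2) : ℝ) * φ) * (x3 / ((((2) : ℝ) * y1) + ((1) : ℝ)))))) (0.0243371387847) (0.0243371500532) :=
  (In.mul e20 e19 (by norm_num) (by norm_num)).mono (by norm_num) (by norm_num)

theorem e22 : In (((1) : ℝ) + ((δ * φ) * (((1) : ℝ) - ((((2) : ℝ) * φ) * (x3 / ((((2) : ℝ) * y1) + ((1) : ℝ))))))) (1.0243371387847) (1.0243371500532) :=
  (In.add (In.const ((1))) e21).mono (by norm_num) (by norm_num)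

theorem y1_1 : In y1 (1.0243371387847) (1.0243371500532) := by
  rw [y1_eq]
  exact e22

theorem e23 : In (y1 - (1 / 2 : ℝ)) (0.5243371387847) (0.5243371500532) :=
  (In.sub y1_1 (In.const (1 / 2))).mono (by norm_num) (by norm_num)

theorem e24 : In ((y1 - (1 / 2 : ℝ)) ^ 2) (0.2749294351089) (0.274929446926) :=
  (In.sq e23 (by norm_num)).mono (by norm_num) (by norm_num)

theorem e25 : In (((1) : ℝ) - ((y1 - (1 / 2 : ℝ)) ^ 2)) (0.725070553074) (0.7250705648911) :=
  (In.sub (In.const ((1))) e24).mono (by norm_num) (by norm_num)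

theorem e26 : In (√(((1) : ℝ) - ((y1 - (1 / 2 : ℝ)) ^ 2))) (0.85151074748) (0.851510754419) :=
  In.sqrt e25 (by norm_num) (by norm_num) (by norm_num) (by norm_num)

theorem x3_2 : In x3 (0.85151074748) (0.851510754419) := by
  rw [x3_eq]
  exact e26

theorem e27 : In (y1 + ((1) : ℝ)) (2.0243371387847) (2.0243371500532) :=
  (In.add y1_1 (In.const ((1)))).mono (by norm_num) (by norm_num)

theorem e28 : In (φ * (y1 + ((1) : ℝ))) (3.2754462952422) (3.2754463134752) :=
  (In.mul iφ' e27 (by norm_num) (by norm_num)).mono (by norm_num) (by norm_num)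

theorem z1_2 : In z1 (3.2754462952422) (3.2754463134752) := e28

theorem e29 : In (y1 ^ 2) (1.0492665738936) (1.0492665969792) :=
  (In.sq y1_1 (by norm_num)).mono (by norm_num) (by norm_num)

theorem e30 : In (z1 ^ 2) (10.7285484330158) (10.7285485524583) :=
  (In.sq z1_2 (by norm_num)).mono (by norm_num) (by norm_num)

theorem e31 : In ((y1 ^ 2) + (z1 ^ 2)) (11.7778150069094) (11.7778151494375) :=
  (In.add e29 e30).mono (by norm_num) (by norm_num)

theorem e32 : In (√((y1 ^ 2) + (z1 ^ 2))) (3.4318821376774) (3.4318821584428) :=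
  In.sqrt e31 (by norm_num) (by norm_num) (by norm_num) (by norm_num)

theorem t1_2 : In t1 (3.4318821376774) (3.4318821584428) := by
  rw [t1_eq]
  exact e32

theorem e33 : In (y1 ^ 2) (1.0492665738936) (1.0492665969792) :=
  (In.sq y1_1 (by norm_num)).mono (by norm_num) (by norm_num)

theorem e34 : In (z1 + t1) (6.7073284329196) (6.707328471918) :=
  (In.add z1_2 t1_2).mono (by norm_num) (by norm_num)

theorem e35 : In ((y1 ^ 2) / (z1 + t1)) (0.1564358415256) (0.1564358458771) :=
  (In.div e33 e34 (by norm_num) (by norm_num)).mono (by norm_num) (by norm_num)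

theorem δ_2 : In δ (0.1564358415256) (0.1564358458771) := by
  rw [δ_eq]
  exact e35

theorem e36 : In (((2) : ℝ) * y1) (2.0486742775694) (2.0486743001064) :=
  (In.mul (In.const ((2))) y1_1 (by norm_num) (by norm_num)).mono (by norm_num) (by norm_num)

theorem e37 : In ((((2) : ℝ) * y1) + ((1) : ℝ)) (3.0486742775694) (3.0486743001064) :=
  (In.add e36 (In.const ((1)))).mono (by norm_num) (by norm_num)

theorem e38 : In (x3 / ((((2) : ℝ) * y1) + ((1) : ℝ))) (0.2793052532539) (0.2793052575948) :=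
  (In.div x3_2 e37 (by norm_num) (by norm_num)).mono (by norm_num) (by norm_num)

theorem e39 : In (((2) : ℝ) * φ) (3.2360679774997) (3.2360679774998) :=
  (In.mul (In.const ((2))) iφ' (by norm_num) (by norm_num)).mono (by norm_num) (by norm_num)

theorem e40 : In ((((2) : ℝ) * φ) * (x3 / ((((2) : ℝ) * y1) + ((1) : ℝ)))) (0.9038507860023) (0.9038508000499) :=
  (In.mul e39 e38 (by norm_num) (by norm_num)).mono (by norm_num) (by norm_num)

theorem e41 : In (((1) : ℝ) - ((((2) : ℝ) * φ) * (x3 / ((((2) : ℝ) * y1) + ((1) : ℝ))))) (0.0961491999501) (0.0961492139977) :=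
  (In.sub (In.const ((1))) e40).mono (by norm_num) (by norm_num)

theorem e42 : In (δ * φ) (0.2531185086471) (0.253118515688) :=
  (In.mul δ_2 iφ' (by norm_num) (by norm_num)).mono (by norm_num) (by norm_num)

theorem e43 : In ((δ * φ) * (((1) : ℝ) - ((((2) : ℝ) * φ) * (x3 / ((((2) : ℝ) * y1) + ((1) : ℝ)))))) (0.0243371420989) (0.0243371463317) :=
  (In.mul e42 e41 (by norm_num) (by norm_num)).mono (by norm_num) (by norm_num)

theorem e44 : In (((1) : ℝ) + ((δ * φ) * (((1) : ℝ) - ((((2) : ℝ) * φ) * (x3 / ((((2) : ℝ) * y1) + ((1) : ℝ))))))) (1.0243371420989) (1.0243371463317) :=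
  (In.add (In.const ((1))) e43).mono (by norm_num) (by norm_num)

theorem y1_2 : In y1 (1.0243371420989) (1.0243371463317) := by
  rw [y1_eq]
  exact e44

theorem e45 : In (y1 - (1 / 2 : ℝ)) (0.5243371420989) (0.5243371463317) :=
  (In.sub y1_2 (In.const (1 / 2))).mono (by norm_num) (by norm_num)

theorem e46 : In ((y1 - (1 / 2 : ℝ)) ^ 2) (0.2749294385844) (0.2749294430233) :=
  (In.sq e45 (by norm_num)).mono (by norm_num) (by norm_num)

theorem e47 : In (((1) : ℝ) - ((y1 - (1 / 2 : ℝ)) ^ 2)) (0.7250705569767) (0.7250705614156) :=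
  (In.sub (In.const ((1))) e46).mono (by norm_num) (by norm_num)

theorem e48 : In (√(((1) : ℝ) - ((y1 - (1 / 2 : ℝ)) ^ 2))) (0.8515107497716) (0.8515107523782) :=
  In.sqrt e47 (by norm_num) (by norm_num) (by norm_num) (by norm_num)

theorem x3_3 : In x3 (0.8515107497716) (0.8515107523782) := by
  rw [x3_eq]
  exact e48

theorem e49 : In (y1 + ((1) : ℝ)) (2.0243371420989) (2.0243371463317) :=
  (In.add y1_2 (In.const ((1)))).mono (by norm_num) (by norm_num)

theorem e50 : In (φ * (y1 + ((1) : ℝ))) (3.2754463006047) (3.2754463074537) :=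
  (In.mul iφ' e49 (by norm_num) (by norm_num)).mono (by norm_num) (by norm_num)

theorem z1_3 : In z1 (3.2754463006047) (3.2754463074537) := e50

theorem e51 : In (y1 ^ 2) (1.0492665806833) (1.049266589355) :=
  (In.sq y1_2 (by norm_num)).mono (by norm_num) (by norm_num)

theorem e52 : In (z1 ^ 2) (10.728548468145) (10.7285485130121) :=
  (In.sq z1_3 (by norm_num)).mono (by norm_num) (by norm_num)

theorem e53 : In ((y1 ^ 2) + (z1 ^ 2)) (11.7778150488283) (11.7778151023671) :=
  (In.add e51 e52).mono (by norm_num) (by norm_num)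

theorem e54 : In (√((y1 ^ 2) + (z1 ^ 2))) (3.4318821437847) (3.431882151585) :=
  In.sqrt e53 (by norm_num) (by norm_num) (by norm_num) (by norm_num)

theorem t1_3 : In t1 (3.4318821437847) (3.431882151585) := by
  rw [t1_eq]
  exact e54

theorem e55 : In (y1 ^ 2) (1.0492665806833) (1.049266589355) :=
  (In.sq y1_2 (by norm_num)).mono (by norm_num) (by norm_num)

theorem e56 : In (z1 + t1) (6.7073284443894) (6.7073284590387) :=
  (In.add z1_3 t1_3).mono (by norm_num) (by norm_num)

theorem e57 : In ((y1 ^ 2) / (z1 + t1)) (0.1564358428383) (0.1564358444729) :=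
  (In.div e55 e56 (by norm_num) (by norm_num)).mono (by norm_num) (by norm_num)

theorem δ_3 : In δ (0.1564358428383) (0.1564358444729) := by
  rw [δ_eq]
  exact e57

theorem e58 : In (((2) : ℝ) * y1) (2.0486742841978) (2.0486742926634) :=
  (In.mul (In.const ((2))) y1_2 (by norm_num) (by norm_num)).mono (by norm_num) (by norm_num)

theorem e59 : In ((((2) : ℝ) * y1) + ((1) : ℝ)) (3.0486742841978) (3.0486742926634) :=
  (In.add e58 (In.const ((1)))).mono (by norm_num) (by norm_num)

theorem e60 : In (x3 / ((((2) : ℝ) * y1) + ((1) : ℝ))) (0.2793052546875) (0.2793052563181) :=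
  (In.div x3_3 e59 (by norm_num) (by norm_num)).mono (by norm_num) (by norm_num)

theorem e61 : In (((2) : ℝ) * φ) (3.2360679774997) (3.2360679774998) :=
  (In.mul (In.const ((2))) iφ' (by norm_num) (by norm_num)).mono (by norm_num) (by norm_num)

theorem e62 : In ((((2) : ℝ) * φ) * (x3 / ((((2) : ℝ) * y1) + ((1) : ℝ)))) (0.9038507906416) (0.9038507959184) :=
  (In.mul e61 e60 (by norm_num) (by norm_num)).mono (by norm_num) (by norm_num)

theorem e63 : In (((1) : ℝ) - ((((2) : ℝ) * φ) * (x3 / ((((2) : ℝ) * y1) + ((1) : ℝ))))) (0.0961492040816) (0.0961492093584) :=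
  (In.sub (In.const ((1))) e62).mono (by norm_num) (by norm_num)

theorem e64 : In (δ * φ) (0.253118510771) (0.253118513416) :=
  (In.mul δ_3 iφ' (by norm_num) (by norm_num)).mono (by norm_num) (by norm_num)

theorem e65 : In ((δ * φ) * (((1) : ℝ) - ((((2) : ℝ) * φ) * (x3 / ((((2) : ℝ) * y1) + ((1) : ℝ)))))) (0.0243371433489) (0.024337144939) :=
  (In.mul e64 e63 (by norm_num) (by norm_num)).mono (by norm_num) (by norm_num)

theorem e66 : In (((1) : ℝ) + ((δ * φ) * (((1) : ℝ) - ((((2) : ℝ) * φ) * (x3 / ((((2) : ℝ) * y1) + ((1) : ℝ))))))) (1.0243371433489) (1.024337144939) :=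
  (In.add (In.const ((1))) e65).mono (by norm_num) (by norm_num)

theorem y1_3 : In y1 (1.0243371433489) (1.024337144939) := by
  rw [y1_eq]
  exact e66

theorem e67 : In (y1 - (1 / 2 : ℝ)) (0.5243371433489) (0.524337144939) :=
  (In.sub y1_3 (In.const (1 / 2))).mono (by norm_num) (by norm_num)

theorem e68 : In ((y1 - (1 / 2 : ℝ)) ^ 2) (0.2749294398952) (0.2749294415628) :=
  (In.sq e67 (by norm_num)).mono (by norm_num) (by norm_num)

theorem e69 : In (((1) : ℝ) - ((y1 - (1 / 2 : ℝ)) ^ 2)) (0.7250705584372) (0.7250705601048) :=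
  (In.sub (In.const ((1))) e68).mono (by norm_num) (by norm_num)

theorem e70 : In (√(((1) : ℝ) - ((y1 - (1 / 2 : ℝ)) ^ 2))) (0.8515107506292) (0.8515107516085) :=
  In.sqrt e69 (by norm_num) (by norm_num) (by norm_num) (by norm_num)

theorem x3_4 : In x3 (0.8515107506292) (0.8515107516085) := by
  rw [x3_eq]
  exact e70

theorem e71 : In (y1 + ((1) : ℝ)) (2.0243371433489) (2.024337144939) :=
  (In.add y1_3 (In.const ((1)))).mono (by norm_num) (by norm_num)

theorem e72 : In (φ * (y1 + ((1) : ℝ))) (3.2754463026272) (3.2754463052003) :=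
  (In.mul iφ' e71 (by norm_num) (by norm_num)).mono (by norm_num) (by norm_num)

theorem z1_4 : In z1 (3.2754463026272) (3.2754463052003) := e72

theorem e73 : In (y1 ^ 2) (1.0492665832441) (1.0492665865018) :=
  (In.sq y1_3 (by norm_num)).mono (by norm_num) (by norm_num)

theorem e74 : In (z1 ^ 2) (10.7285484813941) (10.7285484982503) :=
  (In.sq z1_4 (by norm_num)).mono (by norm_num) (by norm_num)

theorem e75 : In ((y1 ^ 2) + (z1 ^ 2)) (11.7778150646382) (11.7778150847521) :=
  (In.add e73 e74).mono (by norm_num) (by norm_num)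

theorem e76 : In (√((y1 ^ 2) + (z1 ^ 2))) (3.431882146088) (3.4318821490186) :=
  In.sqrt e75 (by norm_num) (by norm_num) (by norm_num) (by norm_num)

theorem t1_4 : In t1 (3.431882146088) (3.4318821490186) := by
  rw [t1_eq]
  exact e76

theorem e77 : In (y1 ^ 2) (1.0492665832441) (1.0492665865018) :=
  (In.sq y1_3 (by norm_num)).mono (by norm_num) (by norm_num)

theorem e78 : In (z1 + t1) (6.7073284487152) (6.7073284542189) :=
  (In.add z1_4 t1_4).mono (by norm_num) (by norm_num)

theorem e79 : In ((y1 ^ 2) / (z1 + t1)) (0.1564358433325) (0.1564358439466) :=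
  (In.div e77 e78 (by norm_num) (by norm_num)).mono (by norm_num) (by norm_num)

theorem δ_4 : In δ (0.1564358433325) (0.1564358439466) := by
  rw [δ_eq]
  exact e79

theorem e80 : In (((2) : ℝ) * y1) (2.0486742866978) (2.048674289878) :=
  (In.mul (In.const ((2))) y1_3 (by norm_num) (by norm_num)).mono (by norm_num) (by norm_num)

theorem e81 : In ((((2) : ℝ) * y1) + ((1) : ℝ)) (3.0486742866978) (3.048674289878) :=
  (In.add e80 (In.const ((1)))).mono (by norm_num) (by norm_num)

theorem e82 : In (x3 / ((((2) : ℝ) * y1) + ((1) : ℝ))) (0.2793052552239) (0.2793052558366) :=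
  (In.div x3_4 e81 (by norm_num) (by norm_num)).mono (by norm_num) (by norm_num)

theorem e83 : In (((2) : ℝ) * φ) (3.2360679774997) (3.2360679774998) :=
  (In.mul (In.const ((2))) iφ' (by norm_num) (by norm_num)).mono (by norm_num) (by norm_num)

theorem e84 : In ((((2) : ℝ) * φ) * (x3 / ((((2) : ℝ) * y1) + ((1) : ℝ)))) (0.9038507923774) (0.9038507943603) :=
  (In.mul e83 e82 (by norm_num) (by norm_num)).mono (by norm_num) (by norm_num)

theorem e85 : In (((1) : ℝ) - ((((2) : ℝ) * φ) * (x3 / ((((2) : ℝ) * y1) + ((1) : ℝ))))) (0.0961492056397) (0.0961492076226) :=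
  (In.sub (In.const ((1))) e84).mono (by norm_num) (by norm_num)

theorem e86 : In (δ * φ) (0.2531185115707) (0.2531185125644) :=
  (In.mul δ_4 iφ' (by norm_num) (by norm_num)).mono (by norm_num) (by norm_num)

theorem e87 : In ((δ * φ) * (((1) : ℝ) - ((((2) : ℝ) * φ) * (x3 / ((((2) : ℝ) * y1) + ((1) : ℝ)))))) (0.0243371438202) (0.0243371444177) :=
  (In.mul e86 e85 (by norm_num) (by norm_num)).mono (by norm_num) (by norm_num)

theorem e88 : In (((1) : ℝ) + ((δ * φ) * (((1) : ℝ) - ((((2) : ℝ) * φ) * (x3 / ((((2) : ℝ) * y1) + ((1) : ℝ))))))) (1.0243371438202) (1.0243371444177) :=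
  (In.add (In.const ((1))) e87).mono (by norm_num) (by norm_num)

theorem y1_4 : In y1 (1.0243371438202) (1.0243371444177) := by
  rw [y1_eq]
  exact e88

theorem e89 : In (y1 - (1 / 2 : ℝ)) (0.5243371438202) (0.5243371444177) :=
  (In.sub y1_4 (In.const (1 / 2))).mono (by norm_num) (by norm_num)

theorem e90 : In ((y1 - (1 / 2 : ℝ)) ^ 2) (0.2749294403895) (0.2749294410162) :=
  (In.sq e89 (by norm_num)).mono (by norm_num) (by norm_num)

theorem e91 : In (((1) : ℝ) - ((y1 - (1 / 2 : ℝ)) ^ 2)) (0.7250705589838) (0.7250705596105) :=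
  (In.sub (In.const ((1))) e90).mono (by norm_num) (by norm_num)

theorem e92 : In (√(((1) : ℝ) - ((y1 - (1 / 2 : ℝ)) ^ 2))) (0.8515107509502) (0.8515107513183) :=
  In.sqrt e91 (by norm_num) (by norm_num) (by norm_num) (by norm_num)

theorem x3_5 : In x3 (0.8515107509502) (0.8515107513183) := by
  rw [x3_eq]
  exact e92

theorem e93 : In (y1 + ((1) : ℝ)) (2.0243371438202) (2.0243371444177) :=
  (In.add y1_4 (In.const ((1)))).mono (by norm_num) (by norm_num)

theorem e94 : In (φ * (y1 + ((1) : ℝ))) (3.2754463033898) (3.2754463043568) :=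
  (In.mul iφ' e93 (by norm_num) (by norm_num)).mono (by norm_num) (by norm_num)

theorem z1_5 : In z1 (3.2754463033898) (3.2754463043568) := e94

theorem e95 : In (y1 ^ 2) (1.0492665842097) (1.0492665854339) :=
  (In.sq y1_4 (by norm_num)).mono (by norm_num) (by norm_num)

theorem e96 : In (z1 ^ 2) (10.7285484863899) (10.7285484927247) :=
  (In.sq z1_5 (by norm_num)).mono (by norm_num) (by norm_num)

theorem e97 : In ((y1 ^ 2) + (z1 ^ 2)) (11.7778150705996) (11.7778150781586) :=
  (In.add e95 e96).mono (by norm_num) (by norm_num)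

theorem e98 : In (√((y1 ^ 2) + (z1 ^ 2))) (3.4318821469566) (3.431882148058) :=
  In.sqrt e97 (by norm_num) (by norm_num) (by norm_num) (by norm_num)

theorem t1_5 : In t1 (3.4318821469566) (3.431882148058) := by
  rw [t1_eq]
  exact e98

theorem e99 : In (y1 ^ 2) (1.0492665842097) (1.0492665854339) :=
  (In.sq y1_4 (by norm_num)).mono (by norm_num) (by norm_num)

theorem e100 : In (z1 + t1) (6.7073284503464) (6.7073284524148) :=
  (In.add z1_5 t1_5).mono (by norm_num) (by norm_num)

theorem e101 : In ((y1 ^ 2) / (z1 + t1)) (0.1564358435185) (0.1564358437494) :=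
  (In.div e99 e100 (by norm_num) (by norm_num)).mono (by norm_num) (by norm_num)

theorem δ_5 : In δ (0.1564358435185) (0.1564358437494) := by
  rw [δ_eq]
  exact e101

theorem e102 : In (((2) : ℝ) * y1) (2.0486742876404) (2.0486742888354) :=
  (In.mul (In.const ((2))) y1_4 (by norm_num) (by norm_num)).mono (by norm_num) (by norm_num)

theorem e103 : In ((((2) : ℝ) * y1) + ((1) : ℝ)) (3.0486742876404) (3.0486742888354) :=
  (In.add e102 (In.const ((1)))).mono (by norm_num) (by norm_num)

theorem e104 : In (x3 / ((((2) : ℝ) * y1) + ((1) : ℝ))) (0.2793052554248) (0.2793052556551) :=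
  (In.div x3_5 e103 (by norm_num) (by norm_num)).mono (by norm_num) (by norm_num)

theorem e105 : In (((2) : ℝ) * φ) (3.2360679774997) (3.2360679774998) :=
  (In.mul (In.const ((2))) iφ' (by norm_num) (by norm_num)).mono (by norm_num) (by norm_num)

theorem e106 : In ((((2) : ℝ) * φ) * (x3 / ((((2) : ℝ) * y1) + ((1) : ℝ)))) (0.9038507930275) (0.9038507937729) :=
  (In.mul e105 e104 (by norm_num) (by norm_num)).mono (by norm_num) (by norm_num)

theorem e107 : In (((1) : ℝ) - ((((2) : ℝ) * φ) * (x3 / ((((2) : ℝ) * y1) + ((1) : ℝ))))) (0.0961492062271) (0.0961492069725) :=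
  (In.sub (In.const ((1))) e106).mono (by norm_num) (by norm_num)

theorem e108 : In (δ * φ) (0.2531185118716) (0.2531185122453) :=
  (In.mul δ_5 iφ' (by norm_num) (by norm_num)).mono (by norm_num) (by norm_num)

theorem e109 : In ((δ * φ) * (((1) : ℝ) - ((((2) : ℝ) * φ) * (x3 / ((((2) : ℝ) * y1) + ((1) : ℝ)))))) (0.0243371439978) (0.0243371442225) :=
  (In.mul e108 e107 (by norm_num) (by norm_num)).mono (by norm_num) (by norm_num)

theorem e110 : In (((1) : ℝ) + ((δ * φ) * (((1) : ℝ) - ((((2) : ℝ) * φ) * (x3 / ((((2) : ℝ) * y1) + ((1) : ℝ))))))) (1.0243371439978) (1.0243371442225) :=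
  (In.add (In.const ((1))) e109).mono (by norm_num) (by norm_num)

theorem y1_5 : In y1 (1.0243371439978) (1.0243371442225) := by
  rw [y1_eq]
  exact e110

theorem e111 : In (y1 - (1 / 2 : ℝ)) (0.5243371439978) (0.5243371442225) :=
  (In.sub y1_5 (In.const (1 / 2))).mono (by norm_num) (by norm_num)

theorem e112 : In ((y1 - (1 / 2 : ℝ)) ^ 2) (0.2749294405757) (0.2749294408115) :=
  (In.sq e111 (by norm_num)).mono (by norm_num) (by norm_num)

theorem e113 : In (((1) : ℝ) - ((y1 - (1 / 2 : ℝ)) ^ 2)) (0.7250705591885) (0.7250705594243) :=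
  (In.sub (In.const ((1))) e112).mono (by norm_num) (by norm_num)

theorem e114 : In (√(((1) : ℝ) - ((y1 - (1 / 2 : ℝ)) ^ 2))) (0.8515107510704) (0.8515107512089) :=
  In.sqrt e113 (by norm_num) (by norm_num) (by norm_num) (by norm_num)

theorem x3_6 : In x3 (0.8515107510704) (0.8515107512089) := by
  rw [x3_eq]
  exact e114

theorem e115 : In (y1 + ((1) : ℝ)) (2.0243371439978) (2.0243371442225) :=
  (In.add y1_5 (In.const ((1)))).mono (by norm_num) (by norm_num)

theorem e116 : In (φ * (y1 + ((1) : ℝ))) (3.2754463036772) (3.275446304041) :=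
  (In.mul iφ' e115 (by norm_num) (by norm_num)).mono (by norm_num) (by norm_num)

theorem z1_6 : In z1 (3.2754463036772) (3.275446304041) := e116

theorem e117 : In (y1 ^ 2) (1.0492665845735) (1.049266585034) :=
  (In.sq y1_5 (by norm_num)).mono (by norm_num) (by norm_num)

theorem e118 : In (z1 ^ 2) (10.7285484882726) (10.7285484906559) :=
  (In.sq z1_6 (by norm_num)).mono (by norm_num) (by norm_num)

theorem e119 : In ((y1 ^ 2) + (z1 ^ 2)) (11.7778150728461) (11.7778150756899) :=
  (In.add e117 e118).mono (by norm_num) (by norm_num)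

theorem e120 : In (√((y1 ^ 2) + (z1 ^ 2))) (3.4318821472839) (3.4318821476983) :=
  In.sqrt e119 (by norm_num) (by norm_num) (by norm_num) (by norm_num)

theorem t1_6 : In t1 (3.4318821472839) (3.4318821476983) := by
  rw [t1_eq]
  exact e120

theorem e121 : In (y1 ^ 2) (1.0492665845735) (1.049266585034) :=
  (In.sq y1_5 (by norm_num)).mono (by norm_num) (by norm_num)

theorem e122 : In (z1 + t1) (6.7073284509611) (6.7073284517393) :=
  (In.add z1_6 t1_6).mono (by norm_num) (by norm_num)

theorem e123 : In ((y1 ^ 2) / (z1 + t1)) (0.1564358435885) (0.1564358436754) :=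
  (In.div e121 e122 (by norm_num) (by norm_num)).mono (by norm_num) (by norm_num)

theorem δ_6 : In δ (0.1564358435885) (0.1564358436754) := by
  rw [δ_eq]
  exact e123

theorem e124 : In (((2) : ℝ) * y1) (2.0486742879956) (2.048674288445) :=
  (In.mul (In.const ((2))) y1_5 (by norm_num) (by norm_num)).mono (by norm_num) (by norm_num)

theorem e125 : In ((((2) : ℝ) * y1) + ((1) : ℝ)) (3.0486742879956) (3.048674288445) :=
  (In.add e124 (In.const ((1)))).mono (by norm_num) (by norm_num)

theorem e126 : In (x3 / ((((2) : ℝ) * y1) + ((1) : ℝ))) (0.2793052554999) (0.2793052555866) :=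
  (In.div x3_6 e125 (by norm_num) (by norm_num)).mono (by norm_num) (by norm_num)

theorem e127 : In (((2) : ℝ) * φ) (3.2360679774997) (3.2360679774998) :=
  (In.mul (In.const ((2))) iφ' (by norm_num) (by norm_num)).mono (by norm_num) (by norm_num)

theorem e128 : In ((((2) : ℝ) * φ) * (x3 / ((((2) : ℝ) * y1) + ((1) : ℝ)))) (0.9038507932705) (0.9038507935512) :=
  (In.mul e127 e126 (by norm_num) (by norm_num)).mono (by norm_num) (by norm_num)

theorem e129 : In (((1) : ℝ) - ((((2) : ℝ) * φ) * (x3 / ((((2) : ℝ) * y1) + ((1) : ℝ))))) (0.0961492064488) (0.0961492067295) :=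
  (In.sub (In.const ((1))) e128).mono (by norm_num) (by norm_num)

theorem e130 : In (δ * φ) (0.2531185119849) (0.2531185121256) :=
  (In.mul δ_6 iφ' (by norm_num) (by norm_num)).mono (by norm_num) (by norm_num)

theorem e131 : In ((δ * φ) * (((1) : ℝ) - ((((2) : ℝ) * φ) * (x3 / ((((2) : ℝ) * y1) + ((1) : ℝ)))))) (0.0243371440648) (0.0243371441495) :=
  (In.mul e130 e129 (by norm_num) (by norm_num)).mono (by norm_num) (by norm_num)

theorem e132 : In (((1) : ℝ) + ((δ * φ) * (((1) : ℝ) - ((((2) : ℝ) * φ) * (x3 / ((((2) : ℝ) * y1) + ((1) : ℝ))))))) (1.0243371440648) (1.0243371441495) :=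
  (In.add (In.const ((1))) e131).mono (by norm_num) (by norm_num)

theorem y1_6 : In y1 (1.0243371440648) (1.0243371441495) := by
  rw [y1_eq]
  exact e132

theorem e133 : In (y1 - (1 / 2 : ℝ)) (0.5243371440648) (0.5243371441495) :=
  (In.sub y1_6 (In.const (1 / 2))).mono (by norm_num) (by norm_num)

theorem e134 : In ((y1 - (1 / 2 : ℝ)) ^ 2) (0.274929440646) (0.2749294407349) :=
  (In.sq e133 (by norm_num)).mono (by norm_num) (by norm_num)

theorem e135 : In (((1) : ℝ) - ((y1 - (1 / 2 : ℝ)) ^ 2)) (0.7250705592651) (0.725070559354) :=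
  (In.sub (In.const ((1))) e134).mono (by norm_num) (by norm_num)

theorem e136 : In (√(((1) : ℝ) - ((y1 - (1 / 2 : ℝ)) ^ 2))) (0.8515107511153) (0.8515107511676) :=
  In.sqrt e135 (by norm_num) (by norm_num) (by norm_num) (by norm_num)

theorem i_x3 : In x3 (0.8515107511153) (0.8515107511676) := by
  rw [x3_eq]
  exact e136

theorem e137 : In (y1 + ((1) : ℝ)) (2.0243371440648) (2.0243371441495) :=
  (In.add y1_6 (In.const ((1)))).mono (by norm_num) (by norm_num)

theorem e138 : In (φ * (y1 + ((1) : ℝ))) (3.2754463037856) (3.2754463039228) :=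
  (In.mul iφ' e137 (by norm_num) (by norm_num)).mono (by norm_num) (by norm_num)

theorem i_z1 : In z1 (3.2754463037856) (3.2754463039228) := e138

theorem e139 : In (y1 ^ 2) (1.0492665847108) (1.0492665848844) :=
  (In.sq y1_6 (by norm_num)).mono (by norm_num) (by norm_num)

theorem e140 : In (z1 ^ 2) (10.7285484889827) (10.7285484898816) :=
  (In.sq i_z1 (by norm_num)).mono (by norm_num) (by norm_num)

theorem e141 : In ((y1 ^ 2) + (z1 ^ 2)) (11.7778150736935) (11.777815074766) :=
  (In.add e139 e140).mono (by norm_num) (by norm_num)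

theorem e142 : In (√((y1 ^ 2) + (z1 ^ 2))) (3.4318821474073) (3.4318821475637) :=
  In.sqrt e141 (by norm_num) (by norm_num) (by norm_num) (by norm_num)

theorem i_t1 : In t1 (3.4318821474073) (3.4318821475637) := by
  rw [t1_eq]
  exact e142

theorem e143 : In (y1 ^ 2) (1.0492665847108) (1.0492665848844) :=
  (In.sq y1_6 (by norm_num)).mono (by norm_num) (by norm_num)

theorem e144 : In (z1 + t1) (6.7073284511929) (6.7073284514865) :=
  (In.add i_z1 i_t1).mono (by norm_num) (by norm_num)

theorem e145 : In ((y1 ^ 2) / (z1 + t1)) (0.1564358436149) (0.1564358436477) :=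
  (In.div e143 e144 (by norm_num) (by norm_num)).mono (by norm_num) (by norm_num)

theorem i_δ : In δ (0.1564358436149) (0.1564358436477) := by
  rw [δ_eq]
  exact e145

theorem e146 : In (((2) : ℝ) * δ) (0.3128716872298) (0.3128716872954) :=
  (In.mul (In.const ((2))) i_δ (by norm_num) (by norm_num)).mono (by norm_num) (by norm_num)

theorem e147 : In (((1) : ℝ) / (((2) : ℝ) * δ)) (3.1961984436637) (3.1961984443339) :=
  (In.div (In.const ((1))) e146 (by norm_num) (by norm_num)).mono (by norm_num) (by norm_num)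

theorem i_t2 : In t2 (3.1961984436637) (3.1961984443339) := by
  unfold t2
  exact e147

theorem e148 : In (φ ^ 2) (2.6180339887497) (2.61803398875) :=
  (In.sq iφ' (by norm_num)).mono (by norm_num) (by norm_num)

theorem e149 : In ((φ ^ 2) * x3) (2.2292840882056) (2.2292840883429) :=
  (In.mul e148 i_x3 (by norm_num) (by norm_num)).mono (by norm_num) (by norm_num)

theorem e150 : In (φ / ((2) : ℝ)) (0.8090169943749) (0.809016994375) :=
  (In.div iφ' (In.const ((2))) (by norm_num) (by norm_num)).mono (by norm_num) (by norm_num)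

theorem e151 : In (((φ ^ 2) * x3) + (φ / ((2) : ℝ))) (3.0383010825805) (3.0383010827179) :=
  (In.add e149 e150).mono (by norm_num) (by norm_num)

theorem i_z3 : In z3 (3.0383010825805) (3.0383010827179) := by
  unfold z3
  exact e151

theorem e152 : In (z3 + δ) (3.1947369261954) (3.1947369263656) :=
  (In.add i_z3 i_δ).mono (by norm_num) (by norm_num)

theorem i_t3 : In t3 (3.1947369261954) (3.1947369263656) := by
  unfold t3
  exact e152

theorem e153 : In (((5) : ℝ) - (√5)) (2.7639320225002) (2.7639320225003) :=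
  (In.sub (In.const ((5))) s5).mono (by norm_num) (by norm_num)

theorem e154 : In ((((5) : ℝ) - (√5)) / ((10) : ℝ)) (0.27639320225) (0.2763932022501) :=
  (In.div e153 (In.const ((10))) (by norm_num) (by norm_num)).mono (by norm_num) (by norm_num)

theorem i_kk : In kk (0.27639320225) (0.2763932022501) := by
  unfold kk
  exact e154

theorem e155 : In (((1) : ℝ) + (φ ^ 2)) (3.6180339887497) (3.61803398875) :=
  (In.add (In.const ((1))) e148).mono (by norm_num) (by norm_num)

theorem e156 : In (√(((1) : ℝ) + (φ ^ 2))) (1.9021130325902) (1.9021130325904) :=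
  In.sqrt e155 (by norm_num) (by norm_num) (by norm_num) (by norm_num)

theorem e157 : In (φ * z1) (5.2997834478501) (5.2997834480724) :=
  (In.mul iφ' i_z1 (by norm_num) (by norm_num)).mono (by norm_num) (by norm_num)

theorem e158 : In (y1 + (φ * z1)) (6.3241205919149) (6.3241205922219) :=
  (In.add y1_6 e157).mono (by norm_num) (by norm_num)

theorem e159 : In ((y1 + (φ * z1)) / (√(((1) : ℝ) + (φ ^ 2)))) (3.3247869519627) (3.3247869521246) :=
  (In.div e158 e156 (by norm_num) (by norm_num)).mono (by norm_num) (by norm_num)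

theorem i_ys : In ys (3.3247869519627) (3.3247869521246) := by
  unfold ys
  exact e159

theorem e160 : In (ys + t1) (6.75666909937) (6.7566690996883) :=
  (In.add i_ys i_t1).mono (by norm_num) (by norm_num)

theorem e161 : In ((ys + t1) / ((2) : ℝ)) (3.378334549685) (3.3783345498442) :=
  (In.div e160 (In.const ((2))) (by norm_num) (by norm_num)).mono (by norm_num) (by norm_num)

theorem i_ν : In ν (3.378334549685) (3.3783345498442) := by
  unfold ν
  exact e161

theorem e162 : In (((4) : ℝ) * kk) (1.105572809) (1.1055728090004) :=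
  (In.mul (In.const ((4))) i_kk (by norm_num) (by norm_num)).mono (by norm_num) (by norm_num)

theorem e163 : In ((((4) : ℝ) * kk) - ((1) : ℝ)) (0.105572809) (0.1055728090004) :=
  (In.sub e162 (In.const ((1)))).mono (by norm_num) (by norm_num)

theorem e164 : In (√((((4) : ℝ) * kk) - ((1) : ℝ))) (0.3249196962327) (0.3249196962334) :=
  In.sqrt e163 (by norm_num) (by norm_num) (by norm_num) (by norm_num)

theorem e165 : In (((1) : ℝ) + (√((((4) : ℝ) * kk) - ((1) : ℝ)))) (1.3249196962327) (1.3249196962334) :=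
  (In.add (In.const ((1))) e164).mono (by norm_num) (by norm_num)

theorem i_b3 : In b3 (1.3249196962327) (1.3249196962334) := by
  unfold b3
  exact e165

theorem e166 : In (b3 ^ 2) (1.7554122014653) (1.7554122014673) :=
  (In.sq i_b3 (by norm_num)).mono (by norm_num) (by norm_num)

theorem e167 : In (kk - (b3 ^ 2)) (-1.4790189992173) (-1.4790189992152) :=
  (In.sub i_kk e166).mono (by norm_num) (by norm_num)

theorem e168 : In (((4) : ℝ) * ν) (13.51333819874) (13.5133381993768) :=
  (In.mul (In.const ((4))) i_ν (by norm_num) (by norm_num)).mono (by norm_num) (by norm_num)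

theorem e169 : In ((kk - (b3 ^ 2)) / (((4) : ℝ) * ν)) (-0.1094488258538) (-0.1094488258484) :=
  (In.divn e167 e168 (by norm_num) (by norm_num)).mono (by norm_num) (by norm_num)

theorem e170 : In (ys + ν) (6.7031215016477) (6.7031215019688) :=
  (In.add i_ys i_ν).mono (by norm_num) (by norm_num)

theorem e171 : In ((ys + ν) + ((kk - (b3 ^ 2)) / (((4) : ℝ) * ν))) (6.5936726757939) (6.5936726761204) :=
  (In.add e170 e169).mono (by norm_num) (by norm_num)

theorem i_s3 : In s3 (6.5936726757939) (6.5936726761204) := by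
  unfold s3
  exact e171

theorem e172 : In (t1 + ν) (6.8102166970923) (6.8102166974079) :=
  (In.add i_t1 i_ν).mono (by norm_num) (by norm_num)

theorem e173 : In ((t1 + ν) - ((kk - (b3 ^ 2)) / (((4) : ℝ) * ν))) (6.9196655229407) (6.9196655232617) :=
  (In.sub e172 e169).mono (by norm_num) (by norm_num)

theorem i_ta3 : In ta3 (6.9196655229407) (6.9196655232617) := by
  unfold ta3
  exact e173

theorem e174 : In (b3 ^ 2) (1.7554122014653) (1.7554122014673) :=
  (In.sq i_b3 (by norm_num)).mono (by norm_num) (by norm_num)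

theorem e175 : In ((b3 ^ 2) - kk) (1.4790189992152) (1.4790189992173) :=
  (In.sub e174 i_kk).mono (by norm_num) (by norm_num)

theorem e176 : In (((2) : ℝ) * kk) (0.5527864045) (0.5527864045002) :=
  (In.mul (In.const ((2))) i_kk (by norm_num) (by norm_num)).mono (by norm_num) (by norm_num)

theorem e177 : In (((1) : ℝ) - (((2) : ℝ) * kk)) (0.4472135954998) (0.4472135955) :=
  (In.sub (In.const ((1))) e176).mono (by norm_num) (by norm_num)

theorem e178 : In ((((1) : ℝ) - (((2) : ℝ) * kk)) ^ 2) (0.1999999999998) (0.2000000000001) :=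
  (In.sq e177 (by norm_num)).mono (by norm_num) (by norm_num)

theorem e179 : In (((4) : ℝ) * kk) (1.105572809) (1.1055728090004) :=
  (In.mul (In.const ((4))) i_kk (by norm_num) (by norm_num)).mono (by norm_num) (by norm_num)

theorem e180 : In ((((4) : ℝ) * kk) * ((b3 ^ 2) - kk)) (1.6351631895267) (1.6351631895297) :=
  (In.mul e179 e175 (by norm_num) (by norm_num)).mono (by norm_num) (by norm_num)

theorem e181 : In (((((1) : ℝ) - (((2) : ℝ) * kk)) ^ 2) + ((((4) : ℝ) * kk) * ((b3 ^ 2) - kk))) (1.8351631895265) (1.8351631895298) :=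
  (In.add e178 e180).mono (by norm_num) (by norm_num)

theorem e182 : In (√(((((1) : ℝ) - (((2) : ℝ) * kk)) ^ 2) + ((((4) : ℝ) * kk) * ((b3 ^ 2) - kk)))) (1.3546819514286) (1.3546819514299) :=
  In.sqrt e181 (by norm_num) (by norm_num) (by norm_num) (by norm_num)

theorem e183 : In ((((1) : ℝ) - (((2) : ℝ) * kk)) + (√(((((1) : ℝ) - (((2) : ℝ) * kk)) ^ 2) + ((((4) : ℝ) * kk) * ((b3 ^ 2) - kk))))) (1.8018955469284) (1.8018955469299) :=
  (In.add e177 e182).mono (by norm_num) (by norm_num)

theorem e184 : In (((2) : ℝ) * ((b3 ^ 2) - kk)) (2.9580379984304) (2.9580379984346) :=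
  (In.mul (In.const ((2))) e175 (by norm_num) (by norm_num)).mono (by norm_num) (by norm_num)

theorem e185 : In (((((1) : ℝ) - (((2) : ℝ) * kk)) + (√(((((1) : ℝ) - (((2) : ℝ) * kk)) ^ 2) + ((((4) : ℝ) * kk) * ((b3 ^ 2) - kk))))) / (((2) : ℝ) * ((b3 ^ 2) - kk))) (0.6091522650763) (0.6091522650778) :=
  (In.div e183 e184 (by norm_num) (by norm_num)).mono (by norm_num) (by norm_num)

theorem i_A2 : In A2 (0.6091522650763) (0.6091522650778) := by
  unfold A2
  exact e185

theorem e186 : In (((4) : ℝ) * ν) (13.51333819874) (13.5133381993768) :=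
  (In.mul (In.const ((4))) i_ν (by norm_num) (by norm_num)).mono (by norm_num) (by norm_num)

theorem e187 : In ((((4) : ℝ) * ν) * A2) (8.2316805725045) (8.2316805729128) :=
  (In.mul e186 i_A2 (by norm_num) (by norm_num)).mono (by norm_num) (by norm_num)

theorem e188 : In (kk / ((((4) : ℝ) * ν) * A2)) (0.0335767647689) (0.0335767647707) :=
  (In.div i_kk e187 (by norm_num) (by norm_num)).mono (by norm_num) (by norm_num)

theorem e189 : In (A2 * ν) (2.0579201431261) (2.0579201432282) :=
  (In.mul i_A2 i_ν (by norm_num) (by norm_num)).mono (by norm_num) (by norm_num)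

theorem e190 : In (ys + (A2 * ν)) (5.3827070950888) (5.3827070953528) :=
  (In.add i_ys e189).mono (by norm_num) (by norm_num)

theorem e191 : In ((ys + (A2 * ν)) + (kk / ((((4) : ℝ) * ν) * A2))) (5.4162838598577) (5.4162838601235) :=
  (In.add e190 e188).mono (by norm_num) (by norm_num)

theorem i_s2 : In s2 (5.4162838598577) (5.4162838601235) := by
  unfold s2
  exact e191

theorem e192 : In (A2 * ν) (2.0579201431261) (2.0579201432282) :=
  (In.mul i_A2 i_ν (by norm_num) (by norm_num)).mono (by norm_num) (by norm_num)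

theorem e193 : In (t1 + (A2 * ν)) (5.4898022905334) (5.4898022907919) :=
  (In.add i_t1 e192).mono (by norm_num) (by norm_num)

theorem e194 : In ((t1 + (A2 * ν)) - (kk / ((((4) : ℝ) * ν) * A2))) (5.4562255257627) (5.456225526023) :=
  (In.sub e193 e188).mono (by norm_num) (by norm_num)

theorem i_ta2 : In ta2 (5.4562255257627) (5.456225526023) := by
  unfold ta2
  exact e194

theorem e195 : In (((1) : ℝ) / (√(((1) : ℝ) + (φ ^ 2)))) (0.5257311121191) (0.5257311121192) :=
  (In.div (In.const ((1))) e156 (by norm_num) (by norm_num)).mono (by norm_num) (by norm_num)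

theorem i_ξ1 : In (√(1 + φ ^ 2))⁻¹ (0.5257311121191) (0.5257311121192) := by
  rw [← one_div]
  exact e195

theorem e196 : In (((√(1 + φ ^ 2))⁻¹) * φ) (0.8506508083519) (0.8506508083522) :=
  (In.mul i_ξ1 iφ' (by norm_num) (by norm_num)).mono (by norm_num) (by norm_num)

theorem i_ξ2 : In ((√(1 + φ ^ 2))⁻¹ * φ) (0.8506508083519) (0.8506508083522) := e196

theorem e197 : In (s2 * ((√(1 + φ ^ 2))⁻¹)) (2.8475089371957) (2.8475089373361) :=
  (In.mul i_s2 i_ξ1 (by norm_num) (by norm_num)).mono (by norm_num) (by norm_num)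

theorem i_a21 : In (s2 * ((√(1 + φ ^ 2))⁻¹)) (2.8475089371957) (2.8475089373361) := e197

theorem e198 : In (s2 * ((√(1 + φ ^ 2))⁻¹ * φ)) (4.6073662436513) (4.6073662438791) :=
  (In.mul i_s2 i_ξ2 (by norm_num) (by norm_num)).mono (by norm_num) (by norm_num)

theorem i_a22 : In (s2 * ((√(1 + φ ^ 2))⁻¹ * φ)) (4.6073662436513) (4.6073662438791) := e198

theorem e199 : In (s3 * ((√(1 + φ ^ 2))⁻¹)) (3.4664988687944) (3.4664988689668) :=
  (In.mul i_s3 i_ξ1 (by norm_num) (by norm_num)).mono (by norm_num) (by norm_num)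

theorem i_a31 : In (s3 * ((√(1 + φ ^ 2))⁻¹)) (3.4664988687944) (3.4664988689668) := e199

theorem e200 : In (s3 * ((√(1 + φ ^ 2))⁻¹ * φ)) (5.6089129916719) (5.6089129919517) :=
  (In.mul i_s3 i_ξ2 (by norm_num) (by norm_num)).mono (by norm_num) (by norm_num)

theorem i_a32 : In (s3 * ((√(1 + φ ^ 2))⁻¹ * φ)) (5.6089129916719) (5.6089129919517) := e200

theorem e201 : In (φ / ((2) : ℝ)) (0.8090169943749) (0.809016994375) :=
  (In.div iφ' (In.const ((2))) (by norm_num) (by norm_num)).mono (by norm_num) (by norm_num)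

theorem i_p2 : In (φ / ((2) : ℝ)) (0.8090169943749) (0.809016994375) := e201

theorem e202 : In (y1 + (1 / 2 : ℝ)) (1.5243371440648) (1.5243371441495) :=
  (In.add y1_6 (In.const (1 / 2))).mono (by norm_num) (by norm_num)

theorem i_m31y : In (y1 + (1 / 2 : ℝ)) (1.5243371440648) (1.5243371441495) := e202

theorem e203 : In (φ - ((1) : ℝ)) (0.6180339887498) (0.6180339887499) :=
  (In.sub iφ' (In.const ((1)))).mono (by norm_num) (by norm_num)

theorem e204 : In ((φ - ((1) : ℝ)) / ((2) : ℝ)) (0.3090169943749) (0.309016994375) :=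
  (In.div e203 (In.const ((2))) (by norm_num) (by norm_num)).mono (by norm_num) (by norm_num)

theorem i_pm : In ((φ - ((1) : ℝ)) / ((2) : ℝ)) (0.3090169943749) (0.309016994375) := e204

theorem e205 : In (z1 - ((φ - ((1) : ℝ)) / ((2) : ℝ))) (2.9664293094106) (2.9664293095479) :=
  (In.sub i_z1 i_pm).mono (by norm_num) (by norm_num)

theorem i_m31z : In (z1 - ((φ - ((1) : ℝ)) / ((2) : ℝ))) (2.9664293094106) (2.9664293095479) := e205

end Encl

end Kus64
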