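import Pool.Agent.helper45.Kus3.TestDef

/-!
# The deformation theorem (proved by helper45 in `TestDef`)
-/
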