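import Pool.Agent.helper14.Kus3.First1

/-!
# First and second variation of one film
-/

open Set Metric MeasureTheory
open scoped ContDiff Topology

namespace Kusner

/-- The integrand of the first variation on the three-sphere. -/
noncomputable def psiF (χ : E3 → ℝ) (a b p : E3) (w0 wt : ℝ) (wv : E3) (Y : E4) : ℝ :=
  1 / (1 - inner ℝ p (vec Y)) ^ 2 * -inner ℝ (P.nst a b p w0 wt wv Y)
    (fderiv ℝ (fieldX χ) (st a b p Y) (P.nst a b p w0 wt wv Y))

end Kusner

namespace Kusner.P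

/-- **The second variation of one film.** -/
theorem film_second1 {a b p : E3} (hF : Frame a b p) {χ : E3 → ℝ} (hχ : ContDiff ℝ ∞ χ)
    {U : Set E3} (hU : IsOpen U) (hone : ∀ x ∈ U, χ x = 1) {φ : ℝ → E3 → E3}
    (hφ : IsDeformation φ) {ε : ℝ}
    (hM : ∀ x, HasDerivAt (fun t => fderiv ℝ (φ t) x) (ε • fderiv ℝ (fieldX χ) x) 0)
    (hW : ∀ x, HasDerivAt (fun t => deriv (fun s => fderiv ℝ (φ s) x) t)
      (ε ^ 2 • fderiv ℝ (accX χ) x) 0)
    {w0 wt : ℝ} {wv : E3} (hw : w0 ^ 2 + ‖wv‖ ^ 2 - wt ^ 2 = 1) (hwv : wv ≠ 0)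
    {S : Set E4} (hS : MeasurableSet S) (hS1 : ∀ Y ∈ S, ‖Y‖ = 1)
    (hS2 : ∀ Y ∈ S, w0 * Y 0 + inner ℝ wv (vec Y) = wt)
    (hSp : ∀ Y ∈ S, inner ℝ p (vec Y) ≠ 1)
    (hSb : Bornology.IsBounded (st a b p '' S)) (hSU : ∀ Y ∈ S, st a b p Y ∈ U) :
    Second1 (fun t => (μH[2] (φ t '' (st a b p '' S))).toReal)
      (ε * ∫ Y in S, psiF χ a b p w0 wt wv Y ∂μH[2])
      (ε ^ 2 * ∫ Y in S, psi (Y 0) (w0 - wt * Y 0) (inner ℝ p (vec Y))
        (inner ℝ p (nvec wv wt Y)) ∂μH[2]) := by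
  obtain ⟨a', b', u, hF', hu⟩ := exists_film_frame hwv
  set Wn := ‖wv‖ with hWd
  have hWn : 0 < Wn := norm_pos_iff.mpr hwv
  have hS2' : ∀ Y ∈ S, w0 * Y 0 + inner ℝ (Wn • u) (vec Y) = wt := by
    intro Y hY; rw [← hu]; exact hS2 Y hY
  set f := filmY w0 wt Wn a' b' u with hf
  set s := filmS w0 wt Wn a' b' u S with hs
  set V : Set (ℝ × ℝ) := filmU w0 wt Wn ∩ {x | inner ℝ p (vec (f x)) ≠ (1 : ℝ)} with hV
  have hfc : Continuous f := continuous_filmY w0 wt Wn a' b' u
  have hVo : IsOpen V := by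
    refine (isOpen_filmU w0 wt Wn).inter ?_
    exact isOpen_ne_fun ((continuous_const.inner (continuous_vec.comp hfc))) continuous_const
  have hsm : MeasurableSet s := measurableSet_filmS w0 wt Wn a' b' u hS
  have hsV : s ⊆ V := fun x hx => ⟨hx.1.1, hSp _ hx.2⟩
  have hψ : ContDiffOn ℝ 1 (fun x => st a b p (f x)) V :=
    (contDiffOn_st a b p).comp ((contDiffOn_filmY w0 wt Wn a' b' u).mono inter_subset_left)
      fun x hx => hx.2
  have hfd : ∀ x ∈ V, ∀ v, fderiv ℝ (fun x => st a b p (f x)) x v =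
      dst a b p (f x) (fderiv ℝ f x v) := by
    intro x hx v
    have h1 : DifferentiableAt ℝ f x :=
      ((contDiffOn_filmY w0 wt Wn a' b' u).contDiffAt
        ((isOpen_filmU w0 wt Wn).mem_nhds hx.1)).differentiableAt one_ne_zero
    have h2 : HasFDerivAt (fun x => st a b p (f x)) ((dst a b p (f x)).comp (fderiv ℝ f x)) x :=
      (hasFDerivAt_st (a := a) (b := b) hx.2).comp x h1.hasFDerivAt
    rw [h2.fderiv]
    rfl
  have hjac : ∀ x ∈ V, jac (fderiv ℝ (fun x => st a b p (f x)) x (1, 0))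
      (fderiv ℝ (fun x => st a b p (f x)) x (0, 1)) =
      1 / Wn / (1 - inner ℝ p (vec (f x))) ^ 2 := by
    intro x hx
    rw [hfd x hx, hfd x hx, jac_dst hF (norm_filmY hF' (le_of_lt hx.1)) hx.2
      (tangent_one hF' hx.1) (tangent_two hF' hx.1), jac_filmY hWn hw hF' hx.1]
  have hj : ∀ x ∈ V, 0 < jac (fderiv ℝ (fun x => st a b p (f x)) x (1, 0))
      (fderiv ℝ (fun x => st a b p (f x)) x (0, 1)) := by
    intro x hx
    rw [hjac x hx]
    have h0 : (1 : ℝ) - inner ℝ p (vec (f x)) ≠ 0 := sub_ne_zero.mpr (Ne.symm hx.2)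
    positivity
  have hinj : InjOn (fun x => st a b p (f x)) s := by
    intro x hx y hy hxy
    have h1 : f x = f y :=
      injOn_st hF ⟨norm_filmY hF' (le_of_lt hx.1.1), hSp _ hx.2⟩
        ⟨norm_filmY hF' (le_of_lt hy.1.1), hSp _ hy.2⟩ hxy
    exact injOn_filmY hF' hx.1 hy.1 h1
  have himg : (fun x => st a b p (f x)) '' s ⊆ st a b p '' S := by
    rintro _ ⟨x, hx, rfl⟩
    exact ⟨f x, hx.2, rfl⟩
  have hb : Bornology.IsBounded ((fun x => st a b p (f x)) '' s) := hSb.subset himg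
  have hi : IntegrableOn (fun x => jac (fderiv ℝ (fun x => st a b p (f x)) x (1, 0))
      (fderiv ℝ (fun x => st a b p (f x)) x (0, 1))) s := by
    obtain ⟨R, hR⟩ := hSb.exists_norm_le
    have hfin : volume s < ⊤ :=
      lt_of_le_of_lt (measure_mono (show s ⊆ filmD w0 wt Wn from inter_subset_left))
        (volume_filmD_lt w0 wt Wn)
    have h1 : IntegrableOn (fun x => 1 / Wn / (1 - inner ℝ p (vec (f x))) ^ 2) s := by
      have hfi : IsFiniteMeasure (volume.restrict s) := ⟨by simpa using hfin⟩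
      refine Integrable.of_bound (C := 1 / Wn * ((1 + R ^ 2) / 2) ^ 2) ?_ ?_
      · have hco : ContinuousOn (fun x : ℝ × ℝ => 1 / Wn / (1 - inner ℝ p (vec (f x))) ^ 2) V := by
          refine continuousOn_const.div ?_ ?_
          · exact ((continuous_const.sub
              (continuous_const.inner (continuous_vec.comp hfc))).pow 2).continuousOn
          · intro x hx
            have h0 : (1 : ℝ) - inner ℝ p (vec (f x)) ≠ 0 := sub_ne_zero.mpr (Ne.symm hx.2)
            positivity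
        exact (hco.mono hsV).aestronglyMeasurable hsm
      · refine (ae_restrict_iff' hsm).mpr (Filter.Eventually.of_forall fun x hx => ?_)
        have hxV := hsV hx
        have h0 : (1 : ℝ) - inner ℝ p (vec (f x)) ≠ 0 := sub_ne_zero.mpr (Ne.symm hxV.2)
        have hn := norm_st hF (norm_filmY hF' (le_of_lt hxV.1)) hxV.2
        have hR1 : ‖st a b p (f x)‖ ≤ R := hR _ ⟨f x, hx.2, rfl⟩
        have hR2 : ‖st a b p (f x)‖ ^ 2 ≤ R ^ 2 :=
          pow_le_pow_left₀ (norm_nonneg _) hR1 2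
        have h3 : (2 : ℝ) / (1 - inner ℝ p (vec (f x))) ≤ 1 + R ^ 2 := by
          rw [← hn]; linarith
        have h3' : (0 : ℝ) ≤ 2 / (1 - inner ℝ p (vec (f x))) := by
          rw [← hn]; positivity
        have h4 : (1 / (1 - inner ℝ p (vec (f x)))) ^ 2 ≤ ((1 + R ^ 2) / 2) ^ 2 := by
          have e1 : (1 : ℝ) / (1 - inner ℝ p (vec (f x))) =
            (2 / (1 - inner ℝ p (vec (f x)))) / 2 := by field_simp
          rw [e1]
          exact pow_le_pow_left₀ (by linarith) (by linarith) 2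
        rw [Real.norm_eq_abs, abs_of_nonneg (by positivity)]
        have e2 : (1 : ℝ) / Wn / (1 - inner ℝ p (vec (f x))) ^ 2 =
            1 / Wn * (1 / (1 - inner ℝ p (vec (f x)))) ^ 2 := by
          field_simp
        rw [e2]
        exact mul_le_mul_of_nonneg_left h4 (by positivity)
    exact h1.congr_fun (fun x hx => (hjac x (hsV hx)).symm) hsm
  -- the unit normal
  have hnn : ∀ x ∈ s, ‖nst a b p w0 wt wv (f x)‖ = 1 ∧
      inner ℝ (nst a b p w0 wt wv (f x)) (fderiv ℝ (fun x => st a b p (f x)) x (1, 0)) = 0 ∧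
      inner ℝ (nst a b p w0 wt wv (f x)) (fderiv ℝ (fun x => st a b p (f x)) x (0, 1)) = 0 := by
    intro x hx
    have hxV := hsV hx
    have h0 : (1 : ℝ) - inner ℝ p (vec (f x)) ≠ 0 := sub_ne_zero.mpr (Ne.symm hxV.2)
    have hn1 : ‖f x‖ = 1 := norm_filmY hF' (le_of_lt hxV.1)
    have hfx : (inner ℝ (f x) (f x) : ℝ) = 1 := by rw [real_inner_self_eq_norm_sq, hn1]; norm_num
    have hY2 := hS2 _ hx.2
    have hYN : (inner ℝ (f x) (nrm w0 wt wv (f x)) : ℝ) = 0 := by
      rw [real_inner_comm, inner_nrm, hfx]; linarith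
    have hN1 : (inner ℝ (nrm w0 wt wv (f x)) (fderiv ℝ f x (1, 0)) : ℝ) = 0 := by
      rw [inner_nrm, hu, film_der_one hWn.ne' hF' hxV.1, tangent_one hF' hxV.1]; ring
    have hN2 : (inner ℝ (nrm w0 wt wv (f x)) (fderiv ℝ f x (0, 1)) : ℝ) = 0 := by
      rw [inner_nrm, hu, film_der_two hF' hxV.1, tangent_two hF' hxV.1]; ring
    refine ⟨?_, ?_, ?_⟩
    · have h1 : ‖nst a b p w0 wt wv (f x)‖ ^ 2 = 1 := by
        rw [← real_inner_self_eq_norm_sq, nst, real_inner_smul_left, real_inner_smul_right,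
          inner_dst hF hn1 hxV.2 hYN hYN, inner_nrm_self hw hn1 hY2]
        field_simp
      nlinarith [norm_nonneg (nst a b p w0 wt wv (f x))]
    · rw [hfd x hxV, nst, real_inner_smul_left, inner_dst hF hn1 hxV.2 hYN
        (tangent_one hF' hxV.1), hN1]
      simp
    · rw [hfd x hxV, nst, real_inner_smul_left, inner_dst hF hn1 hxV.2 hYN
        (tangent_two hF' hxV.1), hN2]
      simp
  have htM : ∀ x, LinearMap.trace ℝ E3 (ε • fderiv ℝ (fieldX χ) x).toLinearMap = 0 := by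
    intro x
    rw [trace_smul_clm, fieldX_div hχ, mul_zero]
  have htW : ∀ x, LinearMap.trace ℝ E3 (ε ^ 2 • fderiv ℝ (accX χ) x).toLinearMap =
      LinearMap.trace ℝ E3 ((ε • fderiv ℝ (fieldX χ) x).comp
        (ε • fderiv ℝ (fieldX χ) x)).toLinearMap := by
    intro x
    rw [trace_smul_clm, trace_comp_smul]
    congr 1
    exact trace_acc (fieldX_contDiff hχ) (fieldX_div hχ) x
  have hmain := _root_.Kusner.V.area_second1 hφ hM hW htM htW hVo hψ hj hsm hsV hinj hb hi hnn
  -- identify the function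
  have hfun : (fun t => (μH[2] (φ t '' (st a b p '' S))).toReal) =
      fun t => (μH[2] (φ t '' ((fun x => st a b p (f x)) '' s))).toReal := by
    funext t
    congr 1
    have hS' := film_eq_union hWn hF' hS1 hS2'
    have h1 : φ t '' (st a b p '' S) = φ t '' ((fun x => st a b p (f x)) '' s) ∪
        φ t '' (st a b p '' (S ∩ filmE w0 wt Wn u)) := by
      conv_lhs => rw [hS']
      rw [image_union, image_union, ← image_comp (st a b p) (filmY w0 wt Wn a' b' u)]
      rfl
    rw [h1]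
    have hfin : (φ t '' (st a b p '' (S ∩ filmE w0 wt Wn u))).Finite :=
      (((finite_filmE w0 wt Wn u).subset inter_subset_right).image _).image _
    refine le_antisymm ((measure_union_le _ _).trans ?_) (measure_mono subset_union_left)
    rw [null_of_finite hfin, add_zero]
  rw [hfun]
  -- identify the value
  have hval : ε ^ 2 * ∫ Y in S, psi (Y 0) (w0 - wt * Y 0) (inner ℝ p (vec Y))
        (inner ℝ p (nvec wv wt Y)) ∂μH[2] =
      cH * ∫ x in s, jac (fderiv ℝ (fun x => st a b p (f x)) x (1, 0))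
        (fderiv ℝ (fun x => st a b p (f x)) x (0, 1)) *
        qform (ε • fderiv ℝ (fieldX χ) (st a b p (f x)))
          (ε ^ 2 • fderiv ℝ (accX χ) (st a b p (f x))) (nst a b p w0 wt wv (f x)) := by
    rw [film_integral hWn hw hF' hS hS1 hS2', mul_left_comm, ← integral_const_mul]
    congr 1
    refine setIntegral_congr_fun hsm fun x hx => ?_
    have hxV := hsV hx
    have h0 : (1 : ℝ) - inner ℝ p (vec (f x)) ≠ 0 := sub_ne_zero.mpr (Ne.symm hxV.2)
    have hn1 : ‖f x‖ = 1 := norm_filmY hF' (le_of_lt hxV.1)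
    simp only []
    rw [hjac x hxV, qform_smul, qform_fieldX hχ hU hone (hSU _ hx.2) (hnn x hx).1,
      om_st hF hn1 hxV.2, et_st hF hn1 hxV.2, inner_st_nst hF hn1 (hS2 _ hx.2) hxV.2,
      nst_two hxV.2]
    have e1 : w0 - wt * (f x) 0 + inner ℝ p (nvec wv wt (f x)) *
        ((f x) 0 / (1 - inner ℝ p (vec (f x)))) - (f x) 0 *
          (inner ℝ p (nvec wv wt (f x)) / (1 - inner ℝ p (vec (f x)))) = w0 - wt * (f x) 0 := by
      ring
    have e2 : (1 - inner ℝ p (vec (f x))) *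
        (inner ℝ p (nvec wv wt (f x)) / (1 - inner ℝ p (vec (f x)))) =
          inner ℝ p (nvec wv wt (f x)) := by
      field_simp
    rw [e1, e2, sub_sub_cancel]
    field_simp
    rfl
  have hval1 : ε * ∫ Y in S, psiF χ a b p w0 wt wv Y ∂μH[2] =
      cH * ∫ x in s, jac (fderiv ℝ (fun x => st a b p (f x)) x (1, 0))
        (fderiv ℝ (fun x => st a b p (f x)) x (0, 1)) *
        -inner ℝ (nst a b p w0 wt wv (f x)) ((ε • fderiv ℝ (fieldX χ) (st a b p (f x)))
          (nst a b p w0 wt wv (f x))) := by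
    rw [film_integral hWn hw hF' hS hS1 hS2', mul_left_comm, ← integral_const_mul]
    congr 1
    refine setIntegral_congr_fun hsm fun x hx => ?_
    have hxV := hsV hx
    have h0 : (1 : ℝ) - inner ℝ p (vec (f x)) ≠ 0 := sub_ne_zero.mpr (Ne.symm hxV.2)
    rw [hjac x hxV, psiF, ContinuousLinearMap.smul_apply, real_inner_smul_right]
    ring
  rw [hval, hval1]
  exact hmain

end Kusner.P
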