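import Pool.Agent.helper10.Kus3.F2b
import Pool.Agent.helper14.Kus3.Field

/-!
# First and second derivative of the area
-/

open Set Metric MeasureTheory
open scoped ContDiff Topology

namespace Kusner

/-- `A` is differentiable everywhere, `A'(0) = a1`, and `A'` has derivative `a2` at `0`. -/
def Second1 (A : ℝ → ℝ) (a1 a2 : ℝ) : Prop :=
  ∃ A' : ℝ → ℝ, (∀ t, HasDerivAt A (A' t) t) ∧ A' 0 = a1 ∧ HasDerivAt A' a2 0

namespace V

open F2b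

theorem first_gf0 {φ : ℝ → E3 → E3} (hφ : IsDeformation φ) {x n : E3} (hn : ‖n‖ = 1)
    {M : E3 →L[ℝ] E3} (hM : HasDerivAt (fun t => fderiv ℝ (φ t) x) M 0)
    (htM : LinearMap.trace ℝ E3 M.toLinearMap = 0) :
    fderiv ℝ (gf φ) (0, (x, n)) (1, 0) = -inner ℝ n (M n) := by
  have h0 : fderiv ℝ (φ 0) x = 1 := by
    have h0' : φ 0 = fun x => x := funext hφ.zero
    rw [h0']
    exact fderiv_fun_id
  have htM' : P.trL M = 0 := htM
  have e1 : P.dcofv 1 M n = -ContinuousLinearMap.adjoint M n := by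
    rw [P.dcofv_eq, P.one_comp_one, P.trL_one, P.adL_one, htM', one_apply_eq_self,
      one_apply_eq_self, P.adL_apply]
    module
  rw [first_gf hφ 0 x n hn, h0, hM.deriv, P.cofv_one, hn, e1, div_one, inner_neg_right,
    ContinuousLinearMap.adjoint_inner_right, real_inner_comm]

theorem area_second1 {φ : ℝ → E3 → E3} (hφ : IsDeformation φ) {M W : E3 → E3 →L[ℝ] E3}
    (hM : ∀ x, HasDerivAt (fun t => fderiv ℝ (φ t) x) (M x) 0)
    (hW : ∀ x, HasDerivAt (fun t => deriv (fun s => fderiv ℝ (φ s) x) t) (W x) 0)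
    (htM : ∀ x, LinearMap.trace ℝ E3 (M x).toLinearMap = 0)
    (htW : ∀ x, LinearMap.trace ℝ E3 (W x).toLinearMap =
      LinearMap.trace ℝ E3 ((M x).comp (M x)).toLinearMap)
    {ψ : ℝ × ℝ → E3} {U s : Set (ℝ × ℝ)} (hU : IsOpen U) (hψ : ContDiffOn ℝ 1 ψ U)
    (hj : ∀ u ∈ U, 0 < jac (fderiv ℝ ψ u (1, 0)) (fderiv ℝ ψ u (0, 1)))
    (hs : MeasurableSet s) (hsU : s ⊆ U) (hinj : InjOn ψ s)
    (hb : Bornology.IsBounded (ψ '' s))
    (hi : IntegrableOn (fun u => jac (fderiv ℝ ψ u (1, 0)) (fderiv ℝ ψ u (0, 1))) s)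
    {n : ℝ × ℝ → E3} (hn : ∀ u ∈ s, ‖n u‖ = 1 ∧ inner ℝ (n u) (fderiv ℝ ψ u (1, 0)) = 0 ∧
      inner ℝ (n u) (fderiv ℝ ψ u (0, 1)) = 0) :
    Second1 (fun t => (μH[2] (φ t '' (ψ '' s))).toReal)
      (cH * ∫ u in s, jac (fderiv ℝ ψ u (1, 0)) (fderiv ℝ ψ u (0, 1)) *
        -inner ℝ (n u) (M (ψ u) (n u)))
      (cH * ∫ u in s, jac (fderiv ℝ ψ u (1, 0)) (fderiv ℝ ψ u (0, 1)) *
        qform (M (ψ u)) (W (ψ u)) (n u)) := by
  have hO := isOpen_Of hφ.smooth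
  have hg := contDiffOn_gf hφ.smooth
  have hK : IsCompact (closure (ψ '' s) ×ˢ sphere (0 : E3) 1) :=
    hb.isCompact_closure.prod (isCompact_sphere 0 1)
  have hKO : ∀ t, ∀ y ∈ closure (ψ '' s) ×ˢ sphere (0 : E3) 1, (t, y) ∈ Of φ := fun t y hy =>
    mem_Of hφ t y.1 y.2 (mem_sphere_zero_iff_norm.1 hy.2)
  have hyK : ∀ u ∈ s, (ψ u, n u) ∈ closure (ψ '' s) ×ˢ sphere (0 : E3) 1 := fun u hu =>
    ⟨subset_closure ⟨u, hu, rfl⟩, mem_sphere_zero_iff_norm.2 (hn u hu).1⟩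
  have hy : ∀ᵐ u ∂(volume.restrict s), (ψ u, n u) ∈ closure (ψ '' s) ×ˢ sphere (0 : E3) 1 :=
    (ae_restrict_mem hs).mono hyK
  have hJ : ∀ t, ∀ u ∈ s, jac (fderiv ℝ (φ t ∘ ψ) u (1, 0)) (fderiv ℝ (φ t ∘ ψ) u (0, 1)) =
      jac (fderiv ℝ ψ u (1, 0)) (fderiv ℝ ψ u (0, 1)) * gf φ (t, (ψ u, n u)) :=
    fun t u hu => jac_c hφ hU hψ t (hsU hu) (hn u hu)
  have hm : ∀ t, AEStronglyMeasurable (fun u => jac (fderiv ℝ ψ u (1, 0)) (fderiv ℝ ψ u (0, 1)) *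
      gf φ (t, (ψ u, n u))) (volume.restrict s) := by
    intro t
    exact AEStronglyMeasurable.congr
      (((jac_c_cont hφ hU hψ t).mono hsU).aestronglyMeasurable hs)
      ((ae_restrict_mem hs).mono fun u hu => hJ t u hu)
  obtain ⟨hm1, hd1⟩ := param_deriv hO hg hK hKO hi hy hm
  obtain ⟨hm2, hd2⟩ := param_deriv hO (contDiffOn_slice hO hg) hK hKO hi hy hm1
  have harea : (fun t => (μH[2] (φ t '' (ψ '' s))).toReal) = fun t =>
      cH * ∫ u in s, jac (fderiv ℝ ψ u (1, 0)) (fderiv ℝ ψ u (0, 1)) *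
        gf φ (t, (ψ u, n u)) := by
    funext t
    rw [area_c hφ hU hψ hj hs hsU hinj t, setIntegral_congr_fun hs (hJ t)]
  rw [harea]
  refine ⟨_, fun t => (hd1 t).const_mul cH, ?_, ?_⟩
  · congr 1
    refine setIntegral_congr_fun hs fun u hu => ?_
    exact congrArg (fun z => jac (fderiv ℝ ψ u (1, 0)) (fderiv ℝ ψ u (0, 1)) * z)
      (first_gf0 hφ (hn u hu).1 (hM _) (htM _))
  have h3 := (hd2 0).const_mul cH
  have h4 : ∫ u in s, jac (fderiv ℝ ψ u (1, 0)) (fderiv ℝ ψ u (0, 1)) *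
        fderiv ℝ (fun p => fderiv ℝ (gf φ) p (1, 0)) (0, (ψ u, n u)) (1, 0) =
      ∫ u in s, jac (fderiv ℝ ψ u (1, 0)) (fderiv ℝ ψ u (0, 1)) *
        qform (M (ψ u)) (W (ψ u)) (n u) := by
    refine setIntegral_congr_fun hs fun u hu => ?_
    exact congrArg (fun z => jac (fderiv ℝ ψ u (1, 0)) (fderiv ℝ ψ u (0, 1)) * z)
      (second_gf hφ (hn u hu).1 (hM _) (hW _) (htM _) (htW _))
  rw [h4] at h3
  exact h3

end V

end Kusner
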