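import Pool.Agent.helper14.Kus3.FilmFirst

/-!
# The reflection `η ↦ -η` changes the sign of the first variation; finiteness of the areas
-/

open Set Metric MeasureTheory
open scoped ContDiff Topology

namespace Kusner

/-- The reflection of three-space in the plane `z = 0`. -/
noncomputable def fl (x : E3) : E3 := !₂[x 0, x 1, -x 2]

/-- The reflection of four-space. -/
noncomputable def flip4 (Y : E4) : E4 := !₂[-Y 0, Y 1, Y 2, Y 3]

namespace V

theorem fl0 (x : E3) : fl x 0 = x 0 := by simp [fl]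
theorem fl1 (x : E3) : fl x 1 = x 1 := by simp [fl]
theorem fl2 (x : E3) : fl x 2 = -x 2 := by simp [fl]

theorem ext3 {x y : E3} (h0 : x 0 = y 0) (h1 : x 1 = y 1) (h2 : x 2 = y 2) : x = y := by
  ext i
  fin_cases i
  · exact h0
  · exact h1
  · exact h2

theorem fl_fl (x : E3) : fl (fl x) = x := by
  apply ext3 <;> simp [fl0, fl1, fl2]

theorem fl_add (x y : E3) : fl (x + y) = fl x + fl y := by
  apply ext3 <;> simp [fl0, fl1, fl2]
  ring

theorem fl_smul (c : ℝ) (x : E3) : fl (c • x) = c • fl x := by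
  apply ext3 <;> simp [fl0, fl1, fl2]

theorem fl_neg (x : E3) : fl (-x) = -fl x := by
  apply ext3 <;> simp [fl0, fl1, fl2]

/-- The reflection as a continuous linear map. -/
noncomputable def flL : E3 →L[ℝ] E3 := LinearMap.toContinuousLinearMap
  { toFun := fl
    map_add' := fl_add
    map_smul' := fl_smul }

theorem flL_apply (x : E3) : flL x = fl x := rfl

theorem inner_fl (x y : E3) : inner ℝ (fl x) (fl y) = inner ℝ x y := by
  rw [P.inner_coord, P.inner_coord, fl0, fl1, fl2, fl0, fl1, fl2]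
  ring

theorem norm_fl (x : E3) : ‖fl x‖ = ‖x‖ := by
  have h : ‖fl x‖ ^ 2 = ‖x‖ ^ 2 := by
    rw [← real_inner_self_eq_norm_sq, ← real_inner_self_eq_norm_sq, inner_fl]
  have h1 := norm_nonneg (fl x)
  have h2 := norm_nonneg x
  nlinarith

theorem gfun_fl (x : E3) : gfun (fl x) = gfun x := by
  have h1 : om (fl x) = om x := by rw [om, om, norm_fl]
  have h2 : et (fl x) = -et x := by rw [et, et, h1, fl2]; ring
  rw [gfun, gfun, h1, h2]
  ring

theorem gfun_diff : Differentiable ℝ gfun :=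
  P.TF.gfun_contDiff.differentiable (by simp)

theorem fderiv_gfun_fl (x v : E3) : fderiv ℝ gfun (fl x) (fl v) = fderiv ℝ gfun x v := by
  have h1 : HasFDerivAt (fun y => gfun (flL y)) ((fderiv ℝ gfun (flL x)).comp flL) x :=
    (gfun_diff _).hasFDerivAt.comp x flL.hasFDerivAt
  have h2 : (fun y => gfun (flL y)) = gfun := funext fun y => gfun_fl y
  rw [h2] at h1
  rw [h1.fderiv]
  rfl

theorem cg_one : cg (fun _ => 1) = gfun := by
  funext x
  simp [cg]

theorem fieldX_one_fl (x : E3) :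
    fieldX (fun _ => 1) (fl x) = -fl (fieldX (fun _ => 1) x) := by
  have e0 : (EuclideanSpace.single 0 1 : E3) = fl (EuclideanSpace.single 0 1) := by
    apply ext3 <;> simp [fl0, fl1, fl2]
  have e1 : (EuclideanSpace.single 1 1 : E3) = fl (EuclideanSpace.single 1 1) := by
    apply ext3 <;> simp [fl0, fl1, fl2]
  have e2 : (EuclideanSpace.single 2 1 : E3) = -fl (EuclideanSpace.single 2 1) := by
    apply ext3 <;> simp [fl0, fl1, fl2]
  have h0 : fderiv ℝ gfun (fl x) (EuclideanSpace.single 0 1) =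
      fderiv ℝ gfun x (EuclideanSpace.single 0 1) := by
    conv_lhs => rw [e0]
    exact fderiv_gfun_fl x _
  have h1 : fderiv ℝ gfun (fl x) (EuclideanSpace.single 1 1) =
      fderiv ℝ gfun x (EuclideanSpace.single 1 1) := by
    conv_lhs => rw [e1]
    exact fderiv_gfun_fl x _
  have h2 : fderiv ℝ gfun (fl x) (EuclideanSpace.single 2 1) =
      -fderiv ℝ gfun x (EuclideanSpace.single 2 1) := by
    conv_lhs => rw [e2]
    rw [map_neg, fderiv_gfun_fl x _]
  unfold fieldX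
  rw [cg_one, h0, h1, h2, gfun_fl, fl0, fl1]
  apply ext3 <;> simp [fl0, fl1, fl2]

theorem fieldX_eq_one {χ : E3 → ℝ} {U : Set E3} (hU : IsOpen U) (hone : ∀ x ∈ U, χ x = 1)
    {x : E3} (hx : x ∈ U) : fieldX χ x = fieldX (fun _ => 1) x := by
  have h : cg χ =ᶠ[𝓝 x] cg (fun _ => 1) := by
    filter_upwards [hU.mem_nhds hx] with y hy
    simp [cg, hone y hy]
  have h1 := h.fderiv_eq (𝕜 := ℝ)
  have h2 := h.self_of_nhds
  unfold fieldX
  rw [h1, h2]

theorem fderiv_fieldX_fl {χ : E3 → ℝ} (hχ : ContDiff ℝ ∞ χ) {U : Set E3} (hU : IsOpen U)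
    (hone : ∀ x ∈ U, χ x = 1) (hUfl : ∀ x ∈ U, fl x ∈ U) {x : E3} (hx : x ∈ U) (v : E3) :
    fderiv ℝ (fieldX χ) (fl x) (fl v) = -fl (fderiv ℝ (fieldX χ) x v) := by
  have hd : Differentiable ℝ (fieldX χ) := (P.fieldX_contDiff hχ).differentiable (by simp)
  have h1 : HasFDerivAt (fun y => fieldX χ (flL y)) ((fderiv ℝ (fieldX χ) (flL x)).comp flL) x :=
    (hd _).hasFDerivAt.comp x flL.hasFDerivAt
  have h2 : HasFDerivAt (fun y => -flL (fieldX χ y)) (-(flL.comp (fderiv ℝ (fieldX χ) x))) x :=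
    (flL.hasFDerivAt.comp x (hd x).hasFDerivAt).neg
  have h3 : (fun y => fieldX χ (flL y)) =ᶠ[𝓝 x] fun y => -flL (fieldX χ y) := by
    filter_upwards [hU.mem_nhds hx] with y hy
    rw [flL_apply, flL_apply, fieldX_eq_one hU hone (hUfl y hy), fieldX_eq_one hU hone hy,
      fieldX_one_fl]
  have h4 := (h2.congr_of_eventuallyEq h3).unique h1
  have h5 := congrArg (fun L : E3 →L[ℝ] E3 => L v) h4
  exact h5.symm

/-! ### the three-sphere -/

theorem flip4_zero (Y : E4) : flip4 Y 0 = -Y 0 := by simp [flip4]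

theorem vec_flip4 (Y : E4) : vec (flip4 Y) = vec Y := by simp [vec, flip4]

theorem flip4_flip4 (Y : E4) : flip4 (flip4 Y) = Y :=
  P.vec_ext (by rw [flip4_zero, flip4_zero, neg_neg]) (by rw [vec_flip4, vec_flip4])

theorem norm_flip4 (Y : E4) : ‖flip4 Y‖ = ‖Y‖ := by
  have h : ‖flip4 Y‖ ^ 2 = ‖Y‖ ^ 2 := by
    rw [P.norm_sq_vec, P.norm_sq_vec, flip4_zero, vec_flip4]
    ring
  have h1 := norm_nonneg (flip4 Y)
  have h2 := norm_nonneg Y
  nlinarith

theorem flip4_sub (Y Z : E4) : flip4 Y - flip4 Z = flip4 (Y - Z) := by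
  ext i
  fin_cases i <;> simp [flip4]
  ring

theorem flip4_isometry : Isometry flip4 := by
  refine Isometry.of_dist_eq fun Y Z => ?_
  rw [dist_eq_norm, dist_eq_norm, flip4_sub, norm_flip4]

/-- The reflection as an isometry equivalence. -/
noncomputable def flipE : E4 ≃ᵢ E4 :=
  IsometryEquiv.mk' flip4 flip4 flip4_flip4 flip4_isometry

theorem flipE_apply (Y : E4) : flipE Y = flip4 Y := rfl

theorem integral_flip4 (S : Set E4) (h : E4 → ℝ) :
    ∫ Y in flip4 '' S, h Y ∂μH[2] = ∫ Y in S, h (flip4 Y) ∂μH[2] := by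
  have h1 : MeasurePreserving flipE μH[2] μH[2] :=
    IsometryEquiv.measurePreserving_hausdorffMeasure flipE 2
  have h2 := h1.setIntegral_image_emb flipE.toHomeomorph.measurableEmbedding h S
  exact h2

theorem st_flip4 (a b p : E3) (Y : E4) : st a b p (flip4 Y) = fl (st a b p Y) := by
  unfold st
  rw [vec_flip4, flip4_zero, fl_smul]
  congr 1

theorem nrm_flip4 (w0 wt : ℝ) (wv : E3) (Y : E4) :
    P.nrm (-w0) wt wv (flip4 Y) = flip4 (P.nrm w0 wt wv Y) := by
  apply P.vec_ext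
  · rw [P.nrm_zero, flip4_zero, flip4_zero, P.nrm_zero]
    ring
  · rw [P.vec_nrm, vec_flip4, P.vec_nrm, nvec, nvec, vec_flip4]

theorem perpL_flip4 (a b : E3) (Y : E4) : P.perpL a b (flip4 Y) = fl (P.perpL a b Y) := by
  rw [P.perpL_apply, P.perpL_apply, vec_flip4, flip4_zero]
  apply ext3 <;> simp [fl0, fl1, fl2]

theorem nst_flip4 {a b p : E3} {w0 wt : ℝ} {wv : E3} {Y : E4}
    (hp : inner ℝ p (vec Y) ≠ (1 : ℝ)) :
    P.nst a b p (-w0) wt wv (flip4 Y) = fl (P.nst a b p w0 wt wv Y) := by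
  rw [P.nst_eq (by rw [vec_flip4]; exact hp), P.nst_eq hp, fl_add, fl_smul, ← st_flip4,
    ← perpL_flip4, nrm_flip4]
  congr 2

theorem nst_neg {a b p : E3} {w0 wt : ℝ} {wv : E3} {Y : E4} :
    P.nst a b p (-w0) (-wt) (-wv) Y = -P.nst a b p w0 wt wv Y := by
  have h : P.nrm (-w0) (-wt) (-wv) Y = -P.nrm w0 wt wv Y := by
    apply P.vec_ext
    · rw [P.nrm_zero, PiLp.neg_apply, P.nrm_zero]
      ring
    · rw [P.vec_nrm]
      have : vec (-P.nrm w0 wt wv Y) = -vec (P.nrm w0 wt wv Y) := by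
        have := P.vec_smul (-1) (P.nrm w0 wt wv Y)
        simpa using this
      rw [this, P.vec_nrm, nvec, nvec]
      module
  rw [P.nst, P.nst, h, map_neg, smul_neg]

theorem psiF_neg (χ : E3 → ℝ) (a b p : E3) (w0 wt : ℝ) (wv : E3) (Y : E4) :
    psiF χ a b p (-w0) (-wt) (-wv) Y = psiF χ a b p w0 wt wv Y := by
  unfold psiF
  rw [nst_neg, map_neg, inner_neg_neg]

theorem psiF_flip {χ : E3 → ℝ} (hχ : ContDiff ℝ ∞ χ) {U : Set E3} (hU : IsOpen U)
    (hone : ∀ x ∈ U, χ x = 1) (hUfl : ∀ x ∈ U, fl x ∈ U) {a b p : E3} (w0 wt : ℝ) (wv : E3)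
    {Y : E4} (hp : inner ℝ p (vec Y) ≠ (1 : ℝ)) (hY : st a b p Y ∈ U) :
    psiF χ a b p (-w0) wt wv (flip4 Y) = -psiF χ a b p w0 wt wv Y := by
  unfold psiF
  rw [nst_flip4 hp, st_flip4, fderiv_fieldX_fl hχ hU hone hUfl hY, inner_neg_right, inner_fl,
    vec_flip4]
  ring

/-! ### finiteness -/

theorem hausdorff_image_lt_top {E F : Type*} [NormedAddCommGroup E] [NormedSpace ℝ E]
    [MeasurableSpace E] [BorelSpace E] [NormedAddCommGroup F] [NormedSpace ℝ F]
    [MeasurableSpace F] [BorelSpace F] {f : E → F} {K : Set E} (hK : IsCompact K)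
    (hf : ∀ x ∈ K, ContDiffAt ℝ 1 f x) (h : μH[2] K < ⊤) : μH[2] (f '' K) < ⊤ := by
  have key : ∀ t ⊆ K, (∃ C, LipschitzOnWith C f t) → μH[2] (f '' t) < ⊤ := by
    rintro t ht ⟨C, hC⟩
    refine lt_of_le_of_lt (hC.hausdorffMeasure_image_le (by norm_num)) ?_
    exact ENNReal.mul_lt_top (ENNReal.rpow_lt_top_of_nonneg (by norm_num) ENNReal.coe_ne_top)
      (lt_of_le_of_lt (measure_mono ht) h)
  refine hK.induction_on (p := fun t => μH[2] (f '' (t ∩ K)) < ⊤) ?_ ?_ ?_ ?_ |> fun h => by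
    simpa using h
  · simp
  · intro s t hst ht
    exact lt_of_le_of_lt (measure_mono (image_mono (inter_subset_inter_left K hst))) ht
  · intro s t hs ht
    rw [union_inter_distrib_right, image_union]
    exact lt_of_le_of_lt (measure_union_le _ _) (ENNReal.add_lt_top.2 ⟨hs, ht⟩)
  · intro x hx
    obtain ⟨C, t, ht, hC⟩ := (hf x hx).exists_lipschitzOnWith
    exact ⟨t, mem_nhdsWithin_of_mem_nhds ht,
      key _ inter_subset_right ⟨C, hC.mono inter_subset_left⟩⟩

theorem film_image_lt_top {a b p : E3} {φ : ℝ → E3 → E3} (hφ : IsDeformation φ) (t : ℝ)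
    {w0 wt : ℝ} {wv : E3} (hw : w0 ^ 2 + ‖wv‖ ^ 2 - wt ^ 2 = 1) (hwv : wv ≠ 0) {S : Set E4}
    (hS : IsCompact S) (hS1 : ∀ Y ∈ S, ‖Y‖ = 1)
    (hS2 : ∀ Y ∈ S, w0 * Y 0 + inner ℝ wv (vec Y) = wt)
    (hSp : ∀ Y ∈ S, inner ℝ p (vec Y) ≠ 1) :
    μH[2] (φ t '' (st a b p '' S)) < ⊤ := by
  rw [← image_comp]
  refine hausdorff_image_lt_top hS (fun Y hY => ?_) (P.film_lt_top hw hwv hS1 hS2)
  have h1 : ContDiffAt ℝ 1 (st a b p) Y := by
    have ho : IsOpen {Y : E4 | inner ℝ p (vec Y) ≠ (1 : ℝ)} :=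
      isOpen_ne_fun (continuous_const.inner P.continuous_vec) continuous_const
    exact (P.contDiffOn_st a b p).contDiffAt (ho.mem_nhds (hSp Y hY))
  exact ((F2b.contDiff_slice hφ.smooth t).of_le (by simp)).contDiffAt.comp Y h1

end V

end Kusner
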