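import Pool.Agent.helper14.Kus3.NumDefs

/-!
# Certificate for the film C220
-/

namespace Kusner.Num

/-- Film C220; constraints: C, C7, 310, 211, a3, a2, x, y, n3. -/
def fC220 : QFilm where
  w0 := 1
  wv := ⟨0, 0, (249703/78125)⟩
  wt := (249703/78125)
  a := ⟨1, 0, 0⟩
  b := ⟨0, 1, 0⟩
  cons := [
    ⟨(-1), ⟨0, 0, (-249703/78125)⟩, (-249703/78125)⟩,
    ⟨1, ⟨0, 0, (-249703/78125)⟩, (-390031/156250)⟩,
    ⟨0, ⟨0, (10243371/10000000), (792479/10000000)⟩, (2356837/10000000)⟩,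
    ⟨0, ⟨(2128777/2500000), (1/2), (-789487/5000000)⟩, (-2923/2000000)⟩,
    ⟨(13249197/10000000), ⟨0, (34664989/10000000), (4825429/2000000)⟩, (37234671/10000000)⟩,
    ⟨0, ⟨0, (28475089/10000000), (7055839/5000000)⟩, (22600271/10000000)⟩,
    ⟨0, ⟨(-1), 0, 0⟩, 0⟩,
    ⟨0, ⟨0, (-1), 0⟩, 0⟩,
    ⟨0, ⟨(809017/1000000), (1/2), (-309017/1000000)⟩, 0⟩]

def sC220 : List QStrip := [
  ⟨(7/20), (2/5), 0, 1, 5, []⟩,
  ⟨(2/5), (41/80), (1123/6250), (3417/12500), 3, [((-1), 8), ((-11/2500), 4), ((6937/10000), 3), (1, 0)]⟩,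
  ⟨(41/80), (1289/2500), (17529/100000), (18003/100000), 3, [((-1), 8), ((-11/2500), 4), ((1783/2500), 3), (1, 0)]⟩,
  ⟨(1289/2500), (1297/2500), (17057/100000), (3513/20000), 1, [((-1), 8), ((-11/2500), 4), ((1383/2000), 0), ((7787/10000), 3), (1, 0)]⟩,
  ⟨(1297/2500), (1301/2500), (16813/100000), (8547/50000), 1, [((-1), 8), ((-11/2500), 4), ((6793/10000), 0), ((8343/10000), 3), (1, 0)]⟩,
  ⟨(1301/2500), (5219/10000), (16581/100000), (16851/100000), 1, [((-1), 8), ((-11/2500), 4), ((6667/10000), 0), ((2339/2500), 3), (1, 0)]⟩,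
  ⟨(5219/10000), (21/40), (4021/25000), (16619/100000), 1, [((-1), 8), ((-11/2500), 4), ((1593/2500), 0), (1, 0)]⟩,
  ⟨(21/40), (5281/10000), (3891/25000), (16123/100000), 1, [((-1), 8), ((-11/2500), 4), ((6037/10000), 0), (1, 0)]⟩,
  ⟨(5281/10000), (332/625), (15019/100000), (3901/25000), 1, [((-1), 8), ((-1/2500), 0), ((11/625), 4), ((2819/5000), 0), (1, 0)]⟩,
  ⟨(332/625), (334/625), (3607/25000), (15061/100000), 1, [((-1), 8), ((-1/2500), 0), ((573/10000), 4), ((5127/10000), 0), (1, 0)]⟩,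
  ⟨(334/625), (67/125), (353/2500), (1809/12500), 1, [((-1), 8), ((-1/2500), 0), ((41/500), 4), ((4819/10000), 0), (1, 0)]⟩,
  ⟨(67/125), (43/80), (13823/100000), (2833/20000), 1, [((-1), 8), ((-1/2500), 0), ((1117/10000), 4), ((4463/10000), 0), (1, 0)]⟩,
  ⟨(43/80), (539/1000), (6759/50000), (13869/100000), 1, [((-1), 8), ((-1/2500), 0), ((1517/10000), 4), ((1999/5000), 0), (1, 0)]⟩,
  ⟨(539/1000), (2699/5000), (1669/12500), (2713/20000), 1, [((-1), 8), ((-1/2500), 0), ((363/2000), 4), ((3667/10000), 0), ((16/25), 0), (1, 0)]⟩,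
  ⟨(2699/5000), (2703/5000), (13183/100000), (13399/100000), 1, [((-1), 8), ((-1/2500), 0), ((587/2500), 4), ((3097/10000), 0), ((3/5), 0), (1, 0)]⟩,
  ⟨(2703/5000), (2719/5000), (12479/100000), (13231/100000), 1, [((-1), 8), ((-1/2500), 0), ((41/100), 0), (1, 0)]⟩,
  ⟨(2719/5000), (11/20), (10957/100000), (12529/100000), 1, [((-1), 8), ((-1/2000), 0), ((41/100), 0), (1, 0)]⟩,
  ⟨(11/20), (9/16), (3377/50000), (5507/50000), 1, [((-1), 8), ((-7/10000), 0), ((41/100), 0), (1, 0)]⟩,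
  ⟨(9/16), (711/1250), (1303/50000), (1711/25000), 1, [((-1), 8), ((-1/625), 0), ((41/100), 0), (1, 0)]⟩,
  ⟨(711/1250), (356/625), (1341/100000), (707/25000), 1, [((-1), 8), ((-31/10000), 0), ((41/100), 0), (1, 0)]⟩,
  ⟨(356/625), (2849/5000), (37/5000), (1733/100000), 1, [((-1), 8), ((-11/2000), 0), ((41/100), 0), (1, 0)]⟩,
  ⟨(2849/5000), (5699/10000), 0, (331/25000), 1, [((-1), 0), ((-41/100), 0), (0, 0), ((41/100), 0), (1, 0)]⟩,
  ⟨(5699/10000), (57/100), 0, (1061/100000), 1, [((-1), 0), ((-41/100), 0), (0, 0), ((41/100), 0), (1, 0)]⟩,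
  ⟨(57/100), (5701/10000), 0, (353/50000), 1, [((-1), 0), ((-41/100), 0), (0, 0), ((41/100), 0), (1, 0)]⟩,
  ⟨(5701/10000), 1, 0, 1, 4, []⟩]

theorem okC220 : pieceOK fC220 (1/1000000) (4/100000) (1/50) (7/20) 1 sC220 (319609/100000) (31963/10000) (4693/20000) = true := by
  decide +kernel

end Kusner.Num
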