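import Pool.Agent.helper14.Kus3.NumDefs

/-!
# Certificate for the film Ca3
-/

namespace Kusner.Num

/-- Film Ca3; constraints: C, C7, 310, 220, 211, a2, x, y, n3. -/
def fCa3 : QFilm where
  w0 := (23249197/10000000)
  wv := ⟨0, (34664989/10000000), (5608913/1000000)⟩
  wt := (13839331/2000000)
  a := ⟨1, 0, 0⟩
  b := ⟨0, (-2126627/2500000), (5257311/10000000)⟩
  cons := [
    ⟨(-23249197/10000000), ⟨0, (-34664989/10000000), (-5608913/1000000)⟩, (-13839331/2000000)⟩,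
    ⟨(-3249197/10000000), ⟨0, (-34664989/10000000), (-5608913/1000000)⟩, (-12439331/2000000)⟩,
    ⟨(-13249197/10000000), ⟨0, (-24421617/10000000), (-23334667/10000000)⟩, (-17438917/5000000)⟩,
    ⟨(-13249197/10000000), ⟨0, (-34664989/10000000), (-4825429/2000000)⟩, (-37234671/10000000)⟩,
    ⟨(-13249197/10000000), ⟨(2128777/2500000), (-29664989/10000000), (-25706119/10000000)⟩, (-18624643/5000000)⟩,
    ⟨(-13249197/10000000), ⟨0, (-6189899/10000000), (-10015467/10000000)⟩, (-18293/12500)⟩,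
    ⟨0, ⟨(-1), 0, 0⟩, 0⟩,
    ⟨0, ⟨0, (-1), 0⟩, 0⟩,
    ⟨0, ⟨(809017/1000000), (1/2), (-309017/1000000)⟩, 0⟩]

def sCa3 : List QStrip := [
  ⟨(7/20), (2297/5000), (73/2000), (177/1250), 3, [((-1), 9), ((63/125), 3), (1, 0)]⟩,
  ⟨(2297/5000), (461/1000), (1467/50000), (3813/100000), 1, [((-1), 9), ((5077/10000), 0), ((383/625), 3), (1, 0)]⟩,
  ⟨(461/1000), (2307/5000), (681/25000), (1567/50000), 1, [((-1), 9), ((1269/2500), 0), ((303/400), 3), (1, 0)]⟩,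
  ⟨(2307/5000), (2309/5000), (78/3125), (1469/50000), 1, [((-1), 9), ((2537/5000), 0), (1, 0)]⟩,
  ⟨(2309/5000), (37/80), (2033/100000), (2727/100000), 1, [((-1), 9), ((5069/10000), 0), (1, 0)]⟩,
  ⟨(37/80), (579/1250), (57/4000), (289/12500), 1, [((-1), 9), ((5059/10000), 0), (1, 0)]⟩,
  ⟨(579/1250), (1159/2500), (907/100000), (1799/100000), 1, [((-1), 9), ((5039/10000), 0), (1, 0)]⟩,
  ⟨(1159/2500), (2319/5000), (467/100000), (89/6250), 1, [((-1), 9), ((4987/10000), 0), (1, 0)]⟩,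
  ⟨(2319/5000), (4639/10000), 0, (1193/100000), 1, [((-1), 0), ((-41/100), 0), (0, 0), ((41/100), 0), (1, 0)]⟩,
  ⟨(4639/10000), (58/125), 0, (529/50000), 1, [((-1), 0), ((-41/100), 0), (0, 0), ((41/100), 0), (1, 0)]⟩,
  ⟨(58/125), (4641/10000), 0, (903/100000), 1, [((-1), 0), ((-41/100), 0), (0, 0), ((41/100), 0), (1, 0)]⟩,
  ⟨(4641/10000), (2321/5000), 0, (143/20000), 1, [((-1), 0), ((-41/100), 0), (0, 0), ((41/100), 0), (1, 0)]⟩,
  ⟨(2321/5000), (4643/10000), 0, (91/20000), 1, [((-1), 0), ((-41/100), 0), (0, 0), ((41/100), 0), (1, 0)]⟩,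
  ⟨(4643/10000), (11/20), 0, 1, 4, []⟩,
  ⟨(11/20), (3/5), 0, 1, 5, []⟩,
  ⟨(3/5), 1, 0, 1, 4, []⟩]

theorem okCa3 : pieceOK fCa3 (1/1000000) (4/100000) (1/50) (7/20) 1 sCa3 (659357/100000) (329689/50000) (751/100000) = true := by
  decide +kernel

end Kusner.Num
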