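import Pool.Agent.helper14.Kus3.NumDefs

/-!
# Certificate for the film 211-211
-/

namespace Kusner.Num

/-- Film 211-211; constraints: C, C7, 310, 220, a3, a2, x, n3. -/
def fM211 : QFilm where
  w0 := 0
  wv := ⟨0, 1, 0⟩
  wt := 0
  a := ⟨0, 0, 1⟩
  b := ⟨1, 0, 0⟩
  cons := [
    ⟨(-1), ⟨(-2128777/2500000), (-1/2), (-30383011/10000000)⟩, (-31947369/10000000)⟩,
    ⟨1, ⟨(-2128777/2500000), (-1/2), (-30383011/10000000)⟩, (-24947369/10000000)⟩,
    ⟨0, ⟨(-2128777/2500000), (5243371/10000000), (592863/2500000)⟩, (592863/2500000)⟩,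
    ⟨0, ⟨(-2128777/2500000), (-1/2), (789487/5000000)⟩, (2923/2000000)⟩,
    ⟨(13249197/10000000), ⟨(-2128777/2500000), (29664989/10000000), (25706119/10000000)⟩, (18624643/5000000)⟩,
    ⟨0, ⟨(-2128777/2500000), (23475089/10000000), (3922663/2500000)⟩, (11307443/5000000)⟩,
    ⟨0, ⟨(-1), 0, 0⟩, 0⟩,
    ⟨0, ⟨(809017/1000000), (1/2), (-309017/1000000)⟩, 0⟩]

def sM211 : List QStrip := [
  ⟨0, (1/10), (12437/12500), (20001/20000), 0, [((57/625), 0), ((1843/10000), 0)]⟩,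
  ⟨(1/10), (1/5), (97977/100000), (6219/6250), 0, [((57/625), 0), ((1843/10000), 0)]⟩,
  ⟨(1/5), (3/10), (95391/100000), (19597/20000), 0, [((57/625), 0), ((1843/10000), 0)]⟩,
  ⟨(3/10), (7/20), (11709/12500), (477/500), 0, [((57/625), 0), ((1843/10000), 0)]⟩,
  ⟨(7/20), (2/5), (91649/100000), (93681/100000), 0, [((57/625), 0), ((1843/10000), 0)]⟩,
  ⟨(2/5), (9/20), (893/1000), (91657/100000), 0, [((57/625), 0), ((1843/10000), 0)]⟩,
  ⟨(9/20), (19/40), (21999/25000), (89309/100000), 2, [((-1), 4), ((227/2500), 0), ((923/5000), 8), (1, 0)]⟩,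
  ⟨(19/40), (1/2), (433/500), (17601/20000), 1, [((-1), 4), ((227/2500), 0), ((923/5000), 8), (1, 0)]⟩,
  ⟨(1/2), (21/40), (85107/100000), (86609/100000), 1, [((-1), 4), ((227/2500), 0), ((923/5000), 8), (1, 0)]⟩,
  ⟨(21/40), (269/500), (21073/25000), (21279/25000), 1, [((-1), 4), ((227/2500), 0), ((923/5000), 8), (1, 0)]⟩,
  ⟨(269/500), (68/125), (41953/50000), (84301/100000), 1, [((-1), 4), ((437/5000), 1), ((473/5000), 0), ((1807/10000), 1), ((1853/10000), 8), (1, 0)]⟩,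
  ⟨(68/125), (11/20), (41757/50000), (16783/20000), 1, [((-1), 4), ((437/5000), 1), ((1099/10000), 0), ((102/625), 1), ((859/5000), 1), ((2171/10000), 8), (1, 0)]⟩,
  ⟨(11/20), (139/250), (16623/20000), (83523/100000), 3, [((-1), 4), ((437/5000), 1), ((1853/10000), 8), (1, 0)]⟩,
  ⟨(139/250), (281/500), (82711/100000), (133/160), 3, [((-1), 4), ((437/5000), 1), ((2171/10000), 8), (1, 0)]⟩,
  ⟨(281/500), (23/40), (20453/25000), (517/625), 3, [((-1), 4), ((437/5000), 1), ((2171/10000), 8), (1, 0)]⟩,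
  ⟨(23/40), (3/5), (79997/100000), (40911/50000), 3, [((-1), 4), ((437/5000), 1), ((577/2500), 8), (1, 0)]⟩,
  ⟨(3/5), (13/20), (7599/10000), (40003/50000), 3, [((-1), 4), ((437/5000), 1), ((2493/10000), 8), (1, 0)]⟩,
  ⟨(13/20), (7/10), (71411/100000), (19/25), 3, [((-1), 4), ((437/5000), 1), ((3989/10000), 1), (1, 0)]⟩,
  ⟨(7/10), (9/10), (1362/3125), (71421/100000), 3, [((-1), 4), ((437/5000), 1), ((3057/10000), 8), (1, 0)]⟩,
  ⟨(9/10), 1, 0, (109/250), 3, [((-1), 1), ((131/2500), 1), (1, 0)]⟩]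

theorem okM211 : pieceOK fM211 (1/1000000) (4/100000) (1/50) 0 1 sM211 (9999/10000) (10001/10000) (-30913/100000) = true := by
  decide +kernel

end Kusner.Num
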