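import Pool.Agent.helper14.Kus3.NumDefs

/-!
# Certificate for the film 310-220
-/

namespace Kusner.Num

/-- Film 310-220; constraints: C, C7, 211, a3, a2, x, y, n3. -/
def fW320 : QFilm where
  w0 := 0
  wv := ⟨0, (10243371/10000000), (792479/10000000)⟩
  wt := (2356837/10000000)
  a := ⟨0, (-154269/2000000), (9970207/10000000)⟩
  b := ⟨1, 0, 0⟩
  cons := [
    ⟨(-1), ⟨0, (-10243371/10000000), (-32754463/10000000)⟩, (-34318821/10000000)⟩,
    ⟨1, ⟨0, (-10243371/10000000), (-32754463/10000000)⟩, (-27318821/10000000)⟩,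
    ⟨0, ⟨(2128777/2500000), (-5243371/10000000), (-592863/2500000)⟩, (-592863/2500000)⟩,
    ⟨(13249197/10000000), ⟨0, (24421617/10000000), (23334667/10000000)⟩, (17438917/5000000)⟩,
    ⟨0, ⟨0, (9115859/5000000), (13319199/10000000)⟩, (10121717/5000000)⟩,
    ⟨0, ⟨(-1), 0, 0⟩, 0⟩,
    ⟨0, ⟨0, (-1), 0⟩, 0⟩,
    ⟨0, ⟨(809017/1000000), (1/2), (-309017/1000000)⟩, 0⟩]

def sW320 : List QStrip := [
  ⟨0, (1/10), (6051/6250), (97339/100000), 0, [((1/10000), 0), ((23/500), 0)]⟩,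
  ⟨(1/10), (1/5), (47627/50000), (12103/12500), 0, [((1/10000), 0), ((449/10000), 0)]⟩,
  ⟨(1/5), (1/4), (18813/20000), (47631/50000), 0, [((1/10000), 0), ((11/250), 0)]⟩,
  ⟨(1/4), (3/10), (5787/6250), (47037/50000), 0, [((1/10000), 0), ((429/10000), 0)]⟩,
  ⟨(3/10), (7/20), (4541/5000), (463/500), 0, [((1/10000), 0), ((83/2000), 0)]⟩,
  ⟨(7/20), (2/5), (88731/100000), (90829/100000), 0, [((1/10000), 0), ((199/5000), 0)]⟩,
  ⟨(2/5), (9/20), (86303/100000), (4437/5000), 0, [((1/10000), 0), ((189/5000), 0)]⟩,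
  ⟨(9/20), (19/40), (84953/100000), (10789/12500), 2, [((-1), 6), ((-1/10000), 0), ((381/10000), 3), ((109/2500), 3), ((247/1000), 3), ((563/1250), 1), (1, 0)]⟩,
  ⟨(19/40), (1/2), (41753/50000), (42481/50000), 1, [((-1), 6), ((-1/10000), 0), ((369/10000), 3), ((109/2500), 3), ((671/2500), 3), ((4931/10000), 1), (1, 0)]⟩,
  ⟨(1/2), (64/125), (10347/12500), (16703/20000), 1, [((-1), 6), ((-1/10000), 0), ((71/2000), 3), ((109/2500), 3), ((363/1250), 3), ((5373/10000), 1), (1, 0)]⟩,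
  ⟨(64/125), (21/40), (81957/100000), (16557/20000), 1, [((-1), 6), ((-1/10000), 0), ((87/2500), 3), ((49/1250), 3), ((107/500), 3), ((243/625), 1), (1, 0)]⟩,
  ⟨(21/40), (66/125), (16353/20000), (81967/100000), 1, [((-1), 6), ((-1/10000), 0), ((53/5000), 1), ((87/5000), 1), ((109/2500), 3), ((5773/10000), 1), (1, 0)]⟩,
  ⟨(66/125), (133/250), (16301/20000), (40887/50000), 3, [((-1), 6), ((-11/2500), 1), ((61/2000), 1), ((503/5000), 3), (1, 0)]⟩,
  ⟨(133/250), (269/500), (8111/10000), (40757/50000), 3, [((-1), 6), ((-11/2500), 1), ((6/125), 3), ((1833/2500), 1), (1, 0)]⟩,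
  ⟨(269/500), (11/20), (80301/100000), (81119/100000), 3, [((-1), 6), ((-11/2500), 1), ((131/2500), 3), ((8769/10000), 1), (1, 0)]⟩,
  ⟨(11/20), (23/40), (7853/10000), (80311/100000), 3, [((-1), 6), ((-11/2500), 1), ((567/10000), 3), (1, 0)]⟩,
  ⟨(23/40), (3/5), (76637/100000), (3927/5000), 3, [((-1), 6), ((-11/2500), 1), ((407/2500), 3), (1, 0)]⟩,
  ⟨(3/5), (13/20), (14489/20000), (76647/100000), 3, [((-1), 6), ((-11/2500), 1), ((949/5000), 3), (1, 0)]⟩,
  ⟨(13/20), (4/5), (55437/100000), (14491/20000), 3, [((-1), 6), ((-11/2500), 1), ((1583/10000), 3), (1, 0)]⟩,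
  ⟨(4/5), 1, 0, (1109/2000), 3, [((-1), 1), ((-77/500), 1), ((1041/2000), 1), (1, 0)]⟩]

theorem okW320 : pieceOK fW320 (1/1000000) (4/100000) (1/50) 0 1 sW320 (102729/100000) (411/400) (-14649/100000) = true := by
  decide +kernel

end Kusner.Num
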