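import Pool.Agent.helper14.Kus3.NumDefs

/-!
# Certificate for the film 310-a2
-/

namespace Kusner.Num

/-- Film 310-a2; constraints: C, C7, 220, 211, a3, x, y, n3. -/
def fW3a2 : QFilm where
  w0 := 0
  wv := ⟨0, (-9115859/5000000), (-13319199/10000000)⟩
  wt := (-10121717/5000000)
  a := ⟨1, 0, 0⟩
  b := ⟨0, (5899017/10000000), (-8074751/10000000)⟩
  cons := [
    ⟨(-1), ⟨0, (-10243371/10000000), (-32754463/10000000)⟩, (-34318821/10000000)⟩,
    ⟨1, ⟨0, (-10243371/10000000), (-32754463/10000000)⟩, (-27318821/10000000)⟩,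
    ⟨0, ⟨0, (-10243371/10000000), (-792479/10000000)⟩, (-2356837/10000000)⟩,
    ⟨0, ⟨(2128777/2500000), (-5243371/10000000), (-592863/2500000)⟩, (-592863/2500000)⟩,
    ⟨(13249197/10000000), ⟨0, (24421617/10000000), (23334667/10000000)⟩, (17438917/5000000)⟩,
    ⟨0, ⟨(-1), 0, 0⟩, 0⟩,
    ⟨0, ⟨0, (-1), 0⟩, 0⟩,
    ⟨0, ⟨(809017/1000000), (1/2), (-309017/1000000)⟩, 0⟩]

def sW3a2 : List QStrip := [
  ⟨0, (9/40), 0, 1, 5, []⟩,
  ⟨(9/40), (1/4), (36553/100000), (38161/100000), 2, [((-1), 0), ((-1213/1250), 8), ((-9573/10000), 8), ((-6249/10000), 8), ((751/1250), 2), (1, 0)]⟩,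
  ⟨(1/4), (3/10), (1303/4000), (9143/25000), 1, [((-1), 0), ((-1247/1250), 8), ((-9827/10000), 8), ((-6371/10000), 8), ((589/1000), 2), (1, 0)]⟩,
  ⟨(3/10), (1/2), 0, (6519/20000), 3, [((-1), 8), ((-3493/10000), 8), (1, 0)]⟩,
  ⟨(1/2), 1, 0, 1, 4, []⟩]

theorem okW3a2 : pieceOK fW3a2 (1/1000000) (4/100000) (1/50) 0 1 sW3a2 (14111/6250) (225797/100000) (39/100000) = true := by
  decide +kernel

end Kusner.Num
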