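import Pool.Agent.helper14.Kus3.NumDefs

/-!
# Certificate for the film 310-a3
-/

namespace Kusner.Num

/-- Film 310-a3; constraints: C, C7, 220, 211, a2, x, y, n3. -/
def fW3a3 : QFilm where
  w0 := (-13249197/10000000)
  wv := ⟨0, (-24421617/10000000), (-23334667/10000000)⟩
  wt := (-17438917/5000000)
  a := ⟨1, 0, 0⟩
  b := ⟨0, (6908339/10000000), (-1446027/2000000)⟩
  cons := [
    ⟨(-1), ⟨0, (-10243371/10000000), (-32754463/10000000)⟩, (-34318821/10000000)⟩,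
    ⟨1, ⟨0, (-10243371/10000000), (-32754463/10000000)⟩, (-27318821/10000000)⟩,
    ⟨0, ⟨0, (-10243371/10000000), (-792479/10000000)⟩, (-2356837/10000000)⟩,
    ⟨0, ⟨(2128777/2500000), (-5243371/10000000), (-592863/2500000)⟩, (-592863/2500000)⟩,
    ⟨0, ⟨0, (9115859/5000000), (13319199/10000000)⟩, (10121717/5000000)⟩,
    ⟨0, ⟨(-1), 0, 0⟩, 0⟩,
    ⟨0, ⟨0, (-1), 0⟩, 0⟩,
    ⟨0, ⟨(809017/1000000), (1/2), (-309017/1000000)⟩, 0⟩]

def sW3a3 : List QStrip := [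
  ⟨0, (1/5), 0, (15483/50000), 3, [((-1), 5), ((-543/2500), 5), (1, 0)]⟩,
  ⟨(1/5), (9/40), (696/3125), (967/4000), 3, [((-1), 5), ((-1809/10000), 5), (1, 0)]⟩,
  ⟨(9/40), (1/4), (23999/100000), (12747/50000), 2, [((-1), 0), ((-9679/10000), 8), ((-9573/10000), 8), ((-6557/10000), 8), ((5373/10000), 2), (1, 0)]⟩,
  ⟨(1/4), (17/40), 0, 1, 5, []⟩,
  ⟨(17/40), (219/500), 0, 1, 5, []⟩,
  ⟨(219/500), (9/20), (25419/100000), (12973/50000), 2, [((-1), 0), ((-2269/2500), 8), ((-4463/5000), 8), ((-2659/5000), 8), ((3501/5000), 1), (1, 0)]⟩,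
  ⟨(9/20), (231/500), (24841/100000), (5089/20000), 1, [((-1), 0), ((-9149/10000), 8), ((-1801/2000), 8), ((-5487/10000), 8), ((851/1250), 1), (1, 0)]⟩,
  ⟨(231/500), (19/40), (24121/100000), (24867/100000), 1, [((-1), 0), ((-1221/1250), 1), ((-9657/10000), 1), ((-2291/2500), 8), ((-1299/2000), 8), ((5317/10000), 1), (1, 0)]⟩,
  ⟨(19/40), (7/10), 0, (6037/25000), 3, [((-1), 1), ((-729/1250), 8), ((402/625), 1), (1, 0)]⟩,
  ⟨(7/10), 1, 0, 1, 4, []⟩]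

theorem okW3a3 : pieceOK fW3a3 (1/1000000) (4/100000) (1/50) 0 1 sW3a3 (67553/20000) (168893/50000) (127/100000) = true := by
  decide +kernel

end Kusner.Num
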