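import Pool.Agent.helper14.Kus3.Piece
import Pool.Agent.helper14.Kus3.Encl

/-!
# The table of sites with rational approximations
-/

open Set

namespace Kus64.NN

open Kusner (E4 vec Phi cH Perp)
open Kusner.Num Encl A2aux

theorem In.near {x a b : ℝ} {q δ : ℚ} (h : In x a b) (h1 : ((q - δ : ℚ) : ℝ) ≤ a)
    (h2 : b ≤ ((q + δ : ℚ) : ℝ)) : Near δ x q := by
  have h3 := h.1
  have h4 := h.2
  push_cast at h1 h2
  unfold Near
  rw [abs_le]
  constructor <;> linarith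

theorem near_self {δ : ℚ} (hδ : 0 ≤ δ) {x : ℝ} {q : ℚ} (h : x = q) : Near δ x q := by
  unfold Near
  rw [h, sub_self, abs_zero]
  exact_mod_cast hδ

theorem near_sub {δ : ℚ} {x y : ℝ} {p q : ℚ} (h : Near δ x p) (h' : Near δ y q) :
    Near (2 * δ) (x - y) (p - q) := by
  unfold Near at *
  rw [abs_le] at *
  push_cast
  constructor <;> linarith [h.1, h.2, h'.1, h'.2]

theorem near_trans {δ η : ℚ} {x : ℝ} {p q : ℚ} (h : Near δ x p) (h' : |p - q| ≤ η) :
    Near (δ + η) x q := by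
  have h2 : |(p : ℝ) - (q : ℝ)| ≤ (η : ℝ) := by exact_mod_cast h'
  unfold Near at *
  rw [abs_le] at *
  push_cast
  constructor <;> linarith [h.1, h.2, h2.1, h2.2]

/-- Rational site. -/
structure QSite where
  b : ℚ
  v : Q3
  t : ℚ

def NearS (δ : ℚ) (w : Site) (q : QSite) : Prop :=
  Near δ w.b q.b ∧ Near3 δ w.v q.v ∧ Near δ w.t q.t

def cmpQ (q q' : QSite) : QCon :=
  ⟨q'.b - q.b, ⟨q'.v.x - q.v.x, q'.v.y - q.v.y, q'.v.z - q.v.z⟩, q'.t - q.t⟩

theorem nearC_cmp {δ : ℚ} {w w' : Site} {q q' : QSite} (h : NearS δ w q) (h' : NearS δ w' q') :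
    NearC (2 * δ) (cmp w w') (cmpQ q q') := by
  obtain ⟨h1, ⟨h2, h3, h4⟩, h5⟩ := h
  obtain ⟨k1, ⟨k2, k3, k4⟩, k5⟩ := h'
  exact ⟨near_sub k1 h1, ⟨near_sub k2 h2, near_sub k3 h3, near_sub k4 h4⟩, near_sub k5 h5⟩

def qn (x y : ℚ) : Bool := decide (|x - y| ≤ 9 / 10000000)

def qnC (c c' : QCon) : Bool :=
  qn c.u0 c'.u0 && qn c.u.x c'.u.x && qn c.u.y c'.u.y && qn c.u.z c'.u.z && qn c.ut c'.ut

theorem near_mono {δ δ' : ℚ} (h : δ ≤ δ') {x : ℝ} {q : ℚ} (hx : Near δ x q) : Near δ' x q :=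
  le_trans hx (by exact_mod_cast h)

theorem near_qn {x : ℝ} {p q : ℚ} (h : Near (2 * (1 / 100000000)) x p) (h' : qn p q = true) :
    Near (1 / 1000000) x q :=
  near_mono (δ := 2 * (1 / 100000000) + 9 / 10000000) (by norm_num)
    (near_trans h (by simpa [qn] using h'))

theorem nearC_qn {c : Con} {p q : QCon} (h : NearC (2 * (1 / 100000000)) c p)
    (h' : qnC p q = true) : NearC (1 / 1000000) c q := by
  simp only [qnC, Bool.and_eq_true] at h'
  obtain ⟨⟨⟨⟨k1, k2⟩, k3⟩, k4⟩, k5⟩ := h'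
  obtain ⟨h1, ⟨h2, h3, h4⟩, h5⟩ := h
  exact ⟨near_qn h1 k1, ⟨near_qn h2 k2, near_qn h3 k3, near_qn h4 k4⟩, near_qn h5 k5⟩

def listOK : List QCon → List QCon → Bool
  | [], [] => true
  | a :: l, b :: l' => qnC a b && listOK l l'
  | _, _ => false

theorem near_list {R : List Con} {l l' : List QCon}
    (h : List.Forall₂ (NearC (2 * (1 / 100000000))) R l) (h' : listOK l l' = true) :
    List.Forall₂ (NearC (1 / 1000000)) R l' := by
  induction h generalizing l' with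
  | nil =>
    cases l' with
    | nil => exact .nil
    | cons => simp [listOK] at h'
  | cons h1 _ ih =>
    cases l' with
    | nil => simp [listOK] at h'
    | cons b l' =>
      simp only [listOK, Bool.and_eq_true] at h'
      exact .cons (nearC_qn h1 h'.1) (ih h'.2)

/-! ### The table -/

inductive Tag
  | C | C7 | c310 | c220 | c211 | a2 | a3 | m310 | m211

noncomputable def tab : Tag → Site
  | .C => wC
  | .C7 => wC7
  | .c310 => w310
  | .c220 => w220
  | .c211 => w211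
  | .a2 => wa2
  | .a3 => wa3
  | .m310 => w310.map (s 2)
  | .m211 => w211.map (s 1)

def tabQ : Tag → QSite
  | .C => ⟨-1, ⟨0, 0, 0⟩, 0⟩
  | .C7 => ⟨1, ⟨0, 0, 0⟩, 7 / 10⟩
  | .c310 => ⟨0, ⟨0, 10243371441 / 10000000000, 32754463039 / 10000000000⟩,
      34318821475 / 10000000000⟩
  | .c220 => ⟨0, ⟨0, 0, 31961984440 / 10000000000⟩, 31961984440 / 10000000000⟩
  | .c211 => ⟨0, ⟨8515107511 / 10000000000, 1 / 2, 30383010827 / 10000000000⟩,
      31947369263 / 10000000000⟩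
  | .a2 => ⟨0, ⟨0, 28475089376 / 10000000000, 46073662437 / 10000000000⟩,
      54562255259 / 10000000000⟩
  | .a3 => ⟨13249196962 / 10000000000, ⟨0, 34664988690 / 10000000000,
      56089129921 / 10000000000⟩, 69196655231 / 10000000000⟩
  | .m310 => ⟨0, ⟨8090169944 / 10000000000, 15243371441 / 10000000000,
      29664293095 / 10000000000⟩, 34318821475 / 10000000000⟩
  | .m211 => ⟨0, ⟨8515107511 / 10000000000, -1 / 2, 30383010827 / 10000000000⟩,
      31947369263 / 10000000000⟩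

theorem ξ_c0 : ξ 0 = 0 := by simp [ξ, ax5]

theorem ξ_c1 : ξ 1 = (√(1 + φ ^ 2))⁻¹ := by simp [ξ, ax5]

theorem ξ_c2 : ξ 2 = (√(1 + φ ^ 2))⁻¹ * φ := by simp [ξ, ax5]

theorem near_lit {x : ℝ} {q : ℚ} (h : x = q) : Near (1 / 100000000) x q :=
  near_self (by norm_num) h

theorem m310_v : (w310.map (s 2)).v = !₂[φ / 2, y1 + 1 / 2, z1 - (φ - 1) / 2] := by
  have h := φ_sq
  apply b1_ext3
  · show s 2 w310.v 0 = φ / 2
    rw [b1_s2_0]
    simp only [w310, z1]
    simp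
    ring
  · show s 2 w310.v 1 = y1 + 1 / 2
    rw [b1_s2_1]
    simp only [w310, z1]
    simp
    linear_combination (1 / 2) * (y1 + 1) * h
  · show s 2 w310.v 2 = z1 - (φ - 1) / 2
    rw [b1_s2_2]
    simp only [w310, z1]
    simp
    linear_combination (1 / 2) * (y1 + 1) * h

theorem m211_v : (w211.map (s 1)).v = !₂[x3, -(1 / 2), z3] := by
  show s 1 w211.v = _
  rw [b1_s1]
  simp [w211]

theorem tab_near (i : Tag) : NearS (1 / 100000000) (tab i) (tabQ i) := by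
  cases i
  · refine ⟨near_lit ?_, ⟨near_lit ?_, near_lit ?_, near_lit ?_⟩, near_lit ?_⟩ <;>
      simp [tab, tabQ, wC]
  · refine ⟨near_lit ?_, ⟨near_lit ?_, near_lit ?_, near_lit ?_⟩, near_lit ?_⟩ <;>
      simp [tab, tabQ, wC7]
  · refine ⟨near_lit ?_, ⟨near_lit ?_, In.near y1_6 ?_ ?_, In.near i_z1 ?_ ?_⟩,
      In.near i_t1 ?_ ?_⟩ <;> norm_num [tab, tabQ, w310]
  · refine ⟨near_lit ?_, ⟨near_lit ?_, near_lit ?_, In.near i_t2 ?_ ?_⟩,
      In.near i_t2 ?_ ?_⟩ <;> norm_num [tab, tabQ, w220]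
  · refine ⟨near_lit ?_, ⟨In.near i_x3 ?_ ?_, near_lit ?_, In.near i_z3 ?_ ?_⟩,
      In.near i_t3 ?_ ?_⟩ <;> norm_num [tab, tabQ, w211]
  · refine ⟨near_lit ?_, ⟨near_lit ?_, ?_, ?_⟩, In.near i_ta2 ?_ ?_⟩
    · norm_num [tab, tabQ, wa2]
    · norm_num [tab, tabQ, wa2, ξ_c0]
    · have e : (tab .a2).v 1 = s2 * (√(1 + φ ^ 2))⁻¹ := by
        show s2 * ξ 1 = _
        rw [ξ_c1]
      rw [e]
      exact In.near i_a21 (by norm_num [tabQ]) (by norm_num [tabQ])
    · have e : (tab .a2).v 2 = s2 * ((√(1 + φ ^ 2))⁻¹ * φ) := by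
        show s2 * ξ 2 = _
        rw [ξ_c2]
      rw [e]
      exact In.near i_a22 (by norm_num [tabQ]) (by norm_num [tabQ])
    · norm_num [tab, tabQ, wa2]
    · norm_num [tab, tabQ, wa2]
  · refine ⟨In.near i_b3 ?_ ?_, ⟨near_lit ?_, ?_, ?_⟩, In.near i_ta3 ?_ ?_⟩
    · norm_num [tab, tabQ, wa3]
    · norm_num [tab, tabQ, wa3]
    · norm_num [tab, tabQ, wa3, ξ_c0]
    · have e : (tab .a3).v 1 = s3 * (√(1 + φ ^ 2))⁻¹ := by
        show s3 * ξ 1 = _
        rw [ξ_c1]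
      rw [e]
      exact In.near i_a31 (by norm_num [tabQ]) (by norm_num [tabQ])
    · have e : (tab .a3).v 2 = s3 * ((√(1 + φ ^ 2))⁻¹ * φ) := by
        show s3 * ξ 2 = _
        rw [ξ_c2]
      rw [e]
      exact In.near i_a32 (by norm_num [tabQ]) (by norm_num [tabQ])
    · norm_num [tab, tabQ, wa3]
    · norm_num [tab, tabQ, wa3]
  · refine ⟨near_lit ?_, ?_, In.near i_t1 ?_ ?_⟩
    · norm_num [tab, tabQ, w310, Site.map]
    · show Near3 _ (w310.map (s 2)).v _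
      rw [m310_v]
      refine ⟨In.near i_p2 ?_ ?_, In.near i_m31y ?_ ?_, In.near i_m31z ?_ ?_⟩ <;> norm_num [tabQ]
    · norm_num [tab, tabQ, w310]
    · norm_num [tab, tabQ, w310]
  · refine ⟨near_lit ?_, ?_, In.near i_t3 ?_ ?_⟩
    · norm_num [tab, tabQ, w211, Site.map]
    · show Near3 _ (w211.map (s 1)).v _
      rw [m211_v]
      refine ⟨In.near i_x3 ?_ ?_, near_lit ?_, In.near i_z3 ?_ ?_⟩ <;> norm_num [tabQ]
    · norm_num [tab, tabQ, w211]
    · norm_num [tab, tabQ, w211]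

/-! ### Constraint lists -/

def mirQ : Fin 3 → QCon
  | 0 => ⟨0, ⟨-1, 0, 0⟩, 0⟩
  | 1 => ⟨0, ⟨0, -1, 0⟩, 0⟩
  | 2 => ⟨0, ⟨8090169944 / 10000000000, 1 / 2, -3090169944 / 10000000000⟩, 0⟩

theorem mir_near (m : Fin 3) : NearC (2 * (1 / 100000000)) (mir m) (mirQ m) := by
  fin_cases m
  · refine ⟨near_self ?_ ?_, ⟨near_self ?_ ?_, near_self ?_ ?_, near_self ?_ ?_⟩,
      near_self ?_ ?_⟩ <;> simp [mir, mirQ, b1_α00, b1_α01, b1_α02]
  · refine ⟨near_self ?_ ?_, ⟨near_self ?_ ?_, near_self ?_ ?_, near_self ?_ ?_⟩,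
      near_self ?_ ?_⟩ <;> simp [mir, mirQ, b1_α10, b1_α11, b1_α12]
  · refine ⟨near_self ?_ ?_, ⟨?_, near_self ?_ ?_, ?_⟩, near_self ?_ ?_⟩
    · norm_num
    · simp [mir, mirQ]
    · have e : (mir 2).u 0 = φ / 2 := by
        show -(α 2 0) = _
        rw [b1_α20]
        ring
      show Near _ ((mir 2).u 0) _
      rw [e]
      exact In.near i_p2 (by norm_num [mirQ]) (by norm_num [mirQ])
    · norm_num
    · show -(α 2 1) = _
      rw [b1_α21]
      norm_num [mirQ]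
    · have e : (mir 2).u 2 = -((φ - 1) / 2) := by
        show -(α 2 2) = _
        rw [b1_α22]
      show Near _ ((mir 2).u 2) _
      rw [e]
      exact In.near (In.neg i_pm) (by norm_num [mirQ]) (by norm_num [mirQ])
    · norm_num
    · simp [mir, mirQ]

def consQ (i : Tag) (L : List Tag) (M : List (Fin 3)) : List QCon :=
  cmpQ (tabQ i) (tabQ .C) :: cmpQ (tabQ i) (tabQ .C7) ::
    (L.map (fun t => cmpQ (tabQ i) (tabQ t)) ++ M.map mirQ)

theorem consR_near (i : Tag) (L : List Tag) (M : List (Fin 3)) :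
    List.Forall₂ (NearC (2 * (1 / 100000000))) (consR (tab i) (L.map tab) M) (consQ i L M) := by
  unfold consR consQ
  refine .cons (nearC_cmp (tab_near i) (tab_near .C))
    (.cons (nearC_cmp (tab_near i) (tab_near .C7)) (List.rel_append ?_ ?_))
  · rw [List.map_map, List.forall₂_map_left_iff, List.forall₂_map_right_iff, List.forall₂_same]
    intro t _
    exact nearC_cmp (tab_near i) (tab_near t)
  · rw [List.forall₂_map_left_iff, List.forall₂_map_right_iff, List.forall₂_same]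
    intro t _
    exact mir_near t

/-- The data of a wall. -/
def tabOK (i j : Tag) (L : List Tag) (M : List (Fin 3)) (f : QFilm) : Bool :=
  qnC (cmpQ (tabQ j) (tabQ i)) ⟨f.w0, f.wv, f.wt⟩ && listOK (consQ i L M) f.cons

theorem close_tab {i j : Tag} {L : List Tag} {M : List (Fin 3)} {f : QFilm}
    (h : tabOK i j L M f = true) {a b : E3} (ha : Near3 (1 / 1000000) a f.a)
    (hb : Near3 (1 / 1000000) b f.b) :
    FilmClose (1 / 1000000) f ((tab i).b - (tab j).b) ((tab i).t - (tab j).t)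
      ((tab i).v - (tab j).v) a b (consR (tab i) (L.map tab) M) := by
  simp only [tabOK, Bool.and_eq_true] at h
  have h1 := nearC_qn (nearC_cmp (tab_near j) (tab_near i)) h.1
  exact ⟨h1.1, h1.2.2, h1.2.1, ha, hb, near_list (consR_near i L M) h.2⟩

end Kus64.NN
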