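import Pool.Agent.helper14.Kus3.NumC310
import Pool.Agent.helper14.Kus3.NumC220
import Pool.Agent.helper14.Kus3.NumC211
import Pool.Agent.helper14.Kus3.NumCa3
import Pool.Agent.helper14.Kus3.NumW320
import Pool.Agent.helper14.Kus3.NumW321
import Pool.Agent.helper14.Kus3.NumW2221
import Pool.Agent.helper14.Kus3.NumM211
import Pool.Agent.helper14.Kus3.NumM310
import Pool.Agent.helper14.Kus3.NumW3a3
import Pool.Agent.helper14.Kus3.NumW3a2
import Pool.Agent.helper14.Kus3.NumA32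
import Pool.Agent.helper14.Kus3.Tab

/-!
# Frames of the twelve films (generated)
-/

open Set

namespace Kus64.NN

namespace Fr

open Kusner (E4 vec Phi cH Perp)
open Kusner.Num Encl A2aux

theorem e206 : In (z1 / t1) (0.9544168951462) (0.9544168952298) :=
  (In.div i_z1 i_t1 (by norm_num) (by norm_num)).mono (by norm_num) (by norm_num)

theorem e207 : In (-(z1 / t1)) (-0.9544168952298) (-0.9544168951462) :=
  (In.neg e206).mono (by norm_num) (by norm_num)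

theorem e208 : In (y1 / t1) (0.2984767832986) (0.298476783337) :=
  (In.div y1_6 i_t1 (by norm_num) (by norm_num)).mono (by norm_num) (by norm_num)

theorem e209 : In (-(φ / ((2) : ℝ))) (-0.809016994375) (-0.8090169943749) :=
  (In.neg i_p2).mono (by norm_num) (by norm_num)

theorem e210 : In (-(1 / 2 : ℝ)) (-0.5) (-0.5) :=
  (In.neg (In.const (1 / 2))).mono (by norm_num) (by norm_num)

theorem e211 : In ((1 / 2 : ℝ) * ((φ - ((1) : ℝ)) / ((2) : ℝ))) (0.1545084971874) (0.1545084971875) :=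
  (In.mul (In.const (1 / 2)) i_pm (by norm_num) (by norm_num)).mono (by norm_num) (by norm_num)

theorem e212 : In (z3 * (-(1 / 2 : ℝ))) (-1.519150541359) (-1.5191505412902) :=
  In.mulg i_z3 e210 (by norm_num) (by norm_num) (by norm_num) (by norm_num)
    (by norm_num) (by norm_num) (by norm_num) (by norm_num)

theorem e213 : In (((1 / 2 : ℝ) * ((φ - ((1) : ℝ)) / ((2) : ℝ))) - (z3 * (-(1 / 2 : ℝ)))) (1.6736590384776) (1.6736590385465) :=
  (In.sub e211 e212).mono (by norm_num) (by norm_num)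

theorem e214 : In ((((1 / 2 : ℝ) * ((φ - ((1) : ℝ)) / ((2) : ℝ))) - (z3 * (-(1 / 2 : ℝ)))) / t3) (0.5238800805991) (0.5238800806487) :=
  (In.div e213 i_t3 (by norm_num) (by norm_num)).mono (by norm_num) (by norm_num)

theorem e215 : In (z3 * (-(φ / ((2) : ℝ)))) (-2.4580372099468) (-2.4580372098352) :=
  In.mulg i_z3 e209 (by norm_num) (by norm_num) (by norm_num) (by norm_num)
    (by norm_num) (by norm_num) (by norm_num) (by norm_num)

theorem e216 : In (x3 * ((φ - ((1) : ℝ)) / ((2) : ℝ))) (0.2631312929875) (0.2631312930039) :=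
  (In.mul i_x3 i_pm (by norm_num) (by norm_num)).mono (by norm_num) (by norm_num)

theorem e217 : In ((z3 * (-(φ / ((2) : ℝ)))) - (x3 * ((φ - ((1) : ℝ)) / ((2) : ℝ)))) (-2.7211685029507) (-2.7211685028227) :=
  (In.sub e215 e216).mono (by norm_num) (by norm_num)

theorem e218 : In (((z3 * (-(φ / ((2) : ℝ)))) - (x3 * ((φ - ((1) : ℝ)) / ((2) : ℝ)))) / t3) (-0.8517660658186) (-0.8517660657331) :=
  (In.divn e217 i_t3 (by norm_num) (by norm_num)).mono (by norm_num) (by norm_num)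

theorem e219 : In (x3 * (-(1 / 2 : ℝ))) (-0.4257553755838) (-0.4257553755576) :=
  In.mulg i_x3 e210 (by norm_num) (by norm_num) (by norm_num) (by norm_num)
    (by norm_num) (by norm_num) (by norm_num) (by norm_num)

theorem e220 : In ((1 / 2 : ℝ) * (-(φ / ((2) : ℝ)))) (-0.4045084971875) (-0.4045084971874) :=
  In.mulg (In.const (1 / 2)) e209 (by norm_num) (by norm_num) (by norm_num) (by norm_num)
    (by norm_num) (by norm_num) (by norm_num) (by norm_num)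

theorem e221 : In ((x3 * (-(1 / 2 : ℝ))) - ((1 / 2 : ℝ) * (-(φ / ((2) : ℝ))))) (-0.0212468783964) (-0.0212468783701) :=
  (In.sub e219 e220).mono (by norm_num) (by norm_num)

theorem e222 : In (((x3 * (-(1 / 2 : ℝ))) - ((1 / 2 : ℝ) * (-(φ / ((2) : ℝ))))) / t3) (-0.0066505877909) (-0.0066505877822) :=
  (In.divn e221 i_t3 (by norm_num) (by norm_num)).mono (by norm_num) (by norm_num)

theorem e223 : In (-((√(1 + φ ^ 2))⁻¹ * φ)) (-0.8506508083522) (-0.8506508083519) :=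
  (In.neg i_ξ2).mono (by norm_num) (by norm_num)

theorem e224 : In (z1 - t2) (0.0792478594517) (0.0792478602591) :=
  (In.sub i_z1 i_t2).mono (by norm_num) (by norm_num)

theorem e225 : In (y1 ^ 2) (1.0492665847108) (1.0492665848844) :=
  (In.sq y1_6 (by norm_num)).mono (by norm_num) (by norm_num)

theorem e226 : In ((z1 - t2) ^ 2) (0.0062802232276) (0.0062802233557) :=
  (In.sq e224 (by norm_num)).mono (by norm_num) (by norm_num)

theorem e227 : In ((y1 ^ 2) + ((z1 - t2) ^ 2)) (1.0555468079384) (1.0555468082401) :=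
  (In.add e225 e226).mono (by norm_num) (by norm_num)

theorem e228 : In (√((y1 ^ 2) + ((z1 - t2) ^ 2))) (1.0273980766666) (1.0273980768136) :=
  In.sqrt e227 (by norm_num) (by norm_num) (by norm_num) (by norm_num)

theorem e229 : In ((z1 - t2) / (√((y1 ^ 2) + ((z1 - t2) ^ 2)))) (0.0771345218958) (0.0771345226928) :=
  (In.div e224 e228 (by norm_num) (by norm_num)).mono (by norm_num) (by norm_num)

theorem e230 : In (-((z1 - t2) / (√((y1 ^ 2) + ((z1 - t2) ^ 2))))) (-0.0771345226928) (-0.0771345218958) :=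
  (In.neg e229).mono (by norm_num) (by norm_num)

theorem e231 : In (y1 / (√((y1 ^ 2) + ((z1 - t2) ^ 2)))) (0.9970206944923) (0.9970206947175) :=
  (In.div y1_6 e228 (by norm_num) (by norm_num)).mono (by norm_num) (by norm_num)

theorem e232 : In (-x3) (-0.8515107511676) (-0.8515107511153) :=
  (In.neg i_x3).mono (by norm_num) (by norm_num)

theorem e233 : In (y1 - (1 / 2 : ℝ)) (0.5243371440648) (0.5243371441495) :=
  (In.sub y1_6 (In.const (1 / 2))).mono (by norm_num) (by norm_num)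

theorem e234 : In (z1 - z3) (0.2371452210677) (0.2371452213423) :=
  (In.sub i_z1 i_z3).mono (by norm_num) (by norm_num)

theorem e235 : In ((-x3) ^ 2) (0.7250705592649) (0.7250705593541) :=
  (In.sqn e232 (by norm_num)).mono (by norm_num) (by norm_num)

theorem e236 : In ((y1 - (1 / 2 : ℝ)) ^ 2) (0.274929440646) (0.2749294407349) :=
  (In.sq e233 (by norm_num)).mono (by norm_num) (by norm_num)

theorem e237 : In (((-x3) ^ 2) + ((y1 - (1 / 2 : ℝ)) ^ 2)) (0.9999999999109) (1.000000000089) :=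
  (In.add e235 e236).mono (by norm_num) (by norm_num)

theorem e238 : In (√(((-x3) ^ 2) + ((y1 - (1 / 2 : ℝ)) ^ 2))) (0.9999999999554) (1.0000000000445) :=
  In.sqrt e237 (by norm_num) (by norm_num) (by norm_num) (by norm_num)

theorem e239 : In ((-x3) ^ 2) (0.7250705592649) (0.7250705593541) :=
  (In.sqn e232 (by norm_num)).mono (by norm_num) (by norm_num)

theorem e240 : In ((y1 - (1 / 2 : ℝ)) ^ 2) (0.274929440646) (0.2749294407349) :=
  (In.sq e233 (by norm_num)).mono (by norm_num) (by norm_num)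

theorem e241 : In (((-x3) ^ 2) + ((y1 - (1 / 2 : ℝ)) ^ 2)) (0.9999999999109) (1.000000000089) :=
  (In.add e239 e240).mono (by norm_num) (by norm_num)

theorem e242 : In ((z1 - z3) ^ 2) (0.0562378558752) (0.0562378560055) :=
  (In.sq e234 (by norm_num)).mono (by norm_num) (by norm_num)

theorem e243 : In ((((-x3) ^ 2) + ((y1 - (1 / 2 : ℝ)) ^ 2)) + ((z1 - z3) ^ 2)) (1.0562378557861) (1.0562378560945) :=
  (In.add e241 e242).mono (by norm_num) (by norm_num)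

theorem e244 : In (√((((-x3) ^ 2) + ((y1 - (1 / 2 : ℝ)) ^ 2)) + ((z1 - z3) ^ 2))) (1.0277343313259) (1.0277343314761) :=
  In.sqrt e243 (by norm_num) (by norm_num) (by norm_num) (by norm_num)

theorem e245 : In ((√((((-x3) ^ 2) + ((y1 - (1 / 2 : ℝ)) ^ 2)) + ((z1 - z3) ^ 2))) * (√(((-x3) ^ 2) + ((y1 - (1 / 2 : ℝ)) ^ 2)))) (1.02773433128) (1.0277343315219) :=
  (In.mul e244 e238 (by norm_num) (by norm_num)).mono (by norm_num) (by norm_num)

theorem e246 : In ((z1 - z3) * (-x3)) (-0.201931705561) (-0.2019317053147) :=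
  In.mulg e234 e232 (by norm_num) (by norm_num) (by norm_num) (by norm_num)
    (by norm_num) (by norm_num) (by norm_num) (by norm_num)

theorem e247 : In (((z1 - z3) * (-x3)) / ((√((((-x3) ^ 2) + ((y1 - (1 / 2 : ℝ)) ^ 2)) + ((z1 - z3) ^ 2))) * (√(((-x3) ^ 2) + ((y1 - (1 / 2 : ℝ)) ^ 2))))) (-0.1964823976538) (-0.1964823973678) :=
  (In.divn e246 e245 (by norm_num) (by norm_num)).mono (by norm_num) (by norm_num)

theorem e248 : In (-(((z1 - z3) * (-x3)) / ((√((((-x3) ^ 2) + ((y1 - (1 / 2 : ℝ)) ^ 2)) + ((z1 - z3) ^ 2))) * (√(((-x3) ^ 2) + ((y1 - (1 / 2 : ℝ)) ^ 2)))))) (0.1964823973678) (0.1964823976538) :=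
  (In.neg e247).mono (by norm_num) (by norm_num)

theorem e249 : In ((z1 - z3) * (y1 - (1 / 2 : ℝ))) (0.1243440479432) (0.1243440481074) :=
  (In.mul e234 e233 (by norm_num) (by norm_num)).mono (by norm_num) (by norm_num)

theorem e250 : In (((z1 - z3) * (y1 - (1 / 2 : ℝ))) / ((√((((-x3) ^ 2) + ((y1 - (1 / 2 : ℝ)) ^ 2)) + ((z1 - z3) ^ 2))) * (√(((-x3) ^ 2) + ((y1 - (1 / 2 : ℝ)) ^ 2))))) (0.1209885124291) (0.1209885126174) :=
  (In.div e249 e245 (by norm_num) (by norm_num)).mono (by norm_num) (by norm_num)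

theorem e251 : In (-(((z1 - z3) * (y1 - (1 / 2 : ℝ))) / ((√((((-x3) ^ 2) + ((y1 - (1 / 2 : ℝ)) ^ 2)) + ((z1 - z3) ^ 2))) * (√(((-x3) ^ 2) + ((y1 - (1 / 2 : ℝ)) ^ 2)))))) (-0.1209885126174) (-0.1209885124291) :=
  (In.neg e250).mono (by norm_num) (by norm_num)

theorem e252 : In ((√(((-x3) ^ 2) + ((y1 - (1 / 2 : ℝ)) ^ 2))) / (√((((-x3) ^ 2) + ((y1 - (1 / 2 : ℝ)) ^ 2)) + ((z1 - z3) ^ 2)))) (0.973014104257) (0.973014104486) :=
  (In.div e238 e244 (by norm_num) (by norm_num)).mono (by norm_num) (by norm_num)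

theorem e253 : In ((y1 - (1 / 2 : ℝ)) / (√(((-x3) ^ 2) + ((y1 - (1 / 2 : ℝ)) ^ 2)))) (0.5243371440414) (0.5243371441729) :=
  (In.div e233 e238 (by norm_num) (by norm_num)).mono (by norm_num) (by norm_num)

theorem e254 : In ((-x3) / (√(((-x3) ^ 2) + ((y1 - (1 / 2 : ℝ)) ^ 2)))) (-0.8515107512056) (-0.8515107510774) :=
  (In.divn e232 e238 (by norm_num) (by norm_num)).mono (by norm_num) (by norm_num)

theorem e255 : In (-((-x3) / (√(((-x3) ^ 2) + ((y1 - (1 / 2 : ℝ)) ^ 2))))) (0.8515107510774) (0.8515107512056) :=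
  (In.neg e254).mono (by norm_num) (by norm_num)

theorem e256 : In (t2 - z3) (0.1578973609458) (0.1578973617534) :=
  (In.sub i_t2 i_z3).mono (by norm_num) (by norm_num)

theorem e257 : In ((-x3) ^ 2) (0.7250705592649) (0.7250705593541) :=
  (In.sqn e232 (by norm_num)).mono (by norm_num) (by norm_num)

theorem e258 : In ((-(1 / 2 : ℝ)) ^ 2) (0.25) (0.25) :=
  (In.sqn e210 (by norm_num)).mono (by norm_num) (by norm_num)

theorem e259 : In (((-x3) ^ 2) + ((-(1 / 2 : ℝ)) ^ 2)) (0.9750705592649) (0.9750705593541) :=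
  (In.add e257 e258).mono (by norm_num) (by norm_num)

theorem e260 : In (√(((-x3) ^ 2) + ((-(1 / 2 : ℝ)) ^ 2))) (0.9874566113328) (0.987456611378) :=
  In.sqrt e259 (by norm_num) (by norm_num) (by norm_num) (by norm_num)

theorem e261 : In ((-x3) ^ 2) (0.7250705592649) (0.7250705593541) :=
  (In.sqn e232 (by norm_num)).mono (by norm_num) (by norm_num)

theorem e262 : In ((-(1 / 2 : ℝ)) ^ 2) (0.25) (0.25) :=
  (In.sqn e210 (by norm_num)).mono (by norm_num) (by norm_num)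

theorem e263 : In (((-x3) ^ 2) + ((-(1 / 2 : ℝ)) ^ 2)) (0.9750705592649) (0.9750705593541) :=
  (In.add e261 e262).mono (by norm_num) (by norm_num)

theorem e264 : In ((t2 - z3) ^ 2) (0.0249315765936) (0.0249315768487) :=
  (In.sq e256 (by norm_num)).mono (by norm_num) (by norm_num)

theorem e265 : In ((((-x3) ^ 2) + ((-(1 / 2 : ℝ)) ^ 2)) + ((t2 - z3) ^ 2)) (1.0000021358585) (1.0000021362028) :=
  (In.add e263 e264).mono (by norm_num) (by norm_num)

theorem e266 : In (√((((-x3) ^ 2) + ((-(1 / 2 : ℝ)) ^ 2)) + ((t2 - z3) ^ 2))) (1.0000010679286) (1.0000010681009) :=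
  In.sqrt e265 (by norm_num) (by norm_num) (by norm_num) (by norm_num)

theorem e267 : In ((√((((-x3) ^ 2) + ((-(1 / 2 : ℝ)) ^ 2)) + ((t2 - z3) ^ 2))) * (√(((-x3) ^ 2) + ((-(1 / 2 : ℝ)) ^ 2)))) (0.9874576658659) (0.9874576660813) :=
  (In.mul e266 e260 (by norm_num) (by norm_num)).mono (by norm_num) (by norm_num)

theorem e268 : In ((t2 - z3) * (-x3)) (-0.1344513011141) (-0.134451300418) :=
  In.mulg e256 e232 (by norm_num) (by norm_num) (by norm_num) (by norm_num)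
    (by norm_num) (by norm_num) (by norm_num) (by norm_num)

theorem e269 : In (((t2 - z3) * (-x3)) / ((√((((-x3) ^ 2) + ((-(1 / 2 : ℝ)) ^ 2)) + ((t2 - z3) ^ 2))) * (√(((-x3) ^ 2) + ((-(1 / 2 : ℝ)) ^ 2))))) (-0.136159053458) (-0.1361590527233) :=
  (In.divn e268 e267 (by norm_num) (by norm_num)).mono (by norm_num) (by norm_num)

theorem e270 : In (-(((t2 - z3) * (-x3)) / ((√((((-x3) ^ 2) + ((-(1 / 2 : ℝ)) ^ 2)) + ((t2 - z3) ^ 2))) * (√(((-x3) ^ 2) + ((-(1 / 2 : ℝ)) ^ 2)))))) (0.1361590527233) (0.136159053458) :=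
  (In.neg e269).mono (by norm_num) (by norm_num)

theorem e271 : In ((t2 - z3) * (-(1 / 2 : ℝ))) (-0.0789486808767) (-0.0789486804729) :=
  In.mulg e256 e210 (by norm_num) (by norm_num) (by norm_num) (by norm_num)
    (by norm_num) (by norm_num) (by norm_num) (by norm_num)

theorem e272 : In (((t2 - z3) * (-(1 / 2 : ℝ))) / ((√((((-x3) ^ 2) + ((-(1 / 2 : ℝ)) ^ 2)) + ((t2 - z3) ^ 2))) * (√(((-x3) ^ 2) + ((-(1 / 2 : ℝ)) ^ 2))))) (-0.0799514587874) (-0.0799514583609) :=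
  (In.divn e271 e267 (by norm_num) (by norm_num)).mono (by norm_num) (by norm_num)

theorem e273 : In (-(((t2 - z3) * (-(1 / 2 : ℝ))) / ((√((((-x3) ^ 2) + ((-(1 / 2 : ℝ)) ^ 2)) + ((t2 - z3) ^ 2))) * (√(((-x3) ^ 2) + ((-(1 / 2 : ℝ)) ^ 2)))))) (0.0799514583609) (0.0799514587874) :=
  (In.neg e272).mono (by norm_num) (by norm_num)

theorem e274 : In ((√(((-x3) ^ 2) + ((-(1 / 2 : ℝ)) ^ 2))) / (√((((-x3) ^ 2) + ((-(1 / 2 : ℝ)) ^ 2)) + ((t2 - z3) ^ 2)))) (0.9874555566306) (0.987455556846) :=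
  (In.div e260 e266 (by norm_num) (by norm_num)).mono (by norm_num) (by norm_num)

theorem e275 : In ((-(1 / 2 : ℝ)) / (√(((-x3) ^ 2) + ((-(1 / 2 : ℝ)) ^ 2)))) (-0.506351361935) (-0.5063513619117) :=
  (In.divn e210 e260 (by norm_num) (by norm_num)).mono (by norm_num) (by norm_num)

theorem e276 : In ((-x3) / (√(((-x3) ^ 2) + ((-(1 / 2 : ℝ)) ^ 2)))) (-0.8623272571119) (-0.8623272570194) :=
  (In.divn e232 e260 (by norm_num) (by norm_num)).mono (by norm_num) (by norm_num)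

theorem e277 : In (-((-x3) / (√(((-x3) ^ 2) + ((-(1 / 2 : ℝ)) ^ 2))))) (0.8623272570194) (0.8623272571119) :=
  (In.neg e276).mono (by norm_num) (by norm_num)

theorem e278 : In (((√(1 + φ ^ 2))⁻¹) * ((φ - ((1) : ℝ)) / ((2) : ℝ))) (0.1624598481164) (0.1624598481166) :=
  (In.mul i_ξ1 i_pm (by norm_num) (by norm_num)).mono (by norm_num) (by norm_num)

theorem e279 : In (((√(1 + φ ^ 2))⁻¹ * φ) * (-(1 / 2 : ℝ))) (-0.4253254041761) (-0.4253254041759) :=
  In.mulg i_ξ2 e210 (by norm_num) (by norm_num) (by norm_num) (by norm_num)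
    (by norm_num) (by norm_num) (by norm_num) (by norm_num)

theorem e280 : In ((((√(1 + φ ^ 2))⁻¹) * ((φ - ((1) : ℝ)) / ((2) : ℝ))) - (((√(1 + φ ^ 2))⁻¹ * φ) * (-(1 / 2 : ℝ)))) (0.5877852522923) (0.5877852522927) :=
  (In.sub e278 e279).mono (by norm_num) (by norm_num)

theorem e281 : In (((√(1 + φ ^ 2))⁻¹ * φ) * (-(φ / ((2) : ℝ)))) (-0.6881909602358) (-0.6881909602354) :=
  In.mulg i_ξ2 e209 (by norm_num) (by norm_num) (by norm_num) (by norm_num)
    (by norm_num) (by norm_num) (by norm_num) (by norm_num)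

theorem e282 : In (((√(1 + φ ^ 2))⁻¹) * (-(φ / ((2) : ℝ)))) (-0.4253254041762) (-0.4253254041759) :=
  In.mulg i_ξ1 e209 (by norm_num) (by norm_num) (by norm_num) (by norm_num)
    (by norm_num) (by norm_num) (by norm_num) (by norm_num)

theorem e283 : In (-(((√(1 + φ ^ 2))⁻¹) * (-(φ / ((2) : ℝ))))) (0.4253254041759) (0.4253254041762) :=
  (In.neg e282).mono (by norm_num) (by norm_num)

theorem e284 : In (y1 - (s3 * ((√(1 + φ ^ 2))⁻¹))) (-2.442161724902) (-2.4421617246449) :=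
  (In.sub y1_6 i_a31).mono (by norm_num) (by norm_num)

theorem e285 : In (z1 - (s3 * ((√(1 + φ ^ 2))⁻¹ * φ))) (-2.3334666881661) (-2.3334666877491) :=
  (In.sub i_z1 i_a32).mono (by norm_num) (by norm_num)

theorem e286 : In ((y1 - (s3 * ((√(1 + φ ^ 2))⁻¹))) ^ 2) (5.9641538893205) (5.9641538905764) :=
  (In.sqn e284 (by norm_num)).mono (by norm_num) (by norm_num)

theorem e287 : In ((z1 - (s3 * ((√(1 + φ ^ 2))⁻¹ * φ))) ^ 2) (5.4450667828347) (5.4450667847809) :=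
  (In.sqn e285 (by norm_num)).mono (by norm_num) (by norm_num)

theorem e288 : In (((y1 - (s3 * ((√(1 + φ ^ 2))⁻¹))) ^ 2) + ((z1 - (s3 * ((√(1 + φ ^ 2))⁻¹ * φ))) ^ 2)) (11.4092206721552) (11.4092206753573) :=
  (In.add e286 e287).mono (by norm_num) (by norm_num)

theorem e289 : In (√(((y1 - (s3 * ((√(1 + φ ^ 2))⁻¹))) ^ 2) + ((z1 - (s3 * ((√(1 + φ ^ 2))⁻¹ * φ))) ^ 2))) (3.3777537909319) (3.377753791406) :=
  In.sqrt e288 (by norm_num) (by norm_num) (by norm_num) (by norm_num)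

theorem e290 : In ((z1 - (s3 * ((√(1 + φ ^ 2))⁻¹ * φ))) / (√(((y1 - (s3 * ((√(1 + φ ^ 2))⁻¹))) ^ 2) + ((z1 - (s3 * ((√(1 + φ ^ 2))⁻¹ * φ))) ^ 2)))) (-0.6908338595995) (-0.690833859379) :=
  (In.divn e285 e289 (by norm_num) (by norm_num)).mono (by norm_num) (by norm_num)

theorem e291 : In (-((z1 - (s3 * ((√(1 + φ ^ 2))⁻¹ * φ))) / (√(((y1 - (s3 * ((√(1 + φ ^ 2))⁻¹))) ^ 2) + ((z1 - (s3 * ((√(1 + φ ^ 2))⁻¹ * φ))) ^ 2))))) (0.690833859379) (0.6908338595995) :=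
  (In.neg e290).mono (by norm_num) (by norm_num)

theorem e292 : In ((y1 - (s3 * ((√(1 + φ ^ 2))⁻¹))) / (√(((y1 - (s3 * ((√(1 + φ ^ 2))⁻¹))) ^ 2) + ((z1 - (s3 * ((√(1 + φ ^ 2))⁻¹ * φ))) ^ 2)))) (-0.7230135397845) (-0.7230135396068) :=
  (In.divn e284 e289 (by norm_num) (by norm_num)).mono (by norm_num) (by norm_num)

theorem e293 : In (y1 - (s2 * ((√(1 + φ ^ 2))⁻¹))) (-1.8231717932713) (-1.8231717930462) :=
  (In.sub y1_6 i_a21).mono (by norm_num) (by norm_num)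

theorem e294 : In (z1 - (s2 * ((√(1 + φ ^ 2))⁻¹ * φ))) (-1.3319199400935) (-1.3319199397285) :=
  (In.sub i_z1 i_a22).mono (by norm_num) (by norm_num)

theorem e295 : In ((y1 - (s2 * ((√(1 + φ ^ 2))⁻¹))) ^ 2) (3.3239553869592) (3.3239553877801) :=
  (In.sqn e293 (by norm_num)).mono (by norm_num) (by norm_num)

theorem e296 : In ((z1 - (s2 * ((√(1 + φ ^ 2))⁻¹ * φ))) ^ 2) (1.7740107258463) (1.7740107268187) :=
  (In.sqn e294 (by norm_num)).mono (by norm_num) (by norm_num)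

theorem e297 : In (((y1 - (s2 * ((√(1 + φ ^ 2))⁻¹))) ^ 2) + ((z1 - (s2 * ((√(1 + φ ^ 2))⁻¹ * φ))) ^ 2)) (5.0979661128055) (5.0979661145988) :=
  (In.add e295 e296).mono (by norm_num) (by norm_num)

theorem e298 : In (√(((y1 - (s2 * ((√(1 + φ ^ 2))⁻¹))) ^ 2) + ((z1 - (s2 * ((√(1 + φ ^ 2))⁻¹ * φ))) ^ 2))) (2.2578676030284) (2.2578676034256) :=
  In.sqrt e297 (by norm_num) (by norm_num) (by norm_num) (by norm_num)

theorem e299 : In ((z1 - (s2 * ((√(1 + φ ^ 2))⁻¹ * φ))) / (√(((y1 - (s2 * ((√(1 + φ ^ 2))⁻¹))) ^ 2) + ((z1 - (s2 * ((√(1 + φ ^ 2))⁻¹ * φ))) ^ 2)))) (-0.5899017011924) (-0.5899017009268) :=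
  (In.divn e294 e298 (by norm_num) (by norm_num)).mono (by norm_num) (by norm_num)

theorem e300 : In (-((z1 - (s2 * ((√(1 + φ ^ 2))⁻¹ * φ))) / (√(((y1 - (s2 * ((√(1 + φ ^ 2))⁻¹))) ^ 2) + ((z1 - (s2 * ((√(1 + φ ^ 2))⁻¹ * φ))) ^ 2))))) (0.5899017009268) (0.5899017011924) :=
  (In.neg e299).mono (by norm_num) (by norm_num)

theorem e301 : In ((y1 - (s2 * ((√(1 + φ ^ 2))⁻¹))) / (√(((y1 - (s2 * ((√(1 + φ ^ 2))⁻¹))) ^ 2) + ((z1 - (s2 * ((√(1 + φ ^ 2))⁻¹ * φ))) ^ 2)))) (-0.8074750666629) (-0.8074750664211) :=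
  (In.divn e293 e298 (by norm_num) (by norm_num)).mono (by norm_num) (by norm_num)

noncomputable def aC310 : E3 := !₂[1, 0, 0]

theorem near_aC310 : Near3 (1 / 1000000) aC310 fC310.a :=
  ⟨near_self (by norm_num) (by simp [aC310, fC310]),
    near_self (by norm_num) (by simp [aC310, fC310]),
    near_self (by norm_num) (by simp [aC310, fC310])⟩

noncomputable def bC310 : E3 := !₂[0, -(z1 / t1), y1 / t1]

theorem near_bC310 : Near3 (1 / 1000000) bC310 fC310.b :=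
  ⟨near_self (by norm_num) (by simp [bC310, fC310]),
    In.near (x := bC310 1) e207 (by norm_num [fC310]) (by norm_num [fC310]),
    In.near (x := bC310 2) e208 (by norm_num [fC310]) (by norm_num [fC310])⟩

noncomputable def aC220 : E3 := !₂[1, 0, 0]

theorem near_aC220 : Near3 (1 / 1000000) aC220 fC220.a :=
  ⟨near_self (by norm_num) (by simp [aC220, fC220]),
    near_self (by norm_num) (by simp [aC220, fC220]),
    near_self (by norm_num) (by simp [aC220, fC220])⟩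

noncomputable def bC220 : E3 := !₂[0, 1, 0]

theorem near_bC220 : Near3 (1 / 1000000) bC220 fC220.b :=
  ⟨near_self (by norm_num) (by simp [bC220, fC220]),
    near_self (by norm_num) (by simp [bC220, fC220]),
    near_self (by norm_num) (by simp [bC220, fC220])⟩

noncomputable def aC211 : E3 := !₂[-(φ / ((2) : ℝ)), -(1 / 2 : ℝ), (φ - ((1) : ℝ)) / ((2) : ℝ)]

theorem near_aC211 : Near3 (1 / 1000000) aC211 fC211.a :=
  ⟨In.near (x := aC211 0) e209 (by norm_num [fC211]) (by norm_num [fC211]),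
    In.near (x := aC211 1) e210 (by norm_num [fC211]) (by norm_num [fC211]),
    In.near (x := aC211 2) i_pm (by norm_num [fC211]) (by norm_num [fC211])⟩

noncomputable def bC211 : E3 := !₂[(((1 / 2 : ℝ) * ((φ - ((1) : ℝ)) / ((2) : ℝ))) - (z3 * (-(1 / 2 : ℝ)))) / t3, ((z3 * (-(φ / ((2) : ℝ)))) - (x3 * ((φ - ((1) : ℝ)) / ((2) : ℝ)))) / t3, ((x3 * (-(1 / 2 : ℝ))) - ((1 / 2 : ℝ) * (-(φ / ((2) : ℝ))))) / t3]

theorem near_bC211 : Near3 (1 / 1000000) bC211 fC211.b :=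
  ⟨In.near (x := bC211 0) e214 (by norm_num [fC211]) (by norm_num [fC211]),
    In.near (x := bC211 1) e218 (by norm_num [fC211]) (by norm_num [fC211]),
    In.near (x := bC211 2) e222 (by norm_num [fC211]) (by norm_num [fC211])⟩

noncomputable def aCa3 : E3 := !₂[1, 0, 0]

theorem near_aCa3 : Near3 (1 / 1000000) aCa3 fCa3.a :=
  ⟨near_self (by norm_num) (by simp [aCa3, fCa3]),
    near_self (by norm_num) (by simp [aCa3, fCa3]),
    near_self (by norm_num) (by simp [aCa3, fCa3])⟩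

noncomputable def bCa3 : E3 := !₂[0, -((√(1 + φ ^ 2))⁻¹ * φ), (√(1 + φ ^ 2))⁻¹]

theorem near_bCa3 : Near3 (1 / 1000000) bCa3 fCa3.b :=
  ⟨near_self (by norm_num) (by simp [bCa3, fCa3]),
    In.near (x := bCa3 1) e223 (by norm_num [fCa3]) (by norm_num [fCa3]),
    In.near (x := bCa3 2) i_ξ1 (by norm_num [fCa3]) (by norm_num [fCa3])⟩

noncomputable def aW320 : E3 := !₂[0, -((z1 - t2) / (√((y1 ^ 2) + ((z1 - t2) ^ 2)))), y1 / (√((y1 ^ 2) + ((z1 - t2) ^ 2)))]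

theorem near_aW320 : Near3 (1 / 1000000) aW320 fW320.a :=
  ⟨near_self (by norm_num) (by simp [aW320, fW320]),
    In.near (x := aW320 1) e230 (by norm_num [fW320]) (by norm_num [fW320]),
    In.near (x := aW320 2) e231 (by norm_num [fW320]) (by norm_num [fW320])⟩

noncomputable def bW320 : E3 := !₂[1, 0, 0]

theorem near_bW320 : Near3 (1 / 1000000) bW320 fW320.b :=
  ⟨near_self (by norm_num) (by simp [bW320, fW320]),
    near_self (by norm_num) (by simp [bW320, fW320]),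
    near_self (by norm_num) (by simp [bW320, fW320])⟩

noncomputable def aW321 : E3 := !₂[-(((z1 - z3) * (-x3)) / ((√((((-x3) ^ 2) + ((y1 - (1 / 2 : ℝ)) ^ 2)) + ((z1 - z3) ^ 2))) * (√(((-x3) ^ 2) + ((y1 - (1 / 2 : ℝ)) ^ 2))))), -(((z1 - z3) * (y1 - (1 / 2 : ℝ))) / ((√((((-x3) ^ 2) + ((y1 - (1 / 2 : ℝ)) ^ 2)) + ((z1 - z3) ^ 2))) * (√(((-x3) ^ 2) + ((y1 - (1 / 2 : ℝ)) ^ 2))))), (√(((-x3) ^ 2) + ((y1 - (1 / 2 : ℝ)) ^ 2))) / (√((((-x3) ^ 2) + ((y1 - (1 / 2 : ℝ)) ^ 2)) + ((z1 - z3) ^ 2)))]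

theorem near_aW321 : Near3 (1 / 1000000) aW321 fW321.a :=
  ⟨In.near (x := aW321 0) e248 (by norm_num [fW321]) (by norm_num [fW321]),
    In.near (x := aW321 1) e251 (by norm_num [fW321]) (by norm_num [fW321]),
    In.near (x := aW321 2) e252 (by norm_num [fW321]) (by norm_num [fW321])⟩

noncomputable def bW321 : E3 := !₂[(y1 - (1 / 2 : ℝ)) / (√(((-x3) ^ 2) + ((y1 - (1 / 2 : ℝ)) ^ 2))), -((-x3) / (√(((-x3) ^ 2) + ((y1 - (1 / 2 : ℝ)) ^ 2)))), 0]

theorem near_bW321 : Near3 (1 / 1000000) bW321 fW321.b :=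
  ⟨In.near (x := bW321 0) e253 (by norm_num [fW321]) (by norm_num [fW321]),
    In.near (x := bW321 1) e255 (by norm_num [fW321]) (by norm_num [fW321]),
    near_self (by norm_num) (by simp [bW321, fW321])⟩

noncomputable def aW2221 : E3 := !₂[-(((t2 - z3) * (-x3)) / ((√((((-x3) ^ 2) + ((-(1 / 2 : ℝ)) ^ 2)) + ((t2 - z3) ^ 2))) * (√(((-x3) ^ 2) + ((-(1 / 2 : ℝ)) ^ 2))))), -(((t2 - z3) * (-(1 / 2 : ℝ))) / ((√((((-x3) ^ 2) + ((-(1 / 2 : ℝ)) ^ 2)) + ((t2 - z3) ^ 2))) * (√(((-x3) ^ 2) + ((-(1 / 2 : ℝ)) ^ 2))))), (√(((-x3) ^ 2) + ((-(1 / 2 : ℝ)) ^ 2))) / (√((((-x3) ^ 2) + ((-(1 / 2 : ℝ)) ^ 2)) + ((t2 - z3) ^ 2)))]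

theorem near_aW2221 : Near3 (1 / 1000000) aW2221 fW2221.a :=
  ⟨In.near (x := aW2221 0) e270 (by norm_num [fW2221]) (by norm_num [fW2221]),
    In.near (x := aW2221 1) e273 (by norm_num [fW2221]) (by norm_num [fW2221]),
    In.near (x := aW2221 2) e274 (by norm_num [fW2221]) (by norm_num [fW2221])⟩

noncomputable def bW2221 : E3 := !₂[(-(1 / 2 : ℝ)) / (√(((-x3) ^ 2) + ((-(1 / 2 : ℝ)) ^ 2))), -((-x3) / (√(((-x3) ^ 2) + ((-(1 / 2 : ℝ)) ^ 2)))), 0]

theorem near_bW2221 : Near3 (1 / 1000000) bW2221 fW2221.b :=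
  ⟨In.near (x := bW2221 0) e275 (by norm_num [fW2221]) (by norm_num [fW2221]),
    In.near (x := bW2221 1) e277 (by norm_num [fW2221]) (by norm_num [fW2221]),
    near_self (by norm_num) (by simp [bW2221, fW2221])⟩

noncomputable def aM211 : E3 := !₂[0, 0, 1]

theorem near_aM211 : Near3 (1 / 1000000) aM211 fM211.a :=
  ⟨near_self (by norm_num) (by simp [aM211, fM211]),
    near_self (by norm_num) (by simp [aM211, fM211]),
    near_self (by norm_num) (by simp [aM211, fM211])⟩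

noncomputable def bM211 : E3 := !₂[1, 0, 0]

theorem near_bM211 : Near3 (1 / 1000000) bM211 fM211.b :=
  ⟨near_self (by norm_num) (by simp [bM211, fM211]),
    near_self (by norm_num) (by simp [bM211, fM211]),
    near_self (by norm_num) (by simp [bM211, fM211])⟩

noncomputable def aM310 : E3 := !₂[0, (√(1 + φ ^ 2))⁻¹, ((√(1 + φ ^ 2))⁻¹ * φ)]

theorem near_aM310 : Near3 (1 / 1000000) aM310 fM310.a :=
  ⟨near_self (by norm_num) (by simp [aM310, fM310]),
    In.near (x := aM310 1) i_ξ1 (by norm_num [fM310]) (by norm_num [fM310]),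
    In.near (x := aM310 2) i_ξ2 (by norm_num [fM310]) (by norm_num [fM310])⟩

noncomputable def bM310 : E3 := !₂[(((√(1 + φ ^ 2))⁻¹) * ((φ - ((1) : ℝ)) / ((2) : ℝ))) - (((√(1 + φ ^ 2))⁻¹ * φ) * (-(1 / 2 : ℝ))), ((√(1 + φ ^ 2))⁻¹ * φ) * (-(φ / ((2) : ℝ))), -(((√(1 + φ ^ 2))⁻¹) * (-(φ / ((2) : ℝ))))]

theorem near_bM310 : Near3 (1 / 1000000) bM310 fM310.b :=
  ⟨In.near (x := bM310 0) e280 (by norm_num [fM310]) (by norm_num [fM310]),
    In.near (x := bM310 1) e281 (by norm_num [fM310]) (by norm_num [fM310]),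
    In.near (x := bM310 2) e283 (by norm_num [fM310]) (by norm_num [fM310])⟩

noncomputable def aW3a3 : E3 := !₂[1, 0, 0]

theorem near_aW3a3 : Near3 (1 / 1000000) aW3a3 fW3a3.a :=
  ⟨near_self (by norm_num) (by simp [aW3a3, fW3a3]),
    near_self (by norm_num) (by simp [aW3a3, fW3a3]),
    near_self (by norm_num) (by simp [aW3a3, fW3a3])⟩

noncomputable def bW3a3 : E3 := !₂[0, -((z1 - (s3 * ((√(1 + φ ^ 2))⁻¹ * φ))) / (√(((y1 - (s3 * ((√(1 + φ ^ 2))⁻¹))) ^ 2) + ((z1 - (s3 * ((√(1 + φ ^ 2))⁻¹ * φ))) ^ 2)))), (y1 - (s3 * ((√(1 + φ ^ 2))⁻¹))) / (√(((y1 - (s3 * ((√(1 + φ ^ 2))⁻¹))) ^ 2) + ((z1 - (s3 * ((√(1 + φ ^ 2))⁻¹ * φ))) ^ 2)))]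

theorem near_bW3a3 : Near3 (1 / 1000000) bW3a3 fW3a3.b :=
  ⟨near_self (by norm_num) (by simp [bW3a3, fW3a3]),
    In.near (x := bW3a3 1) e291 (by norm_num [fW3a3]) (by norm_num [fW3a3]),
    In.near (x := bW3a3 2) e292 (by norm_num [fW3a3]) (by norm_num [fW3a3])⟩

noncomputable def aW3a2 : E3 := !₂[1, 0, 0]

theorem near_aW3a2 : Near3 (1 / 1000000) aW3a2 fW3a2.a :=
  ⟨near_self (by norm_num) (by simp [aW3a2, fW3a2]),
    near_self (by norm_num) (by simp [aW3a2, fW3a2]),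
    near_self (by norm_num) (by simp [aW3a2, fW3a2])⟩

noncomputable def bW3a2 : E3 := !₂[0, -((z1 - (s2 * ((√(1 + φ ^ 2))⁻¹ * φ))) / (√(((y1 - (s2 * ((√(1 + φ ^ 2))⁻¹))) ^ 2) + ((z1 - (s2 * ((√(1 + φ ^ 2))⁻¹ * φ))) ^ 2)))), (y1 - (s2 * ((√(1 + φ ^ 2))⁻¹))) / (√(((y1 - (s2 * ((√(1 + φ ^ 2))⁻¹))) ^ 2) + ((z1 - (s2 * ((√(1 + φ ^ 2))⁻¹ * φ))) ^ 2)))]

theorem near_bW3a2 : Near3 (1 / 1000000) bW3a2 fW3a2.b :=
  ⟨near_self (by norm_num) (by simp [bW3a2, fW3a2]),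
    In.near (x := bW3a2 1) e300 (by norm_num [fW3a2]) (by norm_num [fW3a2]),
    In.near (x := bW3a2 2) e301 (by norm_num [fW3a2]) (by norm_num [fW3a2])⟩

noncomputable def aA32 : E3 := !₂[1, 0, 0]

theorem near_aA32 : Near3 (1 / 1000000) aA32 fA32.a :=
  ⟨near_self (by norm_num) (by simp [aA32, fA32]),
    near_self (by norm_num) (by simp [aA32, fA32]),
    near_self (by norm_num) (by simp [aA32, fA32])⟩

noncomputable def bA32 : E3 := !₂[0, -((√(1 + φ ^ 2))⁻¹ * φ), (√(1 + φ ^ 2))⁻¹]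

theorem near_bA32 : Near3 (1 / 1000000) bA32 fA32.b :=
  ⟨near_self (by norm_num) (by simp [bA32, fA32]),
    In.near (x := bA32 1) e223 (by norm_num [fA32]) (by norm_num [fA32]),
    In.near (x := bA32 2) i_ξ1 (by norm_num [fA32]) (by norm_num [fA32])⟩

end Fr

end Kus64.NN
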