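import Pool.Agent.helper14.Kus3.Defs

/-!
# Interface of the field part (all statements sorried here; never import in a hand-in)
-/

open Set Metric MeasureTheory
open scoped ContDiff Topology

namespace Kusner

/-! ## F1: the area formula -/

theorem cH_pos : 0 < cH := sorry

theorem area_formula {E : Type*} [NormedAddCommGroup E] [InnerProductSpace ℝ E]
    [FiniteDimensional ℝ E] [MeasurableSpace E] [BorelSpace E]
    {ψ : ℝ × ℝ → E} {U s : Set (ℝ × ℝ)} (hU : IsOpen U) (hψ : ContDiffOn ℝ 1 ψ U)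
    (hj : ∀ u ∈ U, 0 < jac (fderiv ℝ ψ u (1, 0)) (fderiv ℝ ψ u (0, 1)))
    (hs : MeasurableSet s) (hsU : s ⊆ U) (hinj : InjOn ψ s) :
    μH[2] (ψ '' s) =
      ∫⁻ u in s, ENNReal.ofReal (cH * jac (fderiv ℝ ψ u (1, 0)) (fderiv ℝ ψ u (0, 1))) := sorry

theorem area_integral {E : Type*} [NormedAddCommGroup E] [InnerProductSpace ℝ E]
    [FiniteDimensional ℝ E] [MeasurableSpace E] [BorelSpace E]
    {ψ : ℝ × ℝ → E} {U s : Set (ℝ × ℝ)} (hU : IsOpen U) (hψ : ContDiffOn ℝ 1 ψ U)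
    (hj : ∀ u ∈ U, 0 < jac (fderiv ℝ ψ u (1, 0)) (fderiv ℝ ψ u (0, 1)))
    (hs : MeasurableSet s) (hsU : s ⊆ U) (hinj : InjOn ψ s) (h : E → ℝ) :
    ∫ y in ψ '' s, h y ∂μH[2] =
      cH * ∫ u in s, jac (fderiv ℝ ψ u (1, 0)) (fderiv ℝ ψ u (0, 1)) * h (ψ u) := sorry

/-! ## F2: the second derivative of the area of a deformed surface -/

theorem area_second {φ : ℝ → E3 → E3} (hφ : IsDeformation φ) {M W : E3 → E3 →L[ℝ] E3}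
    (hM : ∀ x, HasDerivAt (fun t => fderiv ℝ (φ t) x) (M x) 0)
    (hW : ∀ x, HasDerivAt (fun t => deriv (fun s => fderiv ℝ (φ s) x) t) (W x) 0)
    (htM : ∀ x, LinearMap.trace ℝ E3 (M x).toLinearMap = 0)
    (htW : ∀ x, LinearMap.trace ℝ E3 (W x).toLinearMap =
      LinearMap.trace ℝ E3 ((M x).comp (M x)).toLinearMap)
    {ψ : ℝ × ℝ → E3} {U s : Set (ℝ × ℝ)} (hU : IsOpen U) (hψ : ContDiffOn ℝ 1 ψ U)
    (hj : ∀ u ∈ U, 0 < jac (fderiv ℝ ψ u (1, 0)) (fderiv ℝ ψ u (0, 1)))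
    (hs : MeasurableSet s) (hsU : s ⊆ U) (hinj : InjOn ψ s)
    (hb : Bornology.IsBounded (ψ '' s))
    (hi : IntegrableOn (fun u => jac (fderiv ℝ ψ u (1, 0)) (fderiv ℝ ψ u (0, 1))) s)
    {n : ℝ × ℝ → E3} (hn : ∀ u ∈ s, ‖n u‖ = 1 ∧ inner ℝ (n u) (fderiv ℝ ψ u (1, 0)) = 0 ∧
      inner ℝ (n u) (fderiv ℝ ψ u (0, 1)) = 0) :
    Second (fun t => (μH[2] (φ t '' (ψ '' s))).toReal)
      (cH * ∫ u in s, jac (fderiv ℝ ψ u (1, 0)) (fderiv ℝ ψ u (0, 1)) *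
        qform (M (ψ u)) (W (ψ u)) (n u)) := sorry

/-! ## F3: deformations from divergence-free fields -/

theorem trace_acc {X : E3 → E3} (hX : ContDiff ℝ ∞ X)
    (hdiv : ∀ x, LinearMap.trace ℝ E3 (fderiv ℝ X x).toLinearMap = 0) (x : E3) :
    LinearMap.trace ℝ E3 (fderiv ℝ (fun y => fderiv ℝ X y (X y)) x).toLinearMap =
      LinearMap.trace ℝ E3 ((fderiv ℝ X x).comp (fderiv ℝ X x)).toLinearMap := sorry

theorem exists_test_deformation {k : ℕ} (Ω : Fin k → Set E3) (ho : ∀ i, IsOpen (Ω i))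
    (hb : ∀ i, Bornology.IsBounded (Ω i)) (hne : ∀ i, (Ω i).Nonempty)
    (hd : Pairwise fun i j => Disjoint (Ω i) (Ω j)) {X : E3 → E3} (hX : ContDiff ℝ ∞ X)
    (hc : HasCompactSupport X)
    (hdiv : ∀ x, LinearMap.trace ℝ E3 (fderiv ℝ X x).toLinearMap = 0) :
    ∃ (φ : ℝ → E3 → E3) (ε : ℝ), 0 < ε ∧ IsDeformation φ ∧ PreservesVolumes Ω φ ∧
      (∀ x, HasDerivAt (fun t => fderiv ℝ (φ t) x) (ε • fderiv ℝ X x) 0) ∧
      (∀ x, HasDerivAt (fun t => deriv (fun s => fderiv ℝ (φ s) x) t)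
        (ε ^ 2 • fderiv ℝ (fun y => fderiv ℝ X y (X y)) x) 0) := sorry

/-! ## F4: the test field -/

theorem fieldX_contDiff {χ : E3 → ℝ} (hχ : ContDiff ℝ ∞ χ) : ContDiff ℝ ∞ (fieldX χ) := sorry

theorem fieldX_compact {χ : E3 → ℝ} (hχ : ContDiff ℝ ∞ χ) (hc : HasCompactSupport χ) :
    HasCompactSupport (fieldX χ) := sorry

theorem fieldX_div {χ : E3 → ℝ} (hχ : ContDiff ℝ ∞ χ) (x : E3) :
    LinearMap.trace ℝ E3 (fderiv ℝ (fieldX χ) x).toLinearMap = 0 := sorry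

/-! ## F5: the pointwise identity -/

theorem qform_fieldX {χ : E3 → ℝ} (hχ : ContDiff ℝ ∞ χ) {U : Set E3} (hU : IsOpen U)
    (hone : ∀ x ∈ U, χ x = 1) {x : E3} (hx : x ∈ U) {n : E3} (hn : ‖n‖ = 1) :
    qform (fderiv ℝ (fieldX χ) x) (fderiv ℝ (accX χ) x) n =
      om x ^ 2 * psi (et x) (n 2 - et x * inner ℝ x n) (1 - om x) (om x * inner ℝ x n) := sorry

/-! ## F6: the cubature formula -/

theorem pw_pos (i : PIdx) : 0 < pw i := sorry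

theorem norm_pole (i : PIdx) : ‖pole i‖ = 1 := sorry

theorem cubature {e m : ℝ} {y N : E3} (hy : ‖y‖ ^ 2 = 1 - e ^ 2) (hN : ‖N‖ ^ 2 = 1 - m ^ 2)
    (hyN : inner ℝ y N = -(e * m)) :
    ∑ i : PIdx, pw i * psi e m (inner ℝ (pole i) y) (inner ℝ (pole i) N) = Phi e m := sorry

/-! ## F7: the second variation of one film -/

theorem film_lt_top {w0 wt : ℝ} {wv : E3} (hw : w0 ^ 2 + ‖wv‖ ^ 2 - wt ^ 2 = 1) (hwv : wv ≠ 0)
    {S : Set E4} (hS1 : ∀ Y ∈ S, ‖Y‖ = 1)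
    (hS2 : ∀ Y ∈ S, w0 * Y 0 + inner ℝ wv (vec Y) = wt) : μH[2] S < ⊤ := sorry

theorem exists_perp {w : E3} (hw : w ≠ 0) : ∃ a b : E3, Perp w a b := sorry

theorem film_integral {w0 wt : ℝ} {wv a' b' : E3} (hw : w0 ^ 2 + ‖wv‖ ^ 2 - wt ^ 2 = 1)
    (hwv : wv ≠ 0) (hab : Perp wv a' b') {S : Set E4} (hS : MeasurableSet S)
    (hS1 : ∀ Y ∈ S, ‖Y‖ = 1) (hS2 : ∀ Y ∈ S, w0 * Y 0 + inner ℝ wv (vec Y) = wt) (h : E4 → ℝ) :
    ∫ Y in S, h Y ∂μH[2] =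
      cH / ‖wv‖ * ∫ u in {u : ℝ × ℝ | 0 < rho2 w0 wt wv u.1 ∧ u.2 ∈ Ioc (-Real.pi) Real.pi ∧
        fpar w0 wt wv a' b' u ∈ S}, h (fpar w0 wt wv a' b' u) := sorry

theorem film_second {a b p : E3} (hF : Frame a b p) {χ : E3 → ℝ} (hχ : ContDiff ℝ ∞ χ)
    {U : Set E3} (hU : IsOpen U) (hone : ∀ x ∈ U, χ x = 1) {φ : ℝ → E3 → E3}
    (hφ : IsDeformation φ) {ε : ℝ}
    (hM : ∀ x, HasDerivAt (fun t => fderiv ℝ (φ t) x) (ε • fderiv ℝ (fieldX χ) x) 0)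
    (hW : ∀ x, HasDerivAt (fun t => deriv (fun s => fderiv ℝ (φ s) x) t)
      (ε ^ 2 • fderiv ℝ (accX χ) x) 0)
    {w0 wt : ℝ} {wv : E3} (hw : w0 ^ 2 + ‖wv‖ ^ 2 - wt ^ 2 = 1) (hwv : wv ≠ 0)
    {S : Set E4} (hS : MeasurableSet S) (hS1 : ∀ Y ∈ S, ‖Y‖ = 1)
    (hS2 : ∀ Y ∈ S, w0 * Y 0 + inner ℝ wv (vec Y) = wt)
    (hSp : ∀ Y ∈ S, inner ℝ p (vec Y) ≠ 1)
    (hSb : Bornology.IsBounded (st a b p '' S)) (hSU : ∀ Y ∈ S, st a b p Y ∈ U) :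
    Second (fun t => (μH[2] (φ t '' (st a b p '' S))).toReal)
      (ε ^ 2 * ∫ Y in S, psi (Y 0) (w0 - wt * Y 0) (inner ℝ p (vec Y))
        (inner ℝ p (nvec wv wt Y)) ∂μH[2]) := sorry

/-! ## F9: assembly of the field part -/

theorem unstable_of_total {n k : ℕ} (Ω : PIdx → Fin k → Set E3) (a b : PIdx → E3)
    (hF : ∀ i, Frame (a i) (b i) (pole i))
    (ho : ∀ i j, IsOpen (Ω i j)) (hb : ∀ i j, Bornology.IsBounded (Ω i j))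
    (hne : ∀ i j, (Ω i j).Nonempty)
    (hd : ∀ i, Pairwise fun j l => Disjoint (Ω i j) (Ω i l))
    (w0 wt : Fin n → Fin n → ℝ) (wv : Fin n → Fin n → E3) (S : Fin n → Fin n → Set E4)
    (hS : ∀ j l, IsCompact (S j l)) (hS1 : ∀ j l, ∀ Y ∈ S j l, ‖Y‖ = 1)
    (hS2 : ∀ j l, ∀ Y ∈ S j l, w0 j l * Y 0 + inner ℝ (wv j l) (vec Y) = wt j l)
    (hw : ∀ j l, j < l → (S j l).Nonempty →
      w0 j l ^ 2 + ‖wv j l‖ ^ 2 - wt j l ^ 2 = 1 ∧ wv j l ≠ 0)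
    (hSp : ∀ i j l, ∀ Y ∈ S j l, inner ℝ (pole i) (vec Y) ≠ 1)
    (harea : ∀ i φ t, area (Ω i) φ t = ∑ j : Fin n, ∑ l : Fin n,
      if j < l then (μH[2] (φ t '' (st (a i) (b i) (pole i) '' S j l))).toReal else 0)
    (hneg : ∑ j : Fin n, ∑ l : Fin n, (if j < l then
      ∫ Y in S j l, Phi (Y 0) (w0 j l - wt j l * Y 0) ∂μH[2] else 0) < 0) :
    ∃ i φ, IsDeformation φ ∧ PreservesVolumes (Ω i) φ ∧
      ∃ A2 < 0, Second (area (Ω i) φ) A2 := sorry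

end Kusner
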