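import Pool.Agent.helper14.Kus3.Flip
import Pool.Agent.helper35.Kus3.F9

/-!
# Assembly of the field part, with first derivative zero
-/

open Set Metric MeasureTheory
open scoped ContDiff Topology

namespace Kusner.V

open P P.Asm

theorem second1_zero : Second1 (fun _ => (0 : ℝ)) 0 0 :=
  ⟨fun _ => 0, fun t => hasDerivAt_const t 0, rfl, hasDerivAt_const 0 0⟩

theorem second1_sum {ι : Type*} (s : Finset ι) {A : ι → ℝ → ℝ} {a1 a2 : ι → ℝ}
    (h : ∀ i ∈ s, Second1 (A i) (a1 i) (a2 i)) :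
    Second1 (fun t => ∑ i ∈ s, A i t) (∑ i ∈ s, a1 i) (∑ i ∈ s, a2 i) := by
  classical
  choose! A' hA' using h
  refine ⟨fun t => ∑ i ∈ s, A' i t, fun t => ?_, ?_, ?_⟩
  · exact HasDerivAt.fun_sum fun i hi => (hA' i hi).1 t
  · exact Finset.sum_congr rfl fun i hi => (hA' i hi).2.1
  · exact HasDerivAt.fun_sum fun i hi => (hA' i hi).2.2

/-- A symmetric function on pairs which changes sign under a permutation has sum zero. -/
theorem sum_zero {n : ℕ} {H : Fin n → Fin n → ℝ} (hs : ∀ j l, H l j = H j l)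
    (τ : Equiv.Perm (Fin n)) (hτ : ∀ j l, j ≠ l → H (τ j) (τ l) = -H j l) :
    ∑ j : Fin n, ∑ l : Fin n, (if j < l then H j l else 0) = 0 := by
  have h1 : ∑ j : Fin n, ∑ l : Fin n, (if j < l then H j l else 0) =
      ∑ j : Fin n, ∑ l : Fin n, (if l < j then H j l else 0) := by
    rw [Finset.sum_comm]
    refine Finset.sum_congr rfl fun j _ => Finset.sum_congr rfl fun l _ => ?_
    rw [hs]
  have h2 : ∑ j : Fin n, ∑ l : Fin n, (if j ≠ l then H j l else 0) =
      ∑ j : Fin n, ∑ l : Fin n, (if j < l then H j l else 0) +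
        ∑ j : Fin n, ∑ l : Fin n, (if l < j then H j l else 0) := by
    rw [← Finset.sum_add_distrib]
    refine Finset.sum_congr rfl fun j _ => ?_
    rw [← Finset.sum_add_distrib]
    refine Finset.sum_congr rfl fun l _ => ?_
    rcases lt_trichotomy j l with h | h | h
    · simp [h, h.ne, h.not_gt]
    · simp [h]
    · simp [h, h.ne', h.not_gt]
  have h3 : ∑ j : Fin n, ∑ l : Fin n, (if j ≠ l then H j l else 0) =
      -∑ j : Fin n, ∑ l : Fin n, (if j ≠ l then H j l else 0) := by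
    conv_lhs =>
      rw [← Equiv.sum_comp τ]
      arg 2
      ext j
      rw [← Equiv.sum_comp τ]
    rw [← Finset.sum_neg_distrib]
    refine Finset.sum_congr rfl fun j _ => ?_
    rw [← Finset.sum_neg_distrib]
    refine Finset.sum_congr rfl fun l _ => ?_
    by_cases h : j = l
    · simp [h]
    · have h' : τ j ≠ τ l := fun h'' => h (τ.injective h'')
      rw [if_pos h, if_pos h', hτ j l h]
  linarith

/-- First and second variation for one pole. -/
theorem second_pole1 {n k : ℕ} (Ω : Fin k → Set E3) {a b p : E3} (hF : Frame a b p)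
    (ho : ∀ j, IsOpen (Ω j)) (hb : ∀ j, Bornology.IsBounded (Ω j))
    (hne : ∀ j, (Ω j).Nonempty) (hd : Pairwise fun j l => Disjoint (Ω j) (Ω l))
    (w0 wt : Fin n → Fin n → ℝ) (wv : Fin n → Fin n → E3) (S : Fin n → Fin n → Set E4)
    (hS : ∀ j l, IsCompact (S j l)) (hS1 : ∀ j l, ∀ Y ∈ S j l, ‖Y‖ = 1)
    (hS2 : ∀ j l, ∀ Y ∈ S j l, w0 j l * Y 0 + inner ℝ (wv j l) (vec Y) = wt j l)
    (hw : ∀ j l, j < l → (S j l).Nonempty →
      w0 j l ^ 2 + ‖wv j l‖ ^ 2 - wt j l ^ 2 = 1 ∧ wv j l ≠ 0)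
    (hSp : ∀ j l, ∀ Y ∈ S j l, inner ℝ p (vec Y) ≠ 1)
    (hanti : ∀ j l, w0 l j = -w0 j l ∧ wt l j = -wt j l ∧ wv l j = -wv j l ∧ S l j = S j l)
    (τ : Equiv.Perm (Fin n))
    (hτ : ∀ j l, w0 (τ j) (τ l) = -w0 j l ∧ wt (τ j) (τ l) = wt j l ∧
      wv (τ j) (τ l) = wv j l ∧ S (τ j) (τ l) = flip4 '' S j l)
    (harea : ∀ φ t, area Ω φ t = ∑ j : Fin n, ∑ l : Fin n,
      if j < l then (μH[2] (φ t '' (st a b p '' S j l))).toReal else 0) :
    ∃ (φ : ℝ → E3 → E3) (ε : ℝ), 0 < ε ∧ IsDeformation φ ∧ PreservesVolumes Ω φ ∧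
      Second1 (area Ω φ) 0 (ε ^ 2 * ∑ j : Fin n, ∑ l : Fin n,
        if j < l then ∫ Y in S j l, fi p (w0 j l) (wt j l) (wv j l) Y ∂μH[2] else 0) := by
  classical
  -- a ball containing all films
  have hK : ∀ j l, IsCompact (st a b p '' S j l) := fun j l =>
    (hS j l).image_of_continuousOn (st_continuousOn a b p (hSp j l))
  have hKu : IsCompact (⋃ j, ⋃ l, st a b p '' S j l) :=
    isCompact_iUnion fun j => isCompact_iUnion fun l => hK j l
  obtain ⟨R0, hR0⟩ := hKu.isBounded.subset_ball 0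
  set R : ℝ := max R0 1 with hRdef
  have hR : 0 < R := lt_of_lt_of_le one_pos (le_max_right _ _)
  let χ : ContDiffBump (0 : E3) := ⟨R, R + 1, hR, by linarith⟩
  have hχ : ContDiff ℝ ∞ (χ : E3 → ℝ) := χ.contDiff
  have hχc : HasCompactSupport (χ : E3 → ℝ) := χ.hasCompactSupport
  have hone : ∀ x ∈ ball (0 : E3) R, χ x = 1 := fun x hx =>
    χ.one_of_mem_closedBall (ball_subset_closedBall hx)
  obtain ⟨φ, ε, hε, hφ, hvol, hM, hW⟩ := exists_test_deformation Ω ho hb hne hd
    (fieldX_contDiff hχ) (fieldX_compact hχ hχc) (fieldX_div hχ)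
  refine ⟨φ, ε, hε, hφ, hvol, ?_⟩
  have hW' : ∀ x, HasDerivAt (fun t => deriv (fun s => fderiv ℝ (φ s) x) t)
      (ε ^ 2 • fderiv ℝ (accX χ) x) 0 := hW
  have hball : ∀ j l, st a b p '' S j l ⊆ ball 0 R := by
    intro j l
    refine Subset.trans ?_ (ball_subset_ball (le_max_left R0 1))
    refine Subset.trans ?_ hR0
    exact Subset.trans (subset_iUnion (fun l => st a b p '' S j l) l)
      (subset_iUnion (fun j => ⋃ l, st a b p '' S j l) j)
  have hone1 : ∀ j l, Second1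
      (fun t => if j < l then (μH[2] (φ t '' (st a b p '' S j l))).toReal else 0)
      (ε * if j < l then ∫ Y in S j l, psiF χ a b p (w0 j l) (wt j l) (wv j l) Y ∂μH[2] else 0)
      (ε ^ 2 * if j < l then ∫ Y in S j l, fi p (w0 j l) (wt j l) (wv j l) Y ∂μH[2] else 0) := by
    intro j l
    by_cases hjl : j < l
    · simp only [if_pos hjl]
      rcases (S j l).eq_empty_or_nonempty with he | hn
      · rw [he]
        simp only [image_empty, measure_empty, ENNReal.toReal_zero, Measure.restrict_empty,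
          integral_zero_measure, mul_zero]
        exact second1_zero
      · obtain ⟨hw1, hw2⟩ := hw j l hjl hn
        exact film_second1 hF hχ isOpen_ball hone hφ hM hW' hw1 hw2 (hS j l).measurableSet
          (hS1 j l) (hS2 j l) (hSp j l) (hK j l).isBounded
          (fun Y hY => hball j l (mem_image_of_mem _ hY))
    · simp only [if_neg hjl, mul_zero]
      exact second1_zero
  have hsum := second1_sum Finset.univ
    (fun j _ => second1_sum Finset.univ (fun l _ => hone1 j l))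
  have h1 : area Ω φ = fun t => ∑ j : Fin n, ∑ l : Fin n,
      if j < l then (μH[2] (φ t '' (st a b p '' S j l))).toReal else 0 := by
    funext t
    exact harea φ t
  have hzero : ∑ j : Fin n, ∑ l : Fin n, (if j < l then
      ∫ Y in S j l, psiF χ a b p (w0 j l) (wt j l) (wv j l) Y ∂μH[2] else 0) = 0 := by
    refine sum_zero (H := fun j l =>
      ∫ Y in S j l, psiF χ a b p (w0 j l) (wt j l) (wv j l) Y ∂μH[2]) ?_ τ ?_
    · intro j l
      obtain ⟨e1, e2, e3, e4⟩ := hanti j l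
      simp only [e1, e2, e3, e4, psiF_neg]
    · intro j l _
      obtain ⟨e1, e2, e3, e4⟩ := hτ j l
      simp only [e1, e2, e3, e4]
      rw [integral_flip4, ← integral_neg]
      refine setIntegral_congr_fun (hS j l).measurableSet fun Y hY => ?_
      refine psiF_flip hχ isOpen_ball hone (fun x hx => ?_) _ _ _ (hSp j l Y hY)
        (hball j l (mem_image_of_mem _ hY))
      rw [mem_ball_zero_iff, norm_fl]
      exact mem_ball_zero_iff.1 hx
  rw [h1]
  simp only [Finset.mul_sum]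
  have h2 : ∑ j : Fin n, ∑ l : Fin n, (ε * if j < l then
      ∫ Y in S j l, psiF χ a b p (w0 j l) (wt j l) (wv j l) Y ∂μH[2] else 0) = 0 := by
    simp only [← Finset.mul_sum]
    rw [hzero, mul_zero]
  rw [h2] at hsum
  exact hsum

theorem unstable_of_total1 {n k : ℕ} (Ω : PIdx → Fin k → Set E3) (a b : PIdx → E3)
    (hF : ∀ i, Frame (a i) (b i) (pole i))
    (ho : ∀ i j, IsOpen (Ω i j)) (hb : ∀ i j, Bornology.IsBounded (Ω i j))
    (hne : ∀ i j, (Ω i j).Nonempty)
    (hd : ∀ i, Pairwise fun j l => Disjoint (Ω i j) (Ω i l))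
    (w0 wt : Fin n → Fin n → ℝ) (wv : Fin n → Fin n → E3) (S : Fin n → Fin n → Set E4)
    (hS : ∀ j l, IsCompact (S j l)) (hS1 : ∀ j l, ∀ Y ∈ S j l, ‖Y‖ = 1)
    (hS2 : ∀ j l, ∀ Y ∈ S j l, w0 j l * Y 0 + inner ℝ (wv j l) (vec Y) = wt j l)
    (hw : ∀ j l, j < l → (S j l).Nonempty →
      w0 j l ^ 2 + ‖wv j l‖ ^ 2 - wt j l ^ 2 = 1 ∧ wv j l ≠ 0)
    (hSp : ∀ i j l, ∀ Y ∈ S j l, inner ℝ (pole i) (vec Y) ≠ 1)
    (hanti : ∀ j l, w0 l j = -w0 j l ∧ wt l j = -wt j l ∧ wv l j = -wv j l ∧ S l j = S j l)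
    (τ : Equiv.Perm (Fin n))
    (hτ : ∀ j l, w0 (τ j) (τ l) = -w0 j l ∧ wt (τ j) (τ l) = wt j l ∧
      wv (τ j) (τ l) = wv j l ∧ S (τ j) (τ l) = flip4 '' S j l)
    (harea : ∀ i φ t, area (Ω i) φ t = ∑ j : Fin n, ∑ l : Fin n,
      if j < l then (μH[2] (φ t '' (st (a i) (b i) (pole i) '' S j l))).toReal else 0)
    (hneg : ∑ j : Fin n, ∑ l : Fin n, (if j < l then
      ∫ Y in S j l, Phi (Y 0) (w0 j l - wt j l * Y 0) ∂μH[2] else 0) < 0) :
    ∃ i φ, IsDeformation φ ∧ PreservesVolumes (Ω i) φ ∧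
      ∃ A2 < 0, Second1 (area (Ω i) φ) 0 A2 := by
  classical
  set I : PIdx → ℝ := fun i => ∑ j : Fin n, ∑ l : Fin n,
    if j < l then ∫ Y in S j l, fi (pole i) (w0 j l) (wt j l) (wv j l) Y ∂μH[2] else 0 with hI
  have hone : ∀ j l, (∑ i : PIdx, pw i *
      (if j < l then ∫ Y in S j l, fi (pole i) (w0 j l) (wt j l) (wv j l) Y ∂μH[2] else 0)) =
      if j < l then ∫ Y in S j l, Phi (Y 0) (w0 j l - wt j l * Y 0) ∂μH[2] else 0 := by
    intro j l
    by_cases hjl : j < l
    · simp only [if_pos hjl]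
      rcases (S j l).eq_empty_or_nonempty with he | hn
      · rw [he]
        simp
      · obtain ⟨hw1, hw2⟩ := hw j l hjl hn
        have hfin : μH[2] (S j l) < ⊤ := P.film_lt_top hw1 hw2 (hS1 j l) (hS2 j l)
        have hint : ∀ i : PIdx, IntegrableOn (fun Y => pw i * fi (pole i) (w0 j l) (wt j l)
            (wv j l) Y) (S j l) μH[2] := fun i =>
          integrableOn_of_continuous (hS j l) hfin
            (continuous_const.mul (continuous_fi (pole i) (w0 j l) (wt j l) (wv j l)))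
        have h1 : ∀ i : PIdx, pw i * ∫ Y in S j l, fi (pole i) (w0 j l) (wt j l) (wv j l) Y ∂μH[2]
            = ∫ Y in S j l, pw i * fi (pole i) (w0 j l) (wt j l) (wv j l) Y ∂μH[2] := fun i =>
          (integral_const_mul _ _).symm
        simp only [h1]
        rw [← integral_finsetSum Finset.univ (fun i _ => hint i)]
        refine setIntegral_congr_fun (hS j l).measurableSet fun Y hY => ?_
        exact cubature_film hw1 (hS1 j l Y hY) (hS2 j l Y hY)
    · simp only [if_neg hjl, mul_zero, Finset.sum_const_zero]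
  have htot : ∑ i : PIdx, pw i * I i < 0 := by
    have h2 : ∑ i : PIdx, pw i * I i = ∑ j : Fin n, ∑ l : Fin n, (if j < l then
        ∫ Y in S j l, Phi (Y 0) (w0 j l - wt j l * Y 0) ∂μH[2] else 0) := by
      simp only [hI, Finset.mul_sum]
      rw [Finset.sum_comm]
      refine Finset.sum_congr rfl fun j _ => ?_
      rw [Finset.sum_comm]
      refine Finset.sum_congr rfl fun l _ => ?_
      exact hone j l
    rw [h2]
    exact hneg
  obtain ⟨i, hi⟩ : ∃ i, I i < 0 := by
    by_contra hcon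
    push Not at hcon
    have : 0 ≤ ∑ i : PIdx, pw i * I i :=
      Finset.sum_nonneg fun i _ => mul_nonneg (P.pw_pos i).le (hcon i)
    linarith
  obtain ⟨φ, ε, hε, hφ, hvol, hsec⟩ := second_pole1 (Ω i) (hF i) (ho i) (hb i) (hne i) (hd i)
    w0 wt wv S hS hS1 hS2 hw (hSp i) hanti τ hτ (harea i)
  exact ⟨i, φ, hφ, hvol, _, mul_neg_of_pos_of_neg (pow_pos hε 2) hi, hsec⟩

end Kusner.V
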