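import Pool.Agent.helper35.Kus3.F9
import Pool.Agent.helper14.Kus3.Unst1

/-!
# The field part
-/

open Set Metric MeasureTheory
open scoped ContDiff Topology

namespace Kusner

alias exists_test_deformation := P.exists_test_deformation
alias unstable_of_total := P.unstable_of_total
alias unstable_of_total1 := V.unstable_of_total1
alias film_image_lt_top := V.film_image_lt_top

theorem Second1.deriv_eq {A : ℝ → ℝ} {a1 a2 : ℝ} (h : Second1 A a1 a2) :
    Differentiable ℝ A ∧ deriv A 0 = a1 ∧ HasDerivAt (deriv A) a2 0 := by
  obtain ⟨A', h1, h2, h3⟩ := h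
  have e : deriv A = A' := funext fun t => (h1 t).deriv
  exact ⟨fun t => (h1 t).differentiableAt, by rw [e, h2], by rw [e]; exact h3⟩

end Kusner
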