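import Pool.Agent.helper14.Kus3.NumDefs

/-!
# Certificate for the film a3-a2
-/

namespace Kusner.Num

/-- Film a3-a2; constraints: C, C7, 310, 220, 211, x, y, n3. -/
def fA32 : QFilm where
  w0 := (13249197/10000000)
  wv := ⟨0, (6189899/10000000), (10015467/10000000)⟩
  wt := (18293/12500)
  a := ⟨1, 0, 0⟩
  b := ⟨0, (-2126627/2500000), (5257311/10000000)⟩
  cons := [
    ⟨(-23249197/10000000), ⟨0, (-34664989/10000000), (-5608913/1000000)⟩, (-13839331/2000000)⟩,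
    ⟨(-3249197/10000000), ⟨0, (-34664989/10000000), (-5608913/1000000)⟩, (-12439331/2000000)⟩,
    ⟨(-13249197/10000000), ⟨0, (-24421617/10000000), (-23334667/10000000)⟩, (-17438917/5000000)⟩,
    ⟨(-13249197/10000000), ⟨0, (-34664989/10000000), (-4825429/2000000)⟩, (-37234671/10000000)⟩,
    ⟨(-13249197/10000000), ⟨(2128777/2500000), (-29664989/10000000), (-25706119/10000000)⟩, (-18624643/5000000)⟩,
    ⟨0, ⟨(-1), 0, 0⟩, 0⟩,
    ⟨0, ⟨0, (-1), 0⟩, 0⟩,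
    ⟨0, ⟨(809017/1000000), (1/2), (-309017/1000000)⟩, 0⟩]

def sA32 : List QStrip := [
  ⟨0, (1/10), 0, 1, 4, []⟩,
  ⟨(1/10), (1/5), 0, 1, 4, []⟩,
  ⟨(1/5), (19/80), 0, 1, 4, []⟩,
  ⟨(19/80), (6057/25000), 0, 1, 4, []⟩,
  ⟨(6057/25000), (24233/100000), 0, 1, 4, []⟩,
  ⟨(24233/100000), (12119/50000), 0, (31/5000), 1, [((-1), 0), ((-41/100), 0), (0, 0), ((41/100), 0), (1, 0)]⟩,
  ⟨(12119/50000), (24243/100000), 0, (139/12500), 1, [((-1), 0), ((-41/100), 0), (0, 0), ((41/100), 0), (1, 0)]⟩,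
  ⟨(24243/100000), (3031/12500), (9/5000), (361/25000), 1, [((-1), 8), ((4817/10000), 0), (1, 0)]⟩,
  ⟨(3031/12500), (9/10), (469/50000), (21137/20000), 3, [((-1), 8), ((3249/10000), 3), (1, 0)]⟩,
  ⟨(9/10), 1, 0, (9257/25000), 3, [((-1), 1), ((3249/10000), 1), (1, 0)]⟩]

theorem okA32 : pieceOK fA32 (1/1000000) (4/100000) (1/50) 0 1 sA32 (3679/3125) (117749/100000) (3/625) = true := by
  decide +kernel

end Kusner.Num
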