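import Pool.Agent.helper14.Kus3.NumDefs

/-!
# Real constraints and closeness to the rational data
-/

open Set Metric MeasureTheory
open scoped ContDiff Topology

namespace Kusner.Num

/-- The slice of a planar set at height `e`. -/
def slice (D : Set (ℝ × ℝ)) (e : ℝ) : Set ℝ := {θ | (e, θ) ∈ D}

/-! ## Real constraints and closeness -/

/-- A real constraint `u0 Y₀ + ⟪u, vec Y⟫ - ut ≤ 0`. -/
structure Con where
  u0 : ℝ
  u : E3
  ut : ℝ

/-- The value of a constraint. -/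
noncomputable def Con.val (g : Con) (Y : E4) : ℝ := g.u0 * Y 0 + inner ℝ g.u (vec Y) - g.ut

/-- `x` is within `δ` of the rational `q`. -/
def Near (δ : ℚ) (x : ℝ) (q : ℚ) : Prop := |x - (q : ℝ)| ≤ (δ : ℝ)

def Near3 (δ : ℚ) (v : E3) (q : Q3) : Prop :=
  Near δ (v 0) q.x ∧ Near δ (v 1) q.y ∧ Near δ (v 2) q.z

def NearC (δ : ℚ) (g : Con) (q : QCon) : Prop :=
  Near δ g.u0 q.u0 ∧ Near3 δ g.u q.u ∧ Near δ g.ut q.ut

/-- The real data of a film are within `δ` of the rational data `f`. -/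
structure FilmClose (δ : ℚ) (f : QFilm) (w0 wt : ℝ) (wv a b : E3) (cons : List Con) : Prop where
  w0 : Near δ w0 f.w0
  wt : Near δ wt f.wt
  wv : Near3 δ wv f.wv
  a : Near3 δ a f.a
  b : Near3 δ b f.b
  cons : List.Forall₂ (NearC δ) cons f.cons

/-- The four numbers of a constraint in the coordinates `(e, θ)`. -/
noncomputable def cP (wt : ℝ) (wv : E3) (g : Con) : ℝ :=
  inner ℝ g.u wv / ‖wv‖ ^ 2 * wt - g.ut
noncomputable def cQ (w0 : ℝ) (wv : E3) (g : Con) : ℝ :=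
  g.u0 - inner ℝ g.u wv / ‖wv‖ ^ 2 * w0

end Kusner.Num
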