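import Pool.Agent.helper14.Kus3.NumCon
import Pool.Agent.helper14.Kus3.If

/-!
# Soundness of the checker (statements, all sorried; never import in a hand-in)
-/

open Set Metric MeasureTheory
open scoped ContDiff Topology

namespace Kusner.Num

/-! ## N1: coefficient lists -/

theorem evL_cast (l : List ℚ) (q : ℚ) : evL l (q : ℝ) = (evQ l q : ℚ) := sorry

theorem evL_addL (k l : List ℚ) (x : ℝ) : evL (addL k l) x = evL k x + evL l x := sorry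

theorem evL_scL (c : ℚ) (l : List ℚ) (x : ℝ) : evL (scL c l) x = c * evL l x := sorry

theorem evL_mulL (k l : List ℚ) (x : ℝ) : evL (mulL k l) x = evL k x * evL l x := sorry

theorem evL_shL (l : List ℚ) (x : ℚ) (h : ℝ) : evL (shL l x) h = evL l (x + h) := sorry

theorem evL_continuous (l : List ℚ) : Continuous (evL l) := sorry

/-- `ubI` is an upper bound on the interval. -/
theorem evL_le_ubI (l : List ℚ) {e0 e1 : ℚ} {e : ℝ} (h0 : (e0 : ℝ) ≤ e) (h1 : e ≤ e1) :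
    evL l e ≤ (ubI l e0 e1 : ℚ) := sorry

theorem integral_evL (l : List ℚ) (e0 e1 : ℚ) :
    ∫ e in (e0 : ℝ)..e1, evL l e = (intQ l e0 e1 : ℚ) := sorry

theorem evL_phiL (w0 wt : ℚ) (e : ℝ) : evL (phiL w0 wt) e = Phi e (w0 - wt * e) := sorry

/-! ## N2: Lipschitz bound of `Phi` -/

theorem Phi_lip {e m m' : ℝ} (he : 0 ≤ e) (he' : e ≤ 3 / 5) (hm : |m| ≤ 5 / 2)
    (hm' : |m'| ≤ 5 / 2) : |Phi e m - Phi e m'| ≤ 10000 * |m - m'| := sorry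

/-! ## N3: arcs of the unit circle -/

theorem arc_lower {τ0 τ1 : ℚ} (h : τ0 < τ1) (h' : 0 < 1 + τ0 * τ1) {θ : ℝ}
    (hθ : 2 * Real.arctan τ0 ≤ θ) (hθ' : θ ≤ 2 * Real.arctan τ1) {b1 b2 m : ℝ}
    (h0 : m ≤ b1 * (cq τ0 : ℚ) + b2 * (sq τ0 : ℚ)) (h1 : m ≤ b1 * (cq τ1 : ℚ) + b2 * (sq τ1 : ℚ)) :
    (if 0 ≤ m then m else (kap τ0 τ1 : ℚ) * m) ≤ b1 * Real.cos θ + b2 * Real.sin θ := sorry

theorem arc_upper {τ0 τ1 : ℚ} (h : τ0 < τ1) (h' : 0 < 1 + τ0 * τ1) {θ : ℝ}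
    (hθ : 2 * Real.arctan τ0 ≤ θ) (hθ' : θ ≤ 2 * Real.arctan τ1) {b1 b2 m : ℝ}
    (h0 : b1 * (cq τ0 : ℚ) + b2 * (sq τ0 : ℚ) ≤ m) (h1 : b1 * (cq τ1 : ℚ) + b2 * (sq τ1 : ℚ) ≤ m) :
    b1 * Real.cos θ + b2 * Real.sin θ ≤ (if m ≤ 0 then m else (kap τ0 τ1 : ℚ) * m) := sorry

theorem arc_len_le {τ0 τ1 : ℚ} (h : τ0 < τ1) (h' : 0 < 1 + τ0 * τ1) :
    2 * Real.arctan τ1 - 2 * Real.arctan τ0 ≤ (arcHi τ0 τ1 : ℚ) := sorry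

theorem le_arc_len {τ0 τ1 : ℚ} (h : τ0 < τ1) (h' : 0 < 1 + τ0 * τ1) :
    ((arcLo τ0 τ1 : ℚ) : ℝ) ≤ 2 * Real.arctan τ1 - 2 * Real.arctan τ0 := sorry

/-! ## N4: Fubini for strips -/

/-- If the vertical strips `[e i, e (i+1)]`, `i < n`, cover `D` and on each of them
`∫ f(e) |slice e| ≤ v i` pointwise bounds hold, then the integral over `D` is at most the sum. -/
theorem strip_bound {D : Set (ℝ × ℝ)} (hD : MeasurableSet D) {f : ℝ → ℝ} (hf : Continuous f)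
    (n : ℕ) (e v : ℕ → ℝ) (hmono : ∀ i < n, e i ≤ e (i + 1))
    (hcover : ∀ u ∈ D, e 0 ≤ u.1 ∧ u.1 ≤ e n) (hθ : ∀ u ∈ D, u.2 ∈ Ioc (-Real.pi) Real.pi)
    (hv : ∀ i < n, ∃ g : ℝ → ℝ, IntervalIntegrable g volume (e i) (e (i + 1)) ∧
      ∫ x in (e i)..(e (i + 1)), g x ≤ v i ∧
      ∀ x ∈ Ioo (e i) (e (i + 1)), f x * (volume (slice D x)).toReal ≤ g x) :
    ∫ u in D, f u.1 ≤ ∑ i ∈ Finset.range n, v i := sorry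

/-! ## N5: closeness of the derived numbers -/

theorem near_qc {δ ε : ℚ} (hδ : 0 ≤ δ) {f : QFilm} {w0 wt : ℝ} {wv a b : E3} {cons : List Con}
    (h : FilmClose δ f w0 wt wv a b cons) {g : Con} {q : QCon} (hg : NearC δ g q)
    (hok : nearOK f δ ε q = true) :
    |cP wt wv g - ((f.qc q).P : ℝ)| ≤ (ε : ℝ) ∧ |cQ w0 wv g - ((f.qc q).Q : ℝ)| ≤ (ε : ℝ) ∧
      |(inner ℝ g.u a : ℝ) - ((f.qc q).b1 : ℝ)| ≤ (ε : ℝ) ∧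
      |(inner ℝ g.u b : ℝ) - ((f.qc q).b2 : ℝ)| ≤ (ε : ℝ) := sorry

theorem near_film {δ ε : ℚ} (hδ : 0 ≤ δ) {f : QFilm} {w0 wt : ℝ} {wv a b : E3} {cons : List Con}
    (h : FilmClose δ f w0 wt wv a b cons) (hok : filmOK f δ ε = true) {e : ℚ} (he : 0 ≤ e)
    (he' : e ≤ 1) :
    |‖wv‖ ^ 2 - (f.W2 : ℝ)| ≤ (ε : ℝ) ∧ |rho2 w0 wt wv (e : ℝ) - (f.r2 e : ℝ)| ≤ (ε : ℝ) ∧
      |(-2 * (e : ℝ) + 2 * w0 * (wt - w0 * e) / ‖wv‖ ^ 2) - (f.dr2 e : ℝ)| ≤ (ε : ℝ) := sorry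

/-- Concavity: two-sided bounds of `rho2` on a strip. -/
theorem rho2_strip {w0 wt : ℝ} {wv : E3} (hwv : wv ≠ 0) {e0 e1 e : ℝ} (h0 : e0 ≤ e) (h1 : e ≤ e1) :
    min (rho2 w0 wt wv e0) (rho2 w0 wt wv e1) ≤ rho2 w0 wt wv e ∧
      rho2 w0 wt wv e ≤ rho2 w0 wt wv e0 +
        max 0 (-2 * e0 + 2 * w0 * (wt - w0 * e0) / ‖wv‖ ^ 2) * (e1 - e0) := sorry

/-! ## N6: boxes -/

/-- The constraint in coordinates. -/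
theorem val_fpar {w0 wt : ℝ} {wv a b : E3} (hwv : wv ≠ 0) (g : Con) (u : ℝ × ℝ) :
    g.val (fpar w0 wt wv a b u) = cP wt wv g + cQ w0 wv g * u.1 +
      Real.sqrt (rho2 w0 wt wv u.1) *
        (inner ℝ g.u a * Real.cos u.2 + inner ℝ g.u b * Real.sin u.2) := sorry

theorem box_lo {c : QC} {ε e0 e1 rlo rhi τ0 τ1 : ℚ} (hε : 0 ≤ ε) {P Q b1 b2 e r θ : ℝ}
    (hP : |P - (c.P : ℝ)| ≤ (ε : ℝ)) (hQ : |Q - (c.Q : ℝ)| ≤ (ε : ℝ))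
    (h1 : |b1 - (c.b1 : ℝ)| ≤ (ε : ℝ)) (h2 : |b2 - (c.b2 : ℝ)| ≤ (ε : ℝ))
    (hτ : τ0 < τ1) (hτ' : 0 < 1 + τ0 * τ1) (he0 : 0 ≤ e0) (he : (e0 : ℝ) ≤ e) (he' : e ≤ e1)
    (he1 : e1 ≤ 1) (hr0 : 0 ≤ rlo) (hr : (rlo : ℝ) ≤ r) (hr' : r ≤ rhi)
    (hθ : 2 * Real.arctan τ0 ≤ θ) (hθ' : θ ≤ 2 * Real.arctan τ1)
    (hok : 0 < c.lo ε e0 e1 rlo rhi τ0 τ1) :
    0 < P + Q * e + r * (b1 * Real.cos θ + b2 * Real.sin θ) := sorry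

theorem box_hi {c : QC} {ε e0 e1 rlo rhi τ0 τ1 : ℚ} (hε : 0 ≤ ε) {P Q b1 b2 e r θ : ℝ}
    (hP : |P - (c.P : ℝ)| ≤ (ε : ℝ)) (hQ : |Q - (c.Q : ℝ)| ≤ (ε : ℝ))
    (h1 : |b1 - (c.b1 : ℝ)| ≤ (ε : ℝ)) (h2 : |b2 - (c.b2 : ℝ)| ≤ (ε : ℝ))
    (hτ : τ0 < τ1) (hτ' : 0 < 1 + τ0 * τ1) (he0 : 0 ≤ e0) (he : (e0 : ℝ) ≤ e) (he' : e ≤ e1)
    (he1 : e1 ≤ 1) (hr0 : 0 ≤ rlo) (hr : (rlo : ℝ) ≤ r) (hr' : r ≤ rhi)
    (hθ : 2 * Real.arctan τ0 ≤ θ) (hθ' : θ ≤ 2 * Real.arctan τ1)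
    (hok : c.hi ε e0 e1 rlo rhi τ0 τ1 ≤ 0) :
    P + Q * e + r * (b1 * Real.cos θ + b2 * Real.sin θ) ≤ 0 := sorry

/-! ## N7: measure of slices -/

/-- Outer arcs: if each `θ ∈ T` has `cos θ ≥ 0` and `T` avoids the excluded arcs, then the
measure of `T` is at most `outLen`. -/
theorem volume_le_outLen {l : List (ℚ × ℕ)} {T : Set ℝ} (hT : T ⊆ Ioc (-Real.pi) Real.pi)
    (hcos : ∀ θ ∈ T, 0 ≤ Real.cos θ) (hhead : l.head?.map Prod.fst = some (-1))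
    (hlast : l.getLast?.map Prod.fst = some 1)
    (hsorted : l.IsChain fun x y => x.1 < y.1 ∧ 0 < 1 + x.1 * y.1)
    (hex : ∀ i (hi : i + 1 < l.length), (l[i]).2 ≠ 0 → ∀ θ ∈ T,
      ¬(2 * Real.arctan (l[i]).1 ≤ θ ∧ θ ≤ 2 * Real.arctan (l[i + 1]).1)) :
    volume T ≤ ENNReal.ofReal (outLen l : ℚ) := sorry

/-- Inner arcs: if the consecutive arcs are in `T`, the measure of `T` is at least `inLen`. -/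
theorem inLen_le_volume {l : List (ℚ × ℕ)} {T : Set ℝ}
    (hsorted : l.IsChain fun x y => x.1 < y.1 ∧ 0 < 1 + x.1 * y.1)
    (hin : ∀ i (hi : i + 1 < l.length), ∀ θ, 2 * Real.arctan (l[i]).1 ≤ θ →
      θ ≤ 2 * Real.arctan (l[i + 1]).1 → θ ∈ T) :
    ENNReal.ofReal (inLen l : ℚ) ≤ volume T := sorry

/-! ## N8: soundness of the checker -/

theorem piece_bound {f : QFilm} {δ ε errf ebot etop : ℚ} {strips : List QStrip}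
    {wlo whi bound : ℚ} (hok : pieceOK f δ ε errf ebot etop strips wlo whi bound = true)
    {w0 wt : ℝ} {wv a b : E3} {cons : List Con} (hcl : FilmClose δ f w0 wt wv a b cons)
    (hw : w0 ^ 2 + ‖wv‖ ^ 2 - wt ^ 2 = 1) (hwv : wv ≠ 0) (hab : Perp wv a b)
    {S : Set E4} (hS : MeasurableSet S) (hS1 : ∀ Y ∈ S, ‖Y‖ = 1)
    (hS2 : ∀ Y ∈ S, w0 * Y 0 + inner ℝ wv (vec Y) = wt)
    (hbot : ∀ Y ∈ S, (ebot : ℝ) ≤ Y 0) (htop : ∀ Y ∈ S, Y 0 ≤ etop)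
    (hcos : ∀ Y ∈ S, 0 ≤ inner ℝ a (vec Y))
    (hout : ∀ Y ∈ S, ∀ (j : ℕ) (g : Con), cons[j]? = some g → (j = 0 → 7 / 20 ≤ Y 0) →
      (j = 1 → Y 0 ≤ 7 / 20) → g.val Y ≤ 0)
    (hin : (∃ s ∈ strips, s.kind = 0) → ∀ Y : E4, ‖Y‖ = 1 →
      w0 * Y 0 + inner ℝ wv (vec Y) = wt → (ebot : ℝ) ≤ Y 0 →
      (∀ (j : ℕ) (g : Con), cons[j]? = some g → 2 ≤ j → g.val Y ≤ 0) →
      (∃ g, (cons[0]? = some g ∨ cons[1]? = some g) ∧ g.val Y ≤ 0) → Y ∈ S) :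
    ∫ Y in S, Phi (Y 0) (w0 - wt * Y 0) ∂μH[2] ≤ cH * bound := sorry

end Kusner.Num
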