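import Pool.Agent.helper14.Kus3.Frames

/-!
# The frames are orthonormal and perpendicular to the film vectors
-/

open Set

namespace Kus64.NN

namespace Fr

open Kusner (E4 vec Phi cH Perp)
open Kusner.Num Encl A2aux

theorem nrm3 {a b c : ℝ} (h : a ^ 2 + b ^ 2 + c ^ 2 = 1) : ‖(!₂[a, b, c] : E3)‖ = 1 := by
  have h1 : ‖(!₂[a, b, c] : E3)‖ ^ 2 = 1 := by
    rw [EuclideanSpace.real_norm_sq_eq, Fin.sum_univ_three]
    simpa using h
  have h2 := norm_nonneg (!₂[a, b, c] : E3)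
  nlinarith

theorem inn3 (a b c a' b' c' : ℝ) :
    inner ℝ (!₂[a, b, c] : E3) !₂[a', b', c'] = a * a' + b * b' + c * c' := by
  rw [PiLp.inner_apply, Fin.sum_univ_three]
  simp
  ring

theorem perp3 {w1 w2 w3 a1 a2 a3 b1 b2 b3 : ℝ} (ha : a1 ^ 2 + a2 ^ 2 + a3 ^ 2 = 1)
    (hb : b1 ^ 2 + b2 ^ 2 + b3 ^ 2 = 1) (hab : a1 * b1 + a2 * b2 + a3 * b3 = 0)
    (hwa : w1 * a1 + w2 * a2 + w3 * a3 = 0) (hwb : w1 * b1 + w2 * b2 + w3 * b3 = 0) :
    Perp !₂[w1, w2, w3] !₂[a1, a2, a3] !₂[b1, b2, b3] :=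
  ⟨nrm3 ha, nrm3 hb, by rw [inn3, hab], by rw [inn3, hwa], by rw [inn3, hwb]⟩

theorem perp_x {p q W : ℝ} (hW : p ^ 2 + q ^ 2 = W ^ 2) (h0 : 0 < W) :
    Perp !₂[0, p, q] !₂[1, 0, 0] !₂[0, -(q / W), p / W] := by
  refine perp3 (by ring) ?_ (by ring) (by ring) (by ring)
  field_simp
  linear_combination hW

theorem perp_x' {p q W : ℝ} (hW : p ^ 2 + q ^ 2 = W ^ 2) (h0 : 0 < W) :
    Perp !₂[0, p, q] !₂[0, -(q / W), p / W] !₂[1, 0, 0] := by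
  obtain ⟨h1, h2, h3, h4, h5⟩ := perp_x hW h0
  exact ⟨h2, h1, by rw [real_inner_comm]; exact h3, h5, h4⟩

theorem perp_gen {w1 w2 w3 W h : ℝ} (hh : w1 ^ 2 + w2 ^ 2 = h ^ 2)
    (hW : w1 ^ 2 + w2 ^ 2 + w3 ^ 2 = W ^ 2) (h0 : 0 < W) (h1 : 0 < h) :
    Perp !₂[w1, w2, w3] !₂[-((w3 * w1) / (W * h)), -((w3 * w2) / (W * h)), h / W]
      !₂[w2 / h, -(w1 / h), 0] := by
  have hW' : W ^ 2 = h ^ 2 + w3 ^ 2 := by linarith
  refine perp3 ?_ ?_ ?_ ?_ ?_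
  · field_simp
    linear_combination w3 ^ 2 * hh - h ^ 2 * hW'
  · field_simp
    linear_combination hh
  · field_simp
    ring
  · field_simp
    linear_combination -w3 * hh
  · field_simp
    ring

theorem perpC310 : Perp w310.v aC310 bC310 := perp_x null310 t1_pos

theorem perpC220 : Perp w220.v aC220 bC220 :=
  perp3 (by ring) (by ring) (by ring) (by ring) (by ring)

theorem t3_pos : 0 < t3 := lt_of_lt_of_le (by norm_num) i_t3.1

theorem inner_α2_v211' : x3 * (-φ / 2) + 1 / 2 * (-1 / 2) + z3 * ((φ - 1) / 2) = 0 := by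
  rw [z3]
  linear_combination (x3 * φ / 2 + 1 / 4) * φ_sq

theorem perpC211 : Perp w211.v aC211 bC211 := by
  have h1 := inner_α2_v211'
  have h2 := null211
  have h3 := φ_sq
  have h4 : t3 ≠ 0 := t3_pos.ne'
  refine perp3 ?_ ?_ ?_ ?_ ?_
  · linear_combination (1 / 2) * h3
  · have key : (1 / 2 * ((φ - 1) / 2) - z3 * -(1 / 2)) ^ 2 +
        (z3 * -(φ / 2) - x3 * ((φ - 1) / 2)) ^ 2 + (x3 * -(1 / 2) - 1 / 2 * -(φ / 2)) ^ 2 =
        t3 ^ 2 := by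
      linear_combination ((φ / 2) ^ 2 + (1 / 2) ^ 2 + ((φ - 1) / 2) ^ 2) * h2 +
        t3 ^ 2 * (1 / 2) * h3 -
        (x3 * (-φ / 2) + 1 / 2 * (-1 / 2) + z3 * ((φ - 1) / 2)) * h1
    rw [div_pow, div_pow, div_pow, ← add_div, ← add_div, key]
    exact div_self (pow_ne_zero 2 h4)
  · field_simp
    ring
  · linear_combination h1
  · field_simp
    ring


/-! ### differences of the sites -/

theorem wv320 : w310.v - w220.v = !₂[0, y1, z1 - t2] := by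
  apply b1_ext3 <;> simp [w310, w220]

theorem wv321 : w310.v - w211.v = !₂[-x3, y1 - 1 / 2, z1 - z3] := by
  apply b1_ext3 <;> simp [w310, w211]

theorem wv2221 : w220.v - w211.v = !₂[-x3, -(1 / 2), t2 - z3] := by
  apply b1_ext3 <;> simp [w220, w211]

theorem wvM211 : w211.v - (w211.map (s 1)).v = !₂[0, 1, 0] := by
  rw [m211_v]
  apply b1_ext3
  · simp [w211]
  · show (1 / 2 : ℝ) - -(1 / 2) = 1
    norm_num
  · simp [w211]

theorem wvM310 : w310.v - (w310.map (s 2)).v = !₂[-(φ / 2), -(1 / 2), (φ - 1) / 2] := by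
  rw [m310_v]
  apply b1_ext3 <;> simp [w310]

theorem ξ_eq : ξ = !₂[0, (√(1 + φ ^ 2))⁻¹, (√(1 + φ ^ 2))⁻¹ * φ] := by
  apply b1_ext3
  · rw [ξ_c0]; rfl
  · rw [ξ_c1]; rfl
  · rw [ξ_c2]; rfl

theorem wv3a3 : w310.v - wa3.v =
    !₂[0, y1 - s3 * (√(1 + φ ^ 2))⁻¹, z1 - s3 * ((√(1 + φ ^ 2))⁻¹ * φ)] := by
  show w310.v - s3 • ξ = _
  rw [ξ_eq]
  apply b1_ext3 <;> simp [w310]

theorem wv3a2 : w310.v - wa2.v =
    !₂[0, y1 - s2 * (√(1 + φ ^ 2))⁻¹, z1 - s2 * ((√(1 + φ ^ 2))⁻¹ * φ)] := by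
  show w310.v - s2 • ξ = _
  rw [ξ_eq]
  apply b1_ext3 <;> simp [w310]

theorem wva32 : wa3.v - wa2.v = (s3 - s2) • ξ := by
  show s3 • ξ - s2 • ξ = _
  rw [sub_smul]

/-! ### the other frames -/

theorem sqsum_pos {a b : ℝ} (h : b ≠ 0) : 0 < a ^ 2 + b ^ 2 := by positivity

theorem perpW320 : Perp (w310.v - w220.v) aW320 bW320 := by
  rw [wv320]
  have h : z1 - t2 ≠ 0 := by
    have h1 := i_z1.1
    have h2 := i_t2.2
    intro h
    norm_num at h1 h2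
    linarith
  have h0 : 0 < y1 ^ 2 + (z1 - t2) ^ 2 := by positivity
  exact perp_x' (Real.sq_sqrt h0.le).symm (Real.sqrt_pos.2 h0)

theorem x3_pos : 0 < x3 := lt_of_lt_of_le (by norm_num) i_x3.1

theorem perpW321 : Perp (w310.v - w211.v) aW321 bW321 := by
  rw [wv321]
  have h := x3_pos
  have h0 : 0 < (-x3) ^ 2 + (y1 - 1 / 2) ^ 2 := by
    have : 0 < (-x3) ^ 2 := by rw [neg_sq]; positivity
    positivity
  have h1 : 0 < (-x3) ^ 2 + (y1 - 1 / 2) ^ 2 + (z1 - z3) ^ 2 := by positivity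
  exact perp_gen (Real.sq_sqrt h0.le).symm (Real.sq_sqrt h1.le).symm (Real.sqrt_pos.2 h1)
    (Real.sqrt_pos.2 h0)

theorem perpW2221 : Perp (w220.v - w211.v) aW2221 bW2221 := by
  rw [wv2221]
  have h := x3_pos
  have h0 : 0 < (-x3) ^ 2 + (-(1 / 2) : ℝ) ^ 2 := by
    have : 0 < (-x3) ^ 2 := by rw [neg_sq]; positivity
    positivity
  have h1 : 0 < (-x3) ^ 2 + (-(1 / 2) : ℝ) ^ 2 + (t2 - z3) ^ 2 := by positivity
  exact perp_gen (Real.sq_sqrt h0.le).symm (Real.sq_sqrt h1.le).symm (Real.sqrt_pos.2 h1)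
    (Real.sqrt_pos.2 h0)

theorem perpM211 : Perp (w211.v - (w211.map (s 1)).v) aM211 bM211 := by
  rw [wvM211]
  exact perp3 (by ring) (by ring) (by ring) (by ring) (by ring)

theorem R_sq : ((√(1 + φ ^ 2))⁻¹) ^ 2 * (1 + φ ^ 2) = 1 := by
  have h : 0 < 1 + φ ^ 2 := by positivity
  rw [inv_pow, Real.sq_sqrt h.le, inv_mul_cancel₀ h.ne']

theorem perpM310 : Perp (w310.v - (w310.map (s 2)).v) aM310 bM310 := by
  rw [wvM310]
  have h1 := R_sq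
  have h3 := φ_sq
  refine perp3 ?_ ?_ ?_ ?_ ?_
  · linear_combination h1
  · linear_combination h1 + ((√(1 + φ ^ 2))⁻¹) ^ 2 * (φ ^ 2 + φ + 3) / 4 * h3
  · ring
  · linear_combination ((√(1 + φ ^ 2))⁻¹ / 2) * h3
  · ring

theorem perpW3a3 : Perp (w310.v - wa3.v) aW3a3 bW3a3 := by
  rw [wv3a3]
  have h : y1 - s3 * (√(1 + φ ^ 2))⁻¹ ≠ 0 := by
    have h1 := y1_6.2
    have h2 := i_a31.1
    intro h
    norm_num at h1 h2
    linarith
  have h0 : 0 < (y1 - s3 * (√(1 + φ ^ 2))⁻¹) ^ 2 +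
      (z1 - s3 * ((√(1 + φ ^ 2))⁻¹ * φ)) ^ 2 := by positivity
  exact perp_x (Real.sq_sqrt h0.le).symm (Real.sqrt_pos.2 h0)

theorem perpW3a2 : Perp (w310.v - wa2.v) aW3a2 bW3a2 := by
  rw [wv3a2]
  have h : y1 - s2 * (√(1 + φ ^ 2))⁻¹ ≠ 0 := by
    have h1 := y1_6.2
    have h2 := i_a21.1
    intro h
    norm_num at h1 h2
    linarith
  have h0 : 0 < (y1 - s2 * (√(1 + φ ^ 2))⁻¹) ^ 2 +
      (z1 - s2 * ((√(1 + φ ^ 2))⁻¹ * φ)) ^ 2 := by positivity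
  exact perp_x (Real.sq_sqrt h0.le).symm (Real.sqrt_pos.2 h0)

theorem perpξ : Perp ξ aCa3 bCa3 := by
  rw [ξ_eq]
  have h1 := R_sq
  refine perp3 (by ring) ?_ (by ring) (by ring) (by ring)
  linear_combination h1

theorem Perp_smul {w a b : E3} (h : Perp w a b) (c : ℝ) : Perp (c • w) a b :=
  ⟨h.na, h.nb, h.ab, by rw [inner_smul_left, h.wa, mul_zero],
    by rw [inner_smul_left, h.wb, mul_zero]⟩

theorem perpCa3 : Perp wa3.v aCa3 bCa3 := Perp_smul perpξ s3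

theorem perpA32 : Perp (wa3.v - wa2.v) aA32 bA32 := by
  rw [wva32]
  exact Perp_smul perpξ _

end Fr

end Kus64.NN
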