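import Pool.Agent.helper64.Kus.Film
import Pool.Agent.helper11.Kus3.PieceC

/-!
# From the certificates to the film integrals: generic part

* `cmp w w'` is the constraint `w'.lin - w.lin ≤ 0`, `mir m` the constraint `0 ≤ inner (α m) y`;
* `wall_piece`, `cap_piece`: bounds of the integrals `II` over the chamber.
-/

open Set Metric MeasureTheory
open scoped ContDiff Topology

namespace Kus64.NN

open Kusner (E4 vec Phi cH Perp)
open Kusner.Num Kusner.Num.P

/-! ### Closedness of the films -/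

theorem norm_E4 (Y : E4) : ‖Y‖ ^ 2 = Y 0 ^ 2 + ‖vec Y‖ ^ 2 := by
  rw [EuclideanSpace.real_norm_sq_eq, EuclideanSpace.real_norm_sq_eq, Fin.sum_univ_four,
    Fin.sum_univ_three]
  simp [vec]
  ring

theorem onS_of_norm {Y : E4} (h : ‖Y‖ = 1) : OnS (Y 0) (vec Y) := by
  have := norm_E4 Y
  rw [h] at this
  unfold OnS
  linarith

theorem vec_continuous : Continuous (vec : E4 → E3) := by
  unfold vec
  fun_prop

theorem F_continuous (w : Site) : Continuous fun Y : E4 => F w (Y 0) (vec Y) := by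
  unfold F Site.lin
  split_ifs
  · fun_prop
  · fun_prop
  · have := vec_continuous
    fun_prop

theorem isClosed_Act (w : Site) : IsClosed {Y : E4 | Act w (Y 0) (vec Y)} := by
  by_cases hw : w ∈ Sites
  · have e : {Y : E4 | Act w (Y 0) (vec Y)} =
        ⋂ w' ∈ Sites, {Y : E4 | F w' (Y 0) (vec Y) ≤ F w (Y 0) (vec Y)} := by
      ext Y
      simp only [Act, mem_ofPred_eq, mem_iInter]
      exact ⟨fun h => h.2, fun h => ⟨hw, h⟩⟩
    rw [e]
    exact isClosed_biInter fun w' _ => isClosed_le (F_continuous w') (F_continuous w)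
  · have e : {Y : E4 | Act w (Y 0) (vec Y)} = ∅ := by
      ext Y
      simp only [Act, mem_ofPred_eq, mem_empty_iff_false, iff_false]
      exact fun h => hw h.1
    rw [e]
    exact isClosed_empty

theorem isClosed_filmS (w w' : Site) : IsClosed (filmS w w') := by
  have e : filmS w w' = {Y : E4 | ‖Y‖ = 1} ∩ ({Y | Act w (Y 0) (vec Y)} ∩
      {Y | Act w' (Y 0) (vec Y)}) := by
    ext Y
    simp [filmS]
  rw [e]
  exact (isClosed_eq continuous_norm continuous_const).inter
    ((isClosed_Act w).inter (isClosed_Act w'))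

theorem isClosed_DD : IsClosed DD := by
  have e : DD = {Y : E4 | 0 ≤ Y 0} ∩ ⋂ i : Fin 3, {Y : E4 | 0 ≤ inner ℝ (α i) (vec Y)} := by
    ext Y
    simp [DD, D]
  rw [e]
  have := vec_continuous
  exact (isClosed_le continuous_const (by fun_prop)).inter
    (isClosed_iInter fun i => isClosed_le continuous_const (by fun_prop))

theorem measurable_film (w w' : Site) : MeasurableSet (filmS w w' ∩ DD) :=
  ((isClosed_filmS w w').inter isClosed_DD).measurableSet

theorem Phi_neg (e m : ℝ) : Phi e (-m) = Phi e m := by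
  unfold Phi
  ring

theorem filmS_comm (w w' : Site) : filmS w w' = filmS w' w := by
  ext Y
  simp only [filmS, mem_ofPred_eq]
  tauto

theorem II_comm (w w' : Site) (Δ : Set E4) : II w w' Δ = II w' w Δ := by
  unfold II
  rw [filmS_comm w w']
  congr 1
  ext Y
  rw [← Phi_neg]
  congr 1
  ring

theorem II_empty {w w' : Site} (h : filmS w w' ∩ DD = ∅) : II w w' DD = 0 := by
  unfold II
  rw [h]
  simp

/-! ### Constraints -/

/-- The comparison constraint `w'.lin - w.lin ≤ 0`. -/
noncomputable def cmp (w w' : Site) : Con := ⟨w'.b - w.b, w'.v - w.v, w'.t - w.t⟩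

theorem cmp_val (w w' : Site) (Y : E4) :
    (cmp w w').val Y = w'.lin (Y 0) (vec Y) - w.lin (Y 0) (vec Y) := by
  simp only [Con.val, cmp, Site.lin, inner_sub_left]
  ring

/-- The site with `lin = η - 7/10`. -/
noncomputable def wC7 : Site := ⟨1, 0, 7 / 10⟩

/-- The mirror constraint. -/
noncomputable def mir (m : Fin 3) : Con := ⟨0, -(α m), 0⟩

theorem mir_val (m : Fin 3) (Y : E4) : (mir m).val Y = -inner ℝ (α m) (vec Y) := by
  simp [Con.val, mir]

theorem lin_C (Y : E4) : wC.lin (Y 0) (vec Y) = -(Y 0) := by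
  simp [Site.lin, wC]

theorem lin_C7 (Y : E4) : wC7.lin (Y 0) (vec Y) = Y 0 - 7 / 10 := by
  simp [Site.lin, wC7]

/-- The constraint list of a film based at `w`. -/
noncomputable def consR (w : Site) (L : List Site) (M : List (Fin 3)) : List Con :=
  cmp w wC :: cmp w wC7 :: (L.map (cmp w) ++ M.map mir)

theorem consR_out {w : Site} {L : List Site} {M : List (Fin 3)} {Y : E4} (hY : vec Y ∈ D)
    (hC : 7 / 20 ≤ Y 0 → -(Y 0) ≤ w.lin (Y 0) (vec Y))
    (hC7 : Y 0 ≤ 7 / 20 → Y 0 - 7 / 10 ≤ w.lin (Y 0) (vec Y))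
    (hL : ∀ u ∈ L, u.lin (Y 0) (vec Y) ≤ w.lin (Y 0) (vec Y)) (j : ℕ) (g : Con)
    (hg : (consR w L M)[j]? = some g) (h0 : j = 0 → 7 / 20 ≤ Y 0) (h1 : j = 1 → Y 0 ≤ 7 / 20) :
    g.val Y ≤ 0 := by
  rcases j with _ | _ | j
  · simp only [consR, List.getElem?_cons_zero, Option.some.injEq] at hg
    subst hg
    rw [cmp_val, lin_C]
    have := hC (h0 rfl)
    linarith
  · simp only [consR, zero_add, List.getElem?_cons_succ, List.getElem?_cons_zero,
      Option.some.injEq] at hg
    subst hg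
    rw [cmp_val, lin_C7]
    have := hC7 (h1 rfl)
    linarith
  · simp only [consR, List.getElem?_cons_succ] at hg
    have hm := List.mem_of_getElem? hg
    rw [List.mem_append, List.mem_map, List.mem_map] at hm
    rcases hm with ⟨u, hu, rfl⟩ | ⟨m, _, rfl⟩
    · rw [cmp_val]
      have := hL u hu
      linarith
    · rw [mir_val]
      have := hY m
      linarith

/-- Bounds of `F wC` by the two affine functions. -/
theorem FC_ge {η : ℝ} {y : E3} {c : ℝ} (h : F wC η y ≤ c) :
    (7 / 20 ≤ η → -η ≤ c) ∧ (η ≤ 7 / 20 → η - 7 / 10 ≤ c) := by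
  rw [F_C] at h
  constructor
  · intro h1
    rw [max_eq_left (by linarith)] at h
    exact h
  · intro h1
    rw [max_eq_right (by linarith)] at h
    linarith

theorem FC_le {η : ℝ} {y : E3} {c : ℝ} (h : -η ≤ c ∨ η - 7 / 10 ≤ c) : F wC η y ≤ c := by
  rw [F_C]
  rcases h with h | h
  · have := le_max_left η (7 / 10 - η)
    linarith
  · have := le_max_right η (7 / 10 - η)
    linarith

theorem E4_le_one {Y : E4} (h : ‖Y‖ = 1) : Y 0 ≤ 1 := by
  have := norm_E4 Y
  rw [h] at this
  nlinarith [sq_nonneg ‖vec Y‖, sq_nonneg (Y 0 - 1)]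

/-! ### Walls: both sites are small -/

theorem wall_piece {f : QFilm} {strips : List QStrip} {wlo whi bound : ℚ}
    (hok : pieceOK f (1 / 1000000) (4 / 100000) (1 / 50) 0 1 strips wlo whi bound = true)
    {w w' : Site} (hw : w ∈ Small) (hw' : w' ∈ Small) (h6 : ∃ i : Fin 6, w = six i)
    (hq : w.q w' = 1) (hne : w.v - w'.v ≠ 0) {a b : E3} (hab : Perp (w.v - w'.v) a b)
    (L : List Site) (hL : ∀ u ∈ L, u ∈ Small) (M : List (Fin 3))
    (hcov : ∀ i : Fin 6, i = 0 ∨ six i = w ∨ six i = w' ∨ six i ∈ L)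
    (hD : ∀ Y : E4, (w.b - w'.b) * Y 0 + inner ℝ (w.v - w'.v) (vec Y) = w.t - w'.t →
      (∀ m ∈ M, 0 ≤ inner ℝ (α m) (vec Y)) → vec Y ∈ D)
    (hcl : FilmClose (1 / 1000000) f (w.b - w'.b) (w.t - w'.t) (w.v - w'.v) a b (consR w L M))
    (hcos : ∀ Y ∈ filmS w w' ∩ DD, 0 ≤ inner ℝ a (vec Y)) :
    II w w' DD ≤ cH * bound := by
  have film_eq : ∀ Y : E4, w.lin (Y 0) (vec Y) = w'.lin (Y 0) (vec Y) ↔
      (w.b - w'.b) * Y 0 + inner ℝ (w.v - w'.v) (vec Y) = w.t - w'.t := by
    intro Y
    simp only [Site.lin, inner_sub_left]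
    constructor <;> intro h <;> linarith
  have hS : ∀ Y ∈ filmS w w' ∩ DD, w.lin (Y 0) (vec Y) = w'.lin (Y 0) (vec Y) ∧
      ∀ u ∈ Sites, F u (Y 0) (vec Y) ≤ w.lin (Y 0) (vec Y) := by
    rintro Y ⟨⟨-, h1, h2⟩, -⟩
    have e1 := h1.2 w' (small_mem hw')
    have e2 := h2.2 w (small_mem hw)
    rw [F_small hw, F_small hw'] at e1
    rw [F_small hw, F_small hw'] at e2
    refine ⟨le_antisymm e2 e1, fun u hu => ?_⟩
    have := h1.2 u hu
    rwa [F_small hw] at this
  refine piece_bound hok hcl ?_ hne hab (measurable_film w w') (fun Y hY => hY.1.1)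
    (fun Y hY => (film_eq Y).1 (hS Y hY).1) (fun Y hY => by simpa using hY.2.1)
    (fun Y hY => by exact_mod_cast E4_le_one hY.1.1) hcos ?_ ?_
  · rw [Site.q] at hq
    exact hq
  · intro Y hY j g hg h0 h1
    obtain ⟨-, hF⟩ := hS Y hY
    have hFC := FC_ge (hF wC wC_mem)
    refine consR_out hY.2.2 hFC.1 hFC.2 (fun u hu => ?_) j g hg h0 h1
    have := hF u (small_mem (hL u hu))
    rwa [F_small (hL u hu)] at this
  · intro _ Y hY1 hY2 hY0 hj h01
    have hY0' : 0 ≤ Y 0 := by simpa using hY0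
    have hlin := (film_eq Y).2 hY2
    have hmem : ∀ g ∈ L.map (cmp w) ++ M.map mir, g.val Y ≤ 0 := by
      intro g hg
      obtain ⟨j, hj1, rfl⟩ := List.getElem_of_mem hg
      refine hj (j + 2) _ ?_ (by omega)
      simp only [consR, List.getElem?_cons_succ]
      exact List.getElem?_eq_getElem hj1
    have hYD : vec Y ∈ D := by
      refine hD Y hY2 fun m hm => ?_
      have := hmem (mir m) (List.mem_append_right _ (List.mem_map.2 ⟨m, hm, rfl⟩))
      rw [mir_val] at this
      linarith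
    have hLle : ∀ u ∈ L, u.lin (Y 0) (vec Y) ≤ w.lin (Y 0) (vec Y) := by
      intro u hu
      have := hmem (cmp w u) (List.mem_append_left _ (List.mem_map.2 ⟨u, hu, rfl⟩))
      rw [cmp_val] at this
      linarith
    have hCle : F wC (Y 0) (vec Y) ≤ w.lin (Y 0) (vec Y) := by
      refine FC_le ?_
      obtain ⟨g, hg | hg, hv⟩ := h01
      · simp only [consR, List.getElem?_cons_zero, Option.some.injEq] at hg
        subst hg
        rw [cmp_val, lin_C] at hv
        exact Or.inl (by linarith)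
      · simp only [consR, List.getElem?_cons_succ, List.getElem?_cons_zero,
          Option.some.injEq] at hg
        subst hg
        rw [cmp_val, lin_C7] at hv
        exact Or.inr (by linarith)
    have hAct : Act w (Y 0) (vec Y) := by
      obtain ⟨i, rfl⟩ := h6
      rw [act_six hY0' hYD]
      intro j
      rw [F_small hw]
      rcases hcov j with rfl | h | h | h
      · exact hCle
      · rw [h, F_small hw]
      · rw [h, F_small hw', hlin]
      · rw [F_small (hL _ h)]
        exact hLle _ h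
    refine ⟨⟨hY1, hAct, small_mem hw', fun u hu => ?_⟩, hY0', hYD⟩
    have := hAct.2 u hu
    rw [F_small hw, hlin] at this
    rwa [F_small hw']

/-! ### Caps: films of the big cell `wC` -/

theorem cap_piece {f : QFilm} {strips : List QStrip} {wlo whi bound : ℚ}
    (hok : pieceOK f (1 / 1000000) (4 / 100000) (1 / 50) (7 / 20) 1 strips wlo whi bound = true)
    (hkind : ∀ s ∈ strips, s.kind ≠ 0)
    {w : Site} (hw : w ∈ Small) (hq : wC.q w = 1) (hne : w.v ≠ 0) {a b : E3} (hab : Perp w.v a b)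
    (L : List Site) (hL : ∀ u ∈ L, u ∈ Small) (M : List (Fin 3))
    (hcl : FilmClose (1 / 1000000) f (w.b + 1) w.t w.v a b (consR w L M))
    (hcos : ∀ Y ∈ filmS wC w ∩ DD, 0 ≤ inner ℝ a (vec Y)) :
    II wC w DD ≤ cH * bound := by
  have hS : ∀ Y ∈ filmS wC w ∩ DD, 7 / 20 < Y 0 ∧ -(Y 0) = w.lin (Y 0) (vec Y) ∧
      ∀ u ∈ Sites, F u (Y 0) (vec Y) ≤ w.lin (Y 0) (vec Y) := by
    rintro Y ⟨⟨h0, h1, h2⟩, -⟩
    have hon := onS_of_norm h0
    have h7 := act_C hon h1
    have e1 := h1.2 w (small_mem hw)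
    have e2 := h2.2 wC wC_mem
    rw [F_eq_lin hon h1, lin_C, F_small hw] at e1 e2
    refine ⟨h7, le_antisymm e2 e1, fun u hu => ?_⟩
    have := h2.2 u hu
    rwa [F_small hw] at this
  have key := piece_bound (S := filmS wC w ∩ DD) hok hcl ?_ hne hab (measurable_film wC w)
    (fun Y hY => hY.1.1) ?_ (fun Y hY => ?_)
    (fun Y hY => by exact_mod_cast E4_le_one hY.1.1) hcos ?_ ?_
  · rw [II_comm]
    unfold II
    rw [filmS_comm w wC]
    refine le_trans (le_of_eq ?_) key
    congr 1
    ext Y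
    simp [wC]
  · rw [q_symm, Site.q] at hq
    have e : w.v - wC.v = w.v := by simp [wC]
    rw [e] at hq
    simp only [wC] at hq
    linarith
  · intro Y hY
    have h := (hS Y hY).2.1
    simp only [Site.lin] at h
    linarith
  · have := (hS Y hY).1
    push_cast
    linarith
  · intro Y hY j g hg h0 h1
    obtain ⟨h7, hl, hF⟩ := hS Y hY
    refine consR_out hY.2.2 (fun _ => hl.le) (fun h => absurd h7 (not_lt.2 h)) (fun u hu => ?_)
      j g hg h0 h1
    have := hF u (small_mem (hL u hu))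
    rwa [F_small (hL u hu)] at this
  · rintro ⟨s, hs, hs0⟩
    exact absurd hs0 (hkind s hs)

end Kus64.NN
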