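import Pool.Agent.helper14.Kus3.Defs

/-!
# The trace of the derivative of the acceleration
-/

open Set Metric MeasureTheory
open scoped ContDiff Topology

namespace Kusner.P

theorem two_le_infty : (2 : WithTop ℕ∞) ≤ ∞ := by
  have h : ((2 : ℕ∞) : WithTop ℕ∞) ≤ ((⊤ : ℕ∞) : WithTop ℕ∞) := WithTop.coe_le_coe.2 le_top
  exact h

theorem trace_acc {X : E3 → E3} (hX : ContDiff ℝ ∞ X)
    (hdiv : ∀ x, LinearMap.trace ℝ E3 (fderiv ℝ X x).toLinearMap = 0) (x : E3) :
    LinearMap.trace ℝ E3 (fderiv ℝ (fun y => fderiv ℝ X y (X y)) x).toLinearMap =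
      LinearMap.trace ℝ E3 ((fderiv ℝ X x).comp (fderiv ℝ X x)).toLinearMap := by
  let T : (E3 →L[ℝ] E3) →L[ℝ] ℝ := LinearMap.toContinuousLinearMap
    ((LinearMap.trace ℝ E3).comp (ContinuousLinearMap.coeLM ℝ))
  have hT : ∀ M : E3 →L[ℝ] E3, T M = LinearMap.trace ℝ E3 M.toLinearMap := fun M => rfl
  have hd1 : DifferentiableAt ℝ X x := hX.differentiable (by simp) x
  have hd2 : DifferentiableAt ℝ (fderiv ℝ X) x :=
    ((hX.of_le two_le_infty).fderiv_right
      (m := 1) (by norm_num)).differentiable (by simp) x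
  have h1 : fderiv ℝ (fun y => fderiv ℝ X y (X y)) x =
      (fderiv ℝ X x).comp (fderiv ℝ X x) + fderiv ℝ (fderiv ℝ X) x (X x) := by
    have h := (hd2.hasFDerivAt.clm_apply hd1.hasFDerivAt).fderiv
    rw [h]
    have hs : IsSymmSndFDerivAt ℝ X x := (hX.contDiffAt (x := x)).isSymmSndFDerivAt
      (by simpa using two_le_infty)
    ext v : 1
    simp only [add_apply, ContinuousLinearMap.comp_apply,
      ContinuousLinearMap.flip_apply]
    rw [hs.eq v (X x)]
  have h2 : T (fderiv ℝ (fderiv ℝ X) x (X x)) = 0 := by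
    have h3 : (fun y => T (fderiv ℝ X y)) = fun _ => (0 : ℝ) := by
      funext y
      rw [hT, hdiv]
    have h4 : HasFDerivAt (fun y => T (fderiv ℝ X y)) (T.comp (fderiv ℝ (fderiv ℝ X) x)) x :=
      T.hasFDerivAt.comp x hd2.hasFDerivAt
    rw [h3] at h4
    have h5 := h4.unique (hasFDerivAt_const (0 : ℝ) x)
    have h6 := congrArg (fun L : E3 →L[ℝ] ℝ => L (X x)) h5
    simpa using h6
  rw [← hT, ← hT, h1, map_add, h2, add_zero]

end Kusner.P
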